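import Pool.Agent.H7.AD.Mid

/-! The whole transform. -/

open MeasureTheory Filter Topology Real
open scoped ENNReal

namespace Pool.Agent.H7.AD

open H370 TH803TW Pool.Agent.Y744 Pool.Agent.H7.PS Pool.Agent.H7.LH Pool.Agent.H7.FF

variable {κ : ℝ} {K : ℝ → ℝ}

lemma inv_sq_lint {x : ℝ} (hx : 0 < x) :
    ∫⁻ V in Set.Ioi x, ENNReal.ofReal (4 / V ^ 2) = ENNReal.ofReal (4 / x) := by
  have h1 := integrableOn_Ioi_rpow_of_lt (a := -2) (by norm_num) hx
  have h2 := integral_Ioi_rpow_of_lt (a := -2) (by norm_num) hx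
  have e : ∀ V ∈ Set.Ioi x, ENNReal.ofReal (4 / V ^ 2) =
      ENNReal.ofReal 4 * ENNReal.ofReal (V ^ (-2 : ℝ)) := by
    intro V hV
    have hV0 : 0 < V := hx.trans hV
    rw [← ENNReal.ofReal_mul (by norm_num)]
    congr 1
    rw [Real.rpow_neg hV0.le, div_eq_mul_inv, Real.rpow_two]
  rw [setLIntegral_congr_fun measurableSet_Ioi e, lintegral_const_mul' _ _ ENNReal.ofReal_ne_top,
    ← ofReal_integral_eq_lintegral_ofReal h1
    ((ae_restrict_iff' measurableSet_Ioi).2 (Eventually.of_forall fun V hV => by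
      have hV0 : 0 < V := hx.trans hV
      show 0 ≤ V ^ (-2 : ℝ)
      positivity)), h2, ← ENNReal.ofReal_mul (by norm_num)]
  congr 1
  rw [show (-2 : ℝ) + 1 = -1 by norm_num, Real.rpow_neg_one]
  field_simp

lemma five {f : ℝ → ℝ≥0∞} {x1 x2 x3 x4 : ℝ} :
    ∫⁻ t in Set.Ioi (0 : ℝ), f t ≤ (∫⁻ t in Set.Ioc 0 x1, f t) + (∫⁻ t in Set.Ioc x1 x2, f t) +
      (∫⁻ t in Set.Ioc x2 x3, f t) + (∫⁻ t in Set.Ioc x3 x4, f t) + ∫⁻ t in Set.Ioi x4, f t := by
  have hsub : Set.Ioi (0 : ℝ) ⊆ Set.Ioc 0 x1 ∪ Set.Ioc x1 x2 ∪ Set.Ioc x2 x3 ∪ Set.Ioc x3 x4 ∪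
      Set.Ioi x4 := by
    intro t ht
    have ht0 : 0 < t := ht
    simp only [Set.mem_union, Set.mem_Ioc, Set.mem_Ioi]
    rcases le_or_gt t x1 with h1 | h1
    · exact Or.inl (Or.inl (Or.inl (Or.inl ⟨ht0, h1⟩)))
    rcases le_or_gt t x2 with h2 | h2
    · exact Or.inl (Or.inl (Or.inl (Or.inr ⟨h1, h2⟩)))
    rcases le_or_gt t x3 with h3 | h3
    · exact Or.inl (Or.inl (Or.inr ⟨h2, h3⟩))
    rcases le_or_gt t x4 with h4 | h4
    · exact Or.inl (Or.inr ⟨h3, h4⟩)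
    · exact Or.inr h4
  refine (lintegral_mono_set hsub).trans ?_
  refine (lintegral_union_le _ _ _).trans (add_le_add ?_ le_rfl)
  refine (lintegral_union_le _ _ _).trans (add_le_add ?_ le_rfl)
  refine (lintegral_union_le _ _ _).trans (add_le_add ?_ le_rfl)
  exact lintegral_union_le _ _ _

/-- **the whole transform** -/
theorem total (RH : RiemannHypothesis) (h : QQ) (hK : TK κ K) (hκ : 0 ≤ κ) (hpos : ∀ x, 0 ≤ K x)
    (h0 : ∀ x, 0 < x → x < 1 / 2 → K x = 0) (hK1 : ∀ x, K x ≤ 1) {η : ℝ} (hη : 0 < η)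
    {ε : ℝ} (hε : 0 < ε) : ∀ᶠ T : ℝ in atTop,
      ∫⁻ t in Set.Ioi (0 : ℝ), wd (Real.log (1 + 1 / T)) t * ZZ K T t ≤
        ENNReal.ofReal (((1 + η) * (Real.sqrt π / 2) * Lam AG K * π + ε) *
          (Real.log T ^ 2 / T)) := by
  have hpi := Real.pi_pos
  obtain ⟨B, hBd⟩ : ∃ B, B = 6 * κ + 2 := ⟨_, rfl⟩
  have hB : 1 ≤ B := by rw [hBd]; linarith
  obtain ⟨C1, hC1, hblk⟩ := blk_bound RH hK hκ hpos h0 hB
  obtain ⟨C2, hC2, hlow⟩ := low_rng RH (b := max κ 1) hK (le_max_left _ _) (le_max_right _ _) hK1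
  obtain ⟨C3, hC3, hfar⟩ := far_pt hK hκ hK1
  have hlog : 0 < Real.log (3 / 2) := Real.log_pos (by norm_num)
  obtain ⟨g, hg⟩ : ∃ g, g = C1 / Real.log (3 / 2) := ⟨_, rfl⟩
  have hg0 : 0 < g := by rw [hg]; positivity
  obtain ⟨a, ha⟩ : ∃ a, a = ε / (8 * g) := ⟨_, rfl⟩
  have ha0 : 0 < a := by rw [ha]; positivity
  have hga : g * a = ε / 8 := by
    rw [ha]
    field_simp
  obtain ⟨R, hR⟩ : ∃ R, R = a + 48 * g / ε := ⟨_, rfl⟩
  have haR : a < R := by
    rw [hR]
    have : 0 < 48 * g / ε := by positivity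
    linarith
  have hR0 : 0 < R := by linarith
  have hgR : g * (6 / R) ≤ ε / 8 := by
    rw [← mul_div_assoc, div_le_iff₀ hR0]
    have : 48 * g / ε ≤ R := by rw [hR]; linarith
    rw [div_le_iff₀ hε] at this
    linarith
  have hmain := main_rng RH h hK hκ hpos h0 hη ha0 haR (ε := ε / 8) (by positivity)
  obtain ⟨Y, hY⟩ : ∃ Y, Y = (1 + η) * (Real.sqrt π / 2) * Lam AG K * π := ⟨_, rfl⟩
  have hY0 : 0 ≤ Y := by
    have := Lam_pos' hK hpos
    rw [hY]
    positivity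
  rw [← hY] at hmain ⊢
  -- growth
  have t1 : ∀ᶠ T : ℝ in atTop, T ^ (1 / 9 : ℝ) ≤ 2 / 3 * T ^ (1 / 8 : ℝ) := by
    have : Tendsto (fun T : ℝ => T ^ (1 / 72 : ℝ)) atTop atTop := tendsto_rpow_atTop (by norm_num)
    filter_upwards [this.eventually_ge_atTop 2, eventually_gt_atTop 0] with T h1 h2
    have e : T ^ (1 / 8 : ℝ) = T ^ (1 / 9 : ℝ) * T ^ (1 / 72 : ℝ) := by
      rw [← Real.rpow_add h2]
      norm_num
    rw [e]
    have := Real.rpow_pos_of_pos h2 (1 / 9)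
    nlinarith
  have t2 : ∀ᶠ T : ℝ in atTop, T ^ (1 / 8 : ℝ) ≤ a * T := by
    have : Tendsto (fun T : ℝ => T ^ (7 / 8 : ℝ)) atTop atTop := tendsto_rpow_atTop (by norm_num)
    filter_upwards [this.eventually_ge_atTop (1 / a), eventually_gt_atTop 0] with T h1 h2
    have e : T = T ^ (7 / 8 : ℝ) * T ^ (1 / 8 : ℝ) := by
      rw [← Real.rpow_add h2]
      norm_num
    have h3 := Real.rpow_pos_of_pos h2 (1 / 8)
    rw [div_le_iff₀ ha0] at h1
    calc T ^ (1 / 8 : ℝ) = 1 * T ^ (1 / 8 : ℝ) := (one_mul _).symm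
      _ ≤ (T ^ (7 / 8 : ℝ) * a) * T ^ (1 / 8 : ℝ) := mul_le_mul_of_nonneg_right h1 h3.le
      _ = a * (T ^ (7 / 8 : ℝ) * T ^ (1 / 8 : ℝ)) := by ring
      _ = a * T := by rw [← e]
  have t3 : ∀ᶠ T : ℝ in atTop, R * T ≤ T ^ B := by
    filter_upwards [eventually_ge_atTop R, eventually_ge_atTop 1] with T h1 h2
    have h3 : T ^ (2 : ℝ) ≤ T ^ B := Real.rpow_le_rpow_of_exponent_le h2 (by rw [hBd]; linarith)
    rw [Real.rpow_two] at h3
    nlinarith
  have t4 : ∀ᶠ T : ℝ in atTop, C2 * T ^ (-(1 / 4) : ℝ) ≤ ε / 8 * Real.log T := by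
    filter_upwards [Real.tendsto_log_atTop.eventually_ge_atTop (8 * C2 / ε),
      eventually_ge_atTop 1] with T h1 h2
    rw [div_le_iff₀ hε] at h1
    have h3 : T ^ (-(1 / 4) : ℝ) ≤ 1 := Real.rpow_le_one_of_one_le_of_nonpos h2 (by norm_num)
    nlinarith
  have t5 : ∀ᶠ T : ℝ in atTop, 4 * C3 ≤ ε / 8 * (Real.log T * T) := by
    filter_upwards [Real.tendsto_log_atTop.eventually_ge_atTop (32 * C3 / ε),
      eventually_ge_atTop 1] with T h1 h2
    rw [div_le_iff₀ hε] at h1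
    have h3 : 0 ≤ Real.log T := Real.log_nonneg h2
    have h4 : Real.log T * 1 ≤ Real.log T * T := mul_le_mul_of_nonneg_left h2 h3
    nlinarith
  filter_upwards [hmain, hblk, t1, t2, t3, t4, t5, eventually_gt_atTop 1] with T hmain hblk t1 t2
    t3 t4 t5 hT
  have hTp : 0 < T := by linarith
  have hL : 0 < Real.log T := Real.log_pos hT
  obtain ⟨L, hLd⟩ : ∃ L, L = Real.log T := ⟨_, rfl⟩
  obtain ⟨δ, hδ⟩ : ∃ δ, δ = Real.log (1 + 1 / T) := ⟨_, rfl⟩
  have hws : ∀ t, 0 < t → wd δ t ≤ ENNReal.ofReal (1 / T ^ 2) := fun t ht => by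
    rw [hδ]
    exact wd_small hT ht
  rw [← hδ] at hmain ⊢
  rw [← hLd] at hmain hblk t4 t5 hL ⊢
  have hZ := ZZ_meas hK T
  have hTB : 0 < T ^ B := by positivity
  have hT8 : 0 < T ^ (1 / 8 : ℝ) := by positivity
  obtain ⟨q, hq⟩ : ∃ q, q = L ^ 2 / T := ⟨_, rfl⟩
  have hq0 : 0 < q := by rw [hq]; positivity
  rw [← hq] at hmain ⊢
  -- the five pieces
  have p1 : ∫⁻ t in Set.Ioc 0 (T ^ (1 / 8 : ℝ)), wd δ t * ZZ K T t ≤ ENNReal.ofReal (ε / 8 * q) := by
    calc ∫⁻ t in Set.Ioc 0 (T ^ (1 / 8 : ℝ)), wd δ t * ZZ K T t ≤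
        ∫⁻ t in Set.Ioc 0 (T ^ (1 / 8 : ℝ)), ENNReal.ofReal (1 / T ^ 2) * ZZ K T t :=
          setLIntegral_mono' measurableSet_Ioc fun t ht => mul_le_mul_left (hws t ht.1) _
      _ ≤ ENNReal.ofReal (1 / T ^ 2) * ENNReal.ofReal (C2 * (Real.log T * T ^ (3 / 4 : ℝ))) := by
          rw [lintegral_const_mul' _ _ ENNReal.ofReal_ne_top]
          exact mul_le_mul_right (hlow T hT) _
      _ ≤ _ := by
          rw [← ENNReal.ofReal_mul (by positivity), ← hLd]
          refine ENNReal.ofReal_le_ofReal ?_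
          have e1 : T ^ (3 / 4 : ℝ) = T ^ (-(1 / 4) : ℝ) * T := by
            nth_rewrite 3 [← Real.rpow_one T]
            rw [← Real.rpow_add hTp]
            norm_num
          have e2 : 1 / T ^ 2 * (C2 * (L * T ^ (3 / 4 : ℝ))) =
              (C2 * T ^ (-(1 / 4) : ℝ)) * (L / T) := by
            rw [e1]
            field_simp
          rw [e2, hq]
          refine (mul_le_mul_of_nonneg_right t4 (by positivity)).trans (le_of_eq ?_)
          ring
  have hb' : ∀ A1 A2 : ℝ, T ^ (1 / 8 : ℝ) ≤ A1 → A2 ≤ T ^ B → ∀ V, 2 / 3 * A1 ≤ V → V ≤ A2 →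
      ∫⁻ t in Set.Ioc V (3 / 2 * V), ZZ K T t ≤ ENNReal.ofReal (C1 * L ^ 2 * V) := by
    intro A1 A2 hA1 hA2 V hV1 hV2
    exact hblk V (by linarith) (by linarith)
  have p2 : ∫⁻ t in Set.Ioc (T ^ (1 / 8 : ℝ)) (a * T), wd δ t * ZZ K T t ≤
      ENNReal.ofReal (ε / 8 * q) := by
    have hm := mix hZ (φ := fun _ => 1) measurable_const (fun _ => zero_le_one)
      (fun _ _ _ _ => le_rfl) (A1 := T ^ (1 / 8 : ℝ)) (A2 := a * T) (c := C1 * L ^ 2) hT8
      (by positivity) (hb' _ _ le_rfl (by nlinarith))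
    calc ∫⁻ t in Set.Ioc (T ^ (1 / 8 : ℝ)) (a * T), wd δ t * ZZ K T t ≤
        ∫⁻ t in Set.Ioc (T ^ (1 / 8 : ℝ)) (a * T), ENNReal.ofReal (1 / T ^ 2) *
          (ENNReal.ofReal 1 * ZZ K T t) := by
          refine setLIntegral_mono' measurableSet_Ioc fun t ht => ?_
          rw [ENNReal.ofReal_one, one_mul]
          exact mul_le_mul_left (hws t (hT8.trans ht.1)) _
      _ ≤ ENNReal.ofReal (1 / T ^ 2) * (ENNReal.ofReal (C1 * L ^ 2 / Real.log (3 / 2)) *
          ENNReal.ofReal (a * T)) := by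
          rw [lintegral_const_mul' _ _ ENNReal.ofReal_ne_top]
          refine mul_le_mul_right (hm.trans (mul_le_mul_right ?_ _)) _
          rw [setLIntegral_const, Real.volume_Ioc, ENNReal.ofReal_one, one_mul]
          exact ENNReal.ofReal_le_ofReal (by linarith)
      _ ≤ _ := by
          rw [← ENNReal.ofReal_mul (by positivity), ← ENNReal.ofReal_mul (by positivity)]
          refine ENNReal.ofReal_le_ofReal (le_of_eq ?_)
          have e1 : C1 * L ^ 2 / Real.log (3 / 2) = g * L ^ 2 := by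
            rw [hg]
            ring
          have e2 : 1 / T ^ 2 * (g * L ^ 2 * (a * T)) = g * a * (L ^ 2 / T) := by
            field_simp
          rw [e1, e2, hga, hq]
  have p4 : ∫⁻ t in Set.Ioc (R * T) (T ^ B), wd δ t * ZZ K T t ≤ ENNReal.ofReal (ε / 8 * q) := by
    have hm := mix hZ (φ := fun t => 4 / t ^ 2) (by fun_prop) (fun _ => by positivity)
      (fun x y hx hxy => by
        refine div_le_div_of_nonneg_left (by norm_num) (by positivity) ?_
        exact pow_le_pow_left₀ hx.le hxy 2) (A1 := R * T) (A2 := T ^ B) (c := C1 * L ^ 2)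
      (by positivity) (by positivity) (hb' _ _ (by nlinarith) le_rfl)
    calc ∫⁻ t in Set.Ioc (R * T) (T ^ B), wd δ t * ZZ K T t ≤
        ∫⁻ t in Set.Ioc (R * T) (T ^ B), ENNReal.ofReal (4 / t ^ 2) * ZZ K T t :=
          setLIntegral_mono' measurableSet_Ioc fun t _ => mul_le_mul_left (wd_large δ t) _
      _ ≤ ENNReal.ofReal (C1 * L ^ 2 / Real.log (3 / 2)) *
          ENNReal.ofReal (4 / (2 / 3 * (R * T))) := by
          refine hm.trans (mul_le_mul_right ?_ _)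
          rw [← inv_sq_lint (by positivity)]
          exact lintegral_mono_set Set.Ioc_subset_Ioi_self
      _ ≤ _ := by
          rw [← ENNReal.ofReal_mul (by positivity)]
          refine ENNReal.ofReal_le_ofReal ?_
          have e1 : C1 * L ^ 2 / Real.log (3 / 2) * (4 / (2 / 3 * (R * T))) =
              g * (6 / R) * (L ^ 2 / T) := by
            rw [hg]
            field_simp
            ring
          rw [e1, hq]
          exact mul_le_mul_of_nonneg_right hgR (by positivity)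
  have p5 : ∫⁻ t in Set.Ioi (T ^ B), wd δ t * ZZ K T t ≤ ENNReal.ofReal (ε / 8 * q) := by
    calc ∫⁻ t in Set.Ioi (T ^ B), wd δ t * ZZ K T t ≤
        ∫⁻ t in Set.Ioi (T ^ B), ENNReal.ofReal (4 / t ^ 2) *
          ENNReal.ofReal (C3 * (Real.log T * T ^ (6 * κ))) :=
          setLIntegral_mono' measurableSet_Ioi fun t _ => mul_le_mul' (wd_large δ t) (hfar T hT t)
      _ = ENNReal.ofReal (4 / T ^ B) * ENNReal.ofReal (C3 * (Real.log T * T ^ (6 * κ))) := by
          rw [lintegral_mul_const' _ _ ENNReal.ofReal_ne_top, inv_sq_lint hTB]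
      _ ≤ _ := by
          rw [← ENNReal.ofReal_mul (by positivity), ← hLd]
          refine ENNReal.ofReal_le_ofReal ?_
          have e1 : T ^ B = T ^ (6 * κ) * T ^ 2 := by
            rw [hBd, Real.rpow_add hTp, Real.rpow_two]
          have hTk : 0 < T ^ (6 * κ) := by positivity
          have e2 : 4 / T ^ B * (C3 * (L * T ^ (6 * κ))) = 4 * C3 * (L / T ^ 2) := by
            rw [e1]
            field_simp
          rw [e2, hq]
          refine (mul_le_mul_of_nonneg_right t5 (by positivity)).trans (le_of_eq ?_)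
          field_simp
  refine five.trans ((add_le_add (add_le_add (add_le_add (add_le_add p1 p2) hmain) p4) p5).trans ?_)
  rw [← ENNReal.ofReal_add (by positivity) (by positivity),
    ← ENNReal.ofReal_add (by positivity) (by positivity),
    ← ENNReal.ofReal_add (by positivity) (by positivity),
    ← ENNReal.ofReal_add (by positivity) (by positivity)]
  refine ENNReal.ofReal_le_ofReal ?_
  nlinarith

end Pool.Agent.H7.AD
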