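import Pool.Agent.H7.LH.Pos

/-! The upper bound of the transform by the zeros, inside a dyadic block. -/

open Filter Topology Complex MeasureTheory
open scoped ENNReal

namespace Pool.Agent.H7.AD

open H370 TH803TW Pool.Agent.Y744 Pool.Agent.H7.PS Pool.Agent.H7.LH

/-- the pointwise bound -/
lemma ph_pt (RH : RiemannHypothesis) {a m : ℝ} (ha : 0 ≤ a) (hm : 0 < m) :
    ∃ C V0 : ℝ, 0 < C ∧ 10 ≤ V0 ∧
    ∀ V : ℝ, V0 ≤ V → ∀ P Q : ℝ, V ≤ P → Q ≤ 2 * V → ∀ u t : ℝ, Real.log V / m ≤ u →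
      u ≤ a * Real.log V → P + Real.log V ≤ t → t ≤ Q - Real.log V →
      ‖ph u t‖ ≤ Real.sqrt (2 * Real.pi) * ‖AA riemannZeta P Q u t‖ + C := by
  obtain ⟨C, V0, hC, hV0, h⟩ := ef_win RH ha
  have ev1 : ∀ᶠ V : ℝ in atTop, Real.log V * Real.exp (-(Real.log V / m) ^ 2 / 2) ≤ 1 := by
    filter_upwards [Real.tendsto_log_atTop.eventually_ge_atTop (2 * m ^ 2),
      Real.tendsto_log_atTop.eventually_ge_atTop 0] with V hV hVp
    have h1 : Real.log V ≤ Real.exp (Real.log V) := by
      have := Real.add_one_le_exp (Real.log V)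
      linarith
    calc Real.log V * Real.exp (-(Real.log V / m) ^ 2 / 2) ≤
        Real.exp (Real.log V) * Real.exp (-(Real.log V / m) ^ 2 / 2) :=
          mul_le_mul_of_nonneg_right h1 (Real.exp_pos _).le
      _ ≤ 1 := by
          rw [← Real.exp_add]
          apply Real.exp_le_one_iff.mpr
          have h2 : Real.log V ≤ (Real.log V / m) ^ 2 / 2 := by
            rw [div_pow, div_div, le_div_iff₀ (by positivity)]
            nlinarith
          linarith
  have ev2 : ∀ᶠ V : ℝ in atTop, a * Real.log V / 2 + 1 / 8 - V ^ 2 / 2 ≤ 0 := by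
    have h1 := (Real.isLittleO_log_id_atTop).bound (show (0 : ℝ) < 1 / (a + 1) by positivity)
    filter_upwards [h1, eventually_ge_atTop 2] with V hV hV2
    have hl : 0 ≤ Real.log V := Real.log_nonneg (by linarith)
    rw [Real.norm_of_nonneg hl, id, Real.norm_of_nonneg (by linarith)] at hV
    have h2 : (a + 1) * Real.log V ≤ V := by
      have h3 : (a + 1) * Real.log V ≤ (a + 1) * (1 / (a + 1) * V) :=
        mul_le_mul_of_nonneg_left hV (by linarith)
      have h4 : (a + 1) * (1 / (a + 1) * V) = V := by field_simp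
      linarith
    nlinarith
  obtain ⟨V1, hV1⟩ := (ev1.and ev2).exists_forall_of_atTop
  have hpi := Real.pi_gt_three
  have hs0 : 0 < Real.sqrt (2 * Real.pi) := by positivity
  refine ⟨Real.sqrt (2 * Real.pi) * C + 1 + Real.sqrt (2 * Real.pi), max V0 V1, by positivity,
    hV0.trans (le_max_left _ _), fun V hV P Q hP hQ u t hu hua h1 h2 => ?_⟩
  have hVV0 : V0 ≤ V := (le_max_left _ _).trans hV
  obtain ⟨e1, e2⟩ := hV1 V ((le_max_right _ _).trans hV)
  have hV10 : 10 ≤ V := hV0.trans hVV0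
  have hl1 : 1 ≤ Real.log V := by
    rw [Real.le_log_iff_exp_le (by linarith)]
    linarith [Real.exp_one_lt_d9]
  have hlm : 0 < Real.log V / m := by positivity
  have hu0 : 0 ≤ u := by linarith
  have hm' := h V hVV0 P Q hP hQ u t hu0 hua h1 h2
  obtain ⟨c0, hc0⟩ : ∃ c0, c0 = 1 / Real.sqrt (2 * Real.pi) := ⟨_, rfl⟩
  have hc00 : 0 < c0 := by rw [hc0]; positivity
  have h5 : Real.sqrt (2 * Real.pi) * c0 = 1 := by
    rw [hc0]
    field_simp
  rw [← hc0] at hm'
  -- the pole
  have hpole : ‖(Real.log V : ℂ) * cexp (I * u * t) * Real.exp (-u ^ 2 / 2)‖ ≤ 1 := by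
    rw [norm_mul, norm_mul, Complex.norm_real, Complex.norm_real,
        Real.norm_of_nonneg (by linarith), Real.norm_of_nonneg (Real.exp_pos _).le,
        show (I * u * t : ℂ) = ((u * t : ℝ) : ℂ) * I by push_cast; ring,
        Complex.norm_exp_ofReal_mul_I, mul_one]
    refine le_trans ?_ e1
    refine mul_le_mul_of_nonneg_left (Real.exp_le_exp.2 ?_) (by linarith)
    have : (Real.log V / m) ^ 2 ≤ u ^ 2 := pow_le_pow_left₀ (by positivity) hu 2
    linarith
  -- the primes
  have hPP : ‖ph u t‖ ≤ ‖PP H370.A2.lamC u t‖ + Real.sqrt (2 * Real.pi) := by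
    have h4 := ph_neg u t
    rw [← ofReal_norm, ← ofReal_norm, ENNReal.ofReal_eq_ofReal_iff (norm_nonneg _)
      (norm_nonneg _)] at h4
    rw [← h4]
    have h3 : ph u (-t) = charFun (mu rho1 u) (-t) - charFun (mu rho2 u) (-t) := rfl
    have h6 : ‖charFun (mu rho1 u) (-t)‖ = ‖PP H370.A2.lamC u t‖ := by
      rw [charFun_mu1, norm_mul, show (u * t * I : ℂ) = ((u * t : ℝ) : ℂ) * I by push_cast; ring,
        Complex.norm_exp_ofReal_mul_I, one_mul]
    rw [h3]
    refine (norm_sub_le _ _).trans (add_le_add (le_of_eq h6) ?_)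
    rw [charFun_mu2]
    refine mul_le_of_le_one_right (Real.sqrt_nonneg _) (Real.exp_le_one_iff.2 ?_)
    have h5 : V ^ 2 ≤ (-t) ^ 2 := by
      have h6 : V ≤ t := by linarith
      nlinarith
    linarith
  have h3 : (c0 : ℂ) * PP H370.A2.lamC u t = (AA riemannZeta P Q u t - (c0 : ℂ) *
      (Real.log V * cexp (I * u * t) * Real.exp (-u ^ 2 / 2) - PP H370.A2.lamC u t)) -
      (AA riemannZeta P Q u t - (c0 : ℂ) * (Real.log V * cexp (I * u * t) *
        Real.exp (-u ^ 2 / 2))) := by ring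
  have h4 : c0 * ‖PP H370.A2.lamC u t‖ ≤ C + (‖AA riemannZeta P Q u t‖ + c0) := by
    have k1 : c0 * ‖PP H370.A2.lamC u t‖ = ‖(c0 : ℂ) * PP H370.A2.lamC u t‖ := by
      rw [norm_mul, Complex.norm_real, Real.norm_of_nonneg hc00.le]
    rw [k1, h3]
    refine (norm_sub_le _ _).trans (add_le_add hm' ((norm_sub_le _ _).trans
      (add_le_add le_rfl ?_)))
    rw [norm_mul, Complex.norm_real, Real.norm_of_nonneg hc00.le]
    exact mul_le_of_le_one_right hc00.le hpole
  have h6 : ‖PP H370.A2.lamC u t‖ ≤ Real.sqrt (2 * Real.pi) * ‖AA riemannZeta P Q u t‖ +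
      (Real.sqrt (2 * Real.pi) * C + 1) := by
    have k2 := mul_le_mul_of_nonneg_left h4 hs0.le
    rw [← mul_assoc, h5, one_mul, mul_add, mul_add, h5] at k2
    linarith
  linarith

/-- the mean square of the transform -/
lemma ph_win (RH : RiemannHypothesis) {a m η : ℝ} (ha : 0 ≤ a) (hm : 0 < m) (hη : 0 < η) :
    ∃ C V0 : ℝ, 0 < C ∧ 10 ≤ V0 ∧ ∀ V : ℝ, V0 ≤ V → ∀ P Q : ℝ, V ≤ P → Q ≤ 2 * V →
      ∀ p q : ℝ, P + Real.log V ≤ p → p ≤ q → q ≤ Q - Real.log V → ∀ u : ℝ,
      Real.log V / m ≤ u → u ≤ a * Real.log V →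
      ∫ t in p..q, ‖ph u t‖ ^ 2 ≤ (1 + η) * (2 * Real.pi) * JJ riemannZeta P Q u + C * V := by
  obtain ⟨C, V0, hC, hV0, h⟩ := ph_pt RH ha hm
  refine ⟨(1 + 1 / η) * C ^ 2, V0, by positivity, hV0,
    fun V hV P Q hP hQ p q hp hpq hq u hu hua => ?_⟩
  have hV10 : 10 ≤ V := hV0.trans hV
  have hU : 1 ≤ P := by linarith
  have hpi := Real.pi_gt_three
  have hl1 : 1 ≤ Real.log V := by
    rw [Real.le_log_iff_exp_le (by linarith)]
    linarith [Real.exp_one_lt_d9]
  have hint := AA_sq_int good_zeta (U2 := Q) hU u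
  have hphc : Continuous fun t => ‖ph u t‖ ^ 2 := (ph_cont u).norm.pow 2
  have hAc : Continuous fun t => ‖AA riemannZeta P Q u t‖ ^ 2 :=
    (AA_cont good_zeta hU u).norm.pow 2
  have h1 : ∫ t in p..q, ‖AA riemannZeta P Q u t‖ ^ 2 ≤ JJ riemannZeta P Q u := by
    unfold JJ
    rw [intervalIntegral.integral_of_le hpq]
    exact setIntegral_le_integral hint (Eventually.of_forall fun t => by positivity)
  calc ∫ t in p..q, ‖ph u t‖ ^ 2 ≤
      ∫ t in p..q, ((1 + η) * (2 * Real.pi) * ‖AA riemannZeta P Q u t‖ ^ 2 +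
        (1 + 1 / η) * C ^ 2) := by
        refine intervalIntegral.integral_mono_on hpq (hphc.intervalIntegrable _ _)
          (((continuous_const.mul hAc).add continuous_const).intervalIntegrable _ _)
          fun t ht => ?_
        have k1 := h V hV P Q hP hQ u t hu hua (by linarith [ht.1]) (by linarith [ht.2])
        have k2 := pow_le_pow_left₀ (norm_nonneg _) k1 2
        refine k2.trans ((young hη).trans (le_of_eq ?_))
        rw [mul_pow, Real.sq_sqrt (by positivity)]
        ring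
    _ = (1 + η) * (2 * Real.pi) * (∫ t in p..q, ‖AA riemannZeta P Q u t‖ ^ 2) +
        (1 + 1 / η) * C ^ 2 * (q - p) := by
        have hc3 : Continuous fun t => (1 + η) * (2 * Real.pi) * ‖AA riemannZeta P Q u t‖ ^ 2 :=
          continuous_const.mul hAc
        rw [intervalIntegral.integral_add (hc3.intervalIntegrable _ _)
          (continuous_const.intervalIntegrable _ _), intervalIntegral.integral_const_mul,
          intervalIntegral.integral_const, smul_eq_mul]
        ring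
    _ ≤ _ := by
        refine add_le_add (mul_le_mul_of_nonneg_left h1 (by positivity)) ?_
        exact mul_le_mul_of_nonneg_left (by linarith) (by positivity)

variable {κ : ℝ} {K : ℝ → ℝ}

/-- removal of the Gaussian weight, reversed -/
lemma weight_rev (RH : RiemannHypothesis) (hK : TK κ K) (hκ : 0 ≤ κ) {m : ℝ} (hm : 0 < m) :
    ∃ C V0 : ℝ, 0 < C ∧ 10 ≤ V0 ∧
    ∀ V : ℝ, V0 ≤ V → ∀ P Q : ℝ, V ≤ P → Q ≤ 2 * V → ∀ L : ℝ, Real.log V / m ≤ L →
      2 * (∫ α in (0 : ℝ)..(κ + 1), K α * H370.A2.JN riemannZeta P Q (α * L)) ≤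
        QS (Zb P Q) (Zb P Q) mz (fun s => s.im) (ct K) L + C * V := by
  obtain ⟨Cw, hCw, hw⟩ := H370.A2.pair_weight good_zeta
  obtain ⟨C2, hC2, hN⟩ := NN_crude good_zeta
  obtain ⟨D, hD, hdec⟩ := hK.decay 1
  refine ⟨50 * D * m ^ 2 * Cw * C2 + 1, 10, by positivity, le_rfl, fun V hV P Q hP hQ L hL => ?_⟩
  have hV1 : 1 ≤ P := by linarith
  have hl1 : 1 ≤ Real.log V := by
    rw [Real.le_log_iff_exp_le (by linarith)]
    linarith [Real.exp_one_lt_d9]
  have hlm : 0 < Real.log V / m := by positivity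
  have hL0 : 0 < L := by linarith
  have h1 := H370.A2.int_JN RH (A := P) (B := Q) hV1 hK.cont (κ + 1) L
  have hcont : Continuous fun α : ℝ => K α * H370.A2.JN riemannZeta P Q (α * L) :=
    hK.cont.mul (JN_contw RH hV1 L)
  have h2 : ∫ α in (-(κ + 1))..(κ + 1), K α * H370.A2.JN riemannZeta P Q (α * L) =
      2 * ∫ α in (0 : ℝ)..(κ + 1), K α * H370.A2.JN riemannZeta P Q (α * L) := by
    rw [← intervalIntegral.integral_add_adjacent_intervals (b := 0)
      (hcont.intervalIntegrable _ _) (hcont.intervalIntegrable _ _)]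
    have h3 : ∫ α in (-(κ + 1))..0, K α * H370.A2.JN riemannZeta P Q (α * L) =
        ∫ α in (0 : ℝ)..(κ + 1), K α * H370.A2.JN riemannZeta P Q (α * L) := by
      have h4 := intervalIntegral.integral_comp_neg (a := 0) (b := κ + 1)
        (fun α => K α * H370.A2.JN riemannZeta P Q (α * L))
      rw [neg_zero] at h4
      rw [← h4]
      refine intervalIntegral.integral_congr fun α _ => ?_
      show K (-α) * H370.A2.JN riemannZeta P Q (-α * L) =
        K α * H370.A2.JN riemannZeta P Q (α * L)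
      rw [hK.even, neg_mul, JN_evenw RH hV1]
    rw [h3]
    ring
  rw [h2] at h1
  have hdiff : |(∑ s ∈ Zf riemannZeta P Q, ∑ s' ∈ Zf riemannZeta P Q,
      (mult riemannZeta s : ℝ) * (mult riemannZeta s' : ℝ) *
        (H370.A2.RR K (κ + 1) ((s.im - s'.im) * L / (2 * Real.pi)) *
          Real.exp (-(s.im - s'.im) ^ 2 / 4))) -
      QS (Zb P Q) (Zb P Q) mz (fun s => s.im) (ct K) L| ≤
      50 * D / L ^ 2 * (Cw * Real.log V * NN riemannZeta P Q) := by
    have hQ : QS (Zb P Q) (Zb P Q) mz (fun s => s.im) (ct K) L =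
        ∑ s ∈ Zf riemannZeta P Q, ∑ s' ∈ Zf riemannZeta P Q,
        (mult riemannZeta s : ℝ) * (mult riemannZeta s' : ℝ) *
        ct K ((s.im - s'.im) * L / (2 * Real.pi)) := rfl
    rw [hQ, ← Finset.sum_sub_distrib]
    simp_rw [← Finset.sum_sub_distrib]
    have h3 := hw V hV P Q hP (by linarith)
    calc _ ≤ ∑ s ∈ Zf riemannZeta P Q, ∑ s' ∈ Zf riemannZeta P Q,
        |(mult riemannZeta s : ℝ) * (mult riemannZeta s' : ℝ) *
        (H370.A2.RR K (κ + 1) ((s.im - s'.im) * L / (2 * Real.pi)) *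
          Real.exp (-(s.im - s'.im) ^ 2 / 4)) -
        (mult riemannZeta s : ℝ) * (mult riemannZeta s' : ℝ) *
        ct K ((s.im - s'.im) * L / (2 * Real.pi))| :=
          (Finset.abs_sum_le_sum_abs _ _).trans (Finset.sum_le_sum fun s _ =>
            Finset.abs_sum_le_sum_abs _ _)
      _ ≤ ∑ s ∈ Zf riemannZeta P Q, ∑ s' ∈ Zf riemannZeta P Q,
          50 * D / L ^ 2 * ((mult riemannZeta s : ℝ) * (mult riemannZeta s' : ℝ) *
          (1 / (1 + (s.im - s'.im) ^ 2))) := by
          refine Finset.sum_le_sum fun s _ => Finset.sum_le_sum fun s' _ => ?_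
          rw [← mul_sub, abs_mul, abs_of_nonneg (by positivity : (0 : ℝ) ≤
            (mult riemannZeta s : ℝ) * (mult riemannZeta s' : ℝ)), RR_ct hK hκ]
          have h4 : |ct K ((s.im - s'.im) * L / (2 * Real.pi))| *
              ((s.im - s'.im) * L / (2 * Real.pi)) ^ 2 ≤ D := by
            obtain ⟨y, hy⟩ : ∃ y, y = (s.im - s'.im) * L / (2 * Real.pi) := ⟨_, rfl⟩
            rw [← hy]
            have h5 := hdec y
            rw [pow_one, le_div_iff₀ (by positivity)] at h5
            have h6 := abs_nonneg (ct K y)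
            nlinarith
          have h2 := H370.A2.weight_free L (s.im - s'.im) D _ hL0 hD h4
          calc _ ≤ (mult riemannZeta s : ℝ) * (mult riemannZeta s' : ℝ) *
              (50 * D / L ^ 2 * (1 / (1 + (s.im - s'.im) ^ 2))) := by gcongr
            _ = _ := by ring
      _ = 50 * D / L ^ 2 * ∑ s ∈ Zf riemannZeta P Q, ∑ s' ∈ Zf riemannZeta P Q,
          ((mult riemannZeta s : ℝ) * (mult riemannZeta s' : ℝ) *
          (1 / (1 + (s.im - s'.im) ^ 2))) := by
          rw [Finset.mul_sum]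
          refine Finset.sum_congr rfl fun s _ => ?_
          rw [Finset.mul_sum]
      _ ≤ _ := by gcongr
  rw [← h1] at hdiff
  have h5 := (abs_le.1 hdiff).2
  have h6 : 50 * D / L ^ 2 * (Cw * Real.log V * NN riemannZeta P Q) ≤
      50 * D * m ^ 2 * Cw * C2 * V := by
    have h7 := hN V (by linarith) P Q hP hQ
    have h8 : (Real.log V / m) ^ 2 ≤ L ^ 2 := pow_le_pow_left₀ (by positivity) hL 2
    calc 50 * D / L ^ 2 * (Cw * Real.log V * NN riemannZeta P Q) ≤
        50 * D / (Real.log V / m) ^ 2 * (Cw * Real.log V * (C2 * (V * Real.log V))) := by gcongr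
      _ = _ := by
          field_simp
  linarith

/-- the crude bound for the pairs -/
lemma QS_nearm (RH : RiemannHypothesis) (hK : TK κ K) {m : ℝ} (hm : 1 ≤ m) :
    ∃ C V0 : ℝ, 0 < C ∧ 10 ≤ V0 ∧
    ∀ V : ℝ, V0 ≤ V → ∀ P Q : ℝ, V ≤ P → Q ≤ 2 * V → ∀ L : ℝ, Real.log V / m ≤ L →
      QS (Zb P Q) (Zb P Q) mz (fun s => s.im) (ct K) L ≤ C * (V * Real.log V) := by
  obtain ⟨C, B0, V0, hC, hB0, hV0, hblk, -⟩ := PP_bound RH
  obtain ⟨D, hD0, hD⟩ := hK.decay 1
  refine ⟨3200 * m ^ 2 * D * C + 1, V0, by positivity, by linarith,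
    fun V hV P Q hP hQ L hL => ?_⟩
  have hV20 : 20 ≤ V := hV0.trans hV
  have hl : 1 ≤ Real.log V := by
    rw [Real.le_log_iff_exp_le (by linarith)]
    linarith [Real.exp_one_lt_d9]
  have hlm : 0 < Real.log V / m := by positivity
  have hL0 : 0 < L := by linarith
  obtain ⟨r, hr⟩ : ∃ r, r = L / Real.log V := ⟨_, rfl⟩
  have hr2 : 1 ≤ m * r := by
    rw [hr, ← mul_div_assoc, le_div_iff₀ (by linarith)]
    rw [div_le_iff₀ (by positivity)] at hL
    linarith
  have e : QS (Zb P Q) (Zb P Q) mz (fun s => s.im) (ct K) L =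
      QS (Zb P Q) (Zb P Q) mz (fun s => s.im) (fun x => ct K (r * x)) (Real.log V) := by
    unfold QS
    refine Finset.sum_congr rfl fun s _ => Finset.sum_congr rfl fun s' _ => ?_
    congr 2
    rw [hr]
    field_simp
  rw [e]
  have h1 := QS_le_abs (x := fun s : ℂ => s.im) (Zb P Q) (Zb P Q) mz_nonneg
    (fun x => ct K (r * x)) (Real.log V)
  have h2 := QS_abs_bound (x := fun s : ℂ => s.im) (Zb P Q) (Zb P Q) mz_nonneg
    (f := fun x => ct K (r * x)) (K := m ^ 2 * D) (fun x => by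
      have h3 := hD (r * x)
      rw [pow_one] at h3
      refine h3.trans ?_
      rw [div_le_div_iff₀ (by positivity) (by positivity)]
      have h4 : x ^ 2 ≤ m ^ 2 * (r * x) ^ 2 := by
        have : 1 ≤ (m * r) ^ 2 := by nlinarith
        have h5 := mul_le_mul_of_nonneg_right this (sq_nonneg x)
        nlinarith
      have h5 : 1 ≤ m ^ 2 := by nlinarith
      nlinarith) (Λ := Real.log V) (by linarith) one_pos
  have h5 : PP1 (Zb P Q) mz (fun s => s.im) (Real.log V) ≤
      PP1 (Zb V (2 * V)) mz (fun s => s.im) (Real.log V) := by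
    refine PP1_mono (fun s hs => ?_) mz_nonneg _
    rw [mem_Zb (by linarith)] at hs ⊢
    exact ⟨hs.1, hs.2.1, by linarith [hs.2.2.1], by linarith [hs.2.2.2.1], hs.2.2.2.2⟩
  have h6 := hblk V hV
  have h7 := le_abs_self (QS (Zb P Q) (Zb P Q) mz (fun s => s.im) (fun x => ct K (r * x))
    (Real.log V))
  have h8 : 0 ≤ V * Real.log V := mul_nonneg (by linarith) (by linarith)
  have h9 : 1600 * (m ^ 2 * D) * (1 * PP1 (Zb P Q) mz (fun s => s.im) (Real.log V) +
      1 / 1 * PP1 (Zb P Q) mz (fun s => s.im) (Real.log V)) ≤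
      1600 * (m ^ 2 * D) * (2 * (C * (V * Real.log V))) := by
    refine mul_le_mul_of_nonneg_left ?_ (by positivity)
    linarith
  nlinarith

/-- **the upper bound in one window** -/
lemma up_win (RH : RiemannHypothesis) (hK : TK κ K) (hκ : 0 ≤ κ) (hpos : ∀ x, 0 ≤ K x)
    (h0 : ∀ x, 0 < x → x < 1 / 2 → K x = 0) {η m M : ℝ} (hη : 0 < η) (hm : 0 < m)
    (hM : 0 ≤ M) :
    ∃ C V0 : ℝ, 0 < C ∧ 10 ≤ V0 ∧ ∀ V : ℝ, V0 ≤ V → ∀ P Q : ℝ, V ≤ P → Q ≤ 2 * V →
      ∀ p q : ℝ, P + Real.log V ≤ p → p ≤ q → q ≤ Q - Real.log V →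
      ∀ L : ℝ, Real.log V / m ≤ L → L ≤ M * Real.log V →
      ∫⁻ α in Set.Ioi (0 : ℝ), ENNReal.ofReal (K α) * ∫⁻ t in Set.Ioc p q, PH (α * L, t) ≤
      ENNReal.ofReal ((1 + η) * (Real.pi * Real.sqrt Real.pi) *
        QS (Zb P Q) (Zb P Q) mz (fun s => s.im) (ct K) L + C * V) := by
  obtain ⟨C1, V1, hC1, hV1, hW⟩ := weight_rev RH hK hκ hm
  obtain ⟨C3, V3, hC3, hV3, hJ⟩ := ph_win RH (a := κ * M) (m := 2 * m) (by positivity)
    (by positivity) hη
  obtain ⟨I, hI⟩ : ∃ I, I = ∫ α in (0 : ℝ)..(κ + 1), K α := ⟨_, rfl⟩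
  have hI0 : 0 ≤ I := by
    rw [hI]
    exact intervalIntegral.integral_nonneg (by linarith) fun x _ => hpos x
  have hpi := Real.pi_gt_three
  have hspi : 0 < Real.sqrt Real.pi := by positivity
  refine ⟨(1 + η) * (Real.pi * Real.sqrt Real.pi) * C1 + C3 * I, max V1 V3, by positivity,
    hV1.trans (le_max_left _ _), fun V hV P Q hP hQ p q hp hpq hq L hL1 hL2 => ?_⟩
  have hVV1 : V1 ≤ V := (le_max_left _ _).trans hV
  have hVV3 : V3 ≤ V := (le_max_right _ _).trans hV
  have hV10 : 10 ≤ V := hV1.trans hVV1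
  have hU : 1 ≤ P := by linarith
  have hl1 : 1 ≤ Real.log V := by
    rw [Real.le_log_iff_exp_le (by linarith)]
    linarith [Real.exp_one_lt_d9]
  have hlm : 0 < Real.log V / m := by positivity
  have hL0 : 0 < L := by linarith
  have h1 := hW V hVV1 P Q hP hQ L hL1
  have hcont : Continuous fun α : ℝ => K α * H370.A2.JN riemannZeta P Q (α * L) :=
    hK.cont.mul (JN_contw RH hU L)
  have hnn : ∀ α, 0 ≤ K α * H370.A2.JN riemannZeta P Q (α * L) := fun α =>
    mul_nonneg (hpos α) (JN_nonnegw P Q _)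
  have hc2 : Continuous fun α : ℝ => (1 + η) * (2 * Real.pi * Real.sqrt Real.pi) *
      (K α * H370.A2.JN riemannZeta P Q (α * L)) + C3 * V * K α :=
    (continuous_const.mul hcont).add (continuous_const.mul hK.cont)
  -- reduction to the support
  have h3 : ∫⁻ α in Set.Ioi (0 : ℝ), ENNReal.ofReal (K α) *
      ∫⁻ t in Set.Ioc p q, PH (α * L, t) ≤
      ∫⁻ α in Set.Ioc (0 : ℝ) (κ + 1), ENNReal.ofReal ((1 + η) *
        (2 * Real.pi * Real.sqrt Real.pi) * (K α * H370.A2.JN riemannZeta P Q (α * L)) +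
          C3 * V * K α) := by
    rw [← lintegral_indicator measurableSet_Ioi, ← lintegral_indicator measurableSet_Ioc]
    refine lintegral_mono fun α => ?_
    by_cases hα : α ∈ Set.Ioi (0 : ℝ)
    · rw [Set.indicator_of_mem hα]
      have hα0 : 0 < α := hα
      by_cases hKα : K α = 0
      · rw [hKα, ENNReal.ofReal_zero, zero_mul]
        exact zero_le
      · have a1 : 1 / 2 ≤ α := by
          by_contra hcon
          exact hKα (h0 α hα0 (not_le.1 hcon))
        have a2 : α ≤ κ := by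
          by_contra hcon
          refine hKα (hK.supp α ?_)
          rw [abs_of_pos hα0]
          exact not_le.1 hcon
        rw [Set.indicator_of_mem (show α ∈ Set.Ioc (0 : ℝ) (κ + 1) from ⟨hα0, by linarith⟩)]
        have b1 : Real.log V / (2 * m) ≤ α * L := by
          rw [div_le_iff₀ (by positivity)]
          rw [div_le_iff₀ hm] at hL1
          nlinarith [mul_pos hL0 hm]
        have b2 : α * L ≤ κ * M * Real.log V := by
          rw [mul_assoc]
          exact mul_le_mul a2 hL2 hL0.le (by linarith)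
        have a3 := hJ V hVV3 P Q hP hQ p q hp hpq hq (α * L) b1 b2
        have hKp := hpos α
        rw [← PH_intw _ _ _ hpq, ← ENNReal.ofReal_mul hKp]
        refine ENNReal.ofReal_le_ofReal ?_
        refine (mul_le_mul_of_nonneg_left a3 hKp).trans (le_of_eq ?_)
        unfold H370.A2.JN
        field_simp
    · rw [Set.indicator_of_notMem hα]
      exact zero_le
  refine h3.trans ?_
  have hnn2 : ∀ α, 0 ≤ (1 + η) * (2 * Real.pi * Real.sqrt Real.pi) *
      (K α * H370.A2.JN riemannZeta P Q (α * L)) + C3 * V * K α := fun α => by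
    have := hnn α
    have := hpos α
    positivity
  rw [← ofReal_integral_eq_lintegral_ofReal
    ((hc2.integrableOn_Icc (μ := volume)).mono_set Set.Ioc_subset_Icc_self)
    (Eventually.of_forall hnn2)]
  refine ENNReal.ofReal_le_ofReal ?_
  rw [← intervalIntegral.integral_of_le (by linarith)]
  have hc3 : Continuous fun α : ℝ => (1 + η) * (2 * Real.pi * Real.sqrt Real.pi) *
      (K α * H370.A2.JN riemannZeta P Q (α * L)) := continuous_const.mul hcont
  have hc4 : Continuous fun α : ℝ => C3 * V * K α := continuous_const.mul hK.cont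
  rw [intervalIntegral.integral_add (hc3.intervalIntegrable _ _) (hc4.intervalIntegrable _ _),
    intervalIntegral.integral_const_mul, intervalIntegral.integral_const_mul, ← hI]
  have h9 := mul_le_mul_of_nonneg_left h1
    (show 0 ≤ (1 + η) * (Real.pi * Real.sqrt Real.pi) by positivity)
  nlinarith

end Pool.Agent.H7.AD
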