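import Pool.Agent.H7.AD.Pl
import Pool.Agent.H7.PS.Zer1

/-! The upper bound for the primes by the transform. -/

open MeasureTheory Filter Topology Real
open scoped ENNReal

namespace Pool.Agent.H7.AD

open Pool.Agent.H7.PS Pool.Agent.H7.LH

/-- the pointwise bound of the window, reversed -/
lemma rev_win (u v : ℝ) {δ η : ℝ} (hδ : 0 < δ) (hη : 0 < η) :
    w0 u v * qd (v, δ) ≤
      ENNReal.ofReal (1 + η) * ENNReal.ofReal ((bm (mu rho1 u) δ v - bm (mu rho2 u) δ v) ^ 2) +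
      ENNReal.ofReal (1 + 1 / η) * (ENNReal.ofReal δ * ∫⁻ r in Set.Ioc 0 δ,
        w1 u (v + r) * qd (v + r, δ - r)) := by
  obtain ⟨hi, he⟩ := bm_sub u v δ
  set b : ℝ := ∫ w in Set.Ioc v (v + δ), gf' u w * dN w (v + δ) with hb
  have hdn : dN v (v + δ) = dn v δ := dN_eq (by linarith)
  rw [hdn] at he
  obtain ⟨X, hX⟩ : ∃ X, X = bm (mu rho1 u) δ v - bm (mu rho2 u) δ v := ⟨_, rfl⟩
  rw [← hX] at he ⊢
  have hyoung : (gf u v * dn v δ) ^ 2 ≤ (1 + η) * X ^ 2 + (1 + 1 / η) * b ^ 2 := by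
    have e1 : gf u v * dn v δ = X + (-b) := by linarith
    rw [e1]
    have h1 := young (a := X) (b := -b) hη
    rwa [neg_sq] at h1
  have h0 : w0 u v * qd (v, δ) = ENNReal.ofReal ((gf u v * dn v δ) ^ 2) := by
    unfold w0 qd
    rw [← ENNReal.ofReal_mul (by positivity), mul_pow, gf_sq]
    congr 1
    ring
  rw [h0]
  refine (ENNReal.ofReal_le_ofReal hyoung).trans ?_
  rw [ENNReal.ofReal_add (by positivity) (by positivity), ENNReal.ofReal_mul (by positivity),
    ENNReal.ofReal_mul (by positivity)]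
  refine add_le_add le_rfl (mul_le_mul_right ?_ _)
  have h1 := cs_lint hi
  rw [← hb, Real.volume_Ioc, add_sub_cancel_left] at h1
  refine h1.trans ?_
  refine mul_le_mul_right ?_ _
  have h2 : ∫⁻ w in Set.Ioc v (v + δ), ENNReal.ofReal ((gf' u w * dN w (v + δ)) ^ 2) =
      ∫⁻ r in Set.Ioc 0 δ, ENNReal.ofReal ((gf' u (v + r) * dN (v + r) (v + δ)) ^ 2) := by
    rw [← lintegral_indicator measurableSet_Ioc, ← lintegral_indicator measurableSet_Ioc,
      ← lintegral_add_left_eq_self _ v]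
    refine lintegral_congr fun r => ?_
    by_cases hr : r ∈ Set.Ioc 0 δ
    · rw [Set.indicator_of_mem hr, Set.indicator_of_mem
        (show v + r ∈ Set.Ioc v (v + δ) from ⟨by linarith [hr.1], by linarith [hr.2]⟩)]
    · rw [Set.indicator_of_notMem hr, Set.indicator_of_notMem
        (show v + r ∉ Set.Ioc v (v + δ) from
          fun h => hr ⟨by linarith [h.1], by linarith [h.2]⟩)]
  rw [h2]
  refine setLIntegral_mono' measurableSet_Ioc fun r hr => ?_
  have h3 : dN (v + r) (v + δ) = dn (v + r) (δ - r) := by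
    rw [dN_eq (by linarith [hr.2])]
    unfold dn
    rw [show v + r + (δ - r) = v + δ by ring]
  rw [h3]
  unfold w1 qd
  rw [← ENNReal.ofReal_mul (by positivity)]
  refine ENNReal.ofReal_le_ofReal ?_
  rw [mul_pow]
  have h4 := mul_le_mul_of_nonneg_right (gf'_sq u (v + r)) (sq_nonneg (dn (v + r) (δ - r)))
  refine h4.trans (le_of_eq ?_)
  show _ = 4 * Real.exp (-(u - (v + r)) ^ 2 / 2) * (Real.exp (-(v + r)) * dn (v + r) (δ - r) ^ 2)
  ring

lemma half_line' {f : ℝ → ℝ≥0∞} (he : ∀ t, f (-t) = f t) :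
    ∫⁻ t, f t ≤ 2 * ∫⁻ t in Set.Ioi (0 : ℝ), f t := by
  have h1 : ∫⁻ t, f t = (∫⁻ t in Set.Ioi (0 : ℝ), f t) + ∫⁻ t in (Set.Ioi (0 : ℝ))ᶜ, f t :=
    (lintegral_add_compl f measurableSet_Ioi).symm
  have h2 : ∫⁻ t in (Set.Ioi (0 : ℝ))ᶜ, f t = ∫⁻ t in Set.Ioi (0 : ℝ), f t := by
    rw [Set.compl_Ioi, setLIntegral_congr Iio_ae_eq_Iic.symm, ← lintegral_indicator measurableSet_Iio,
      ← lintegral_indicator measurableSet_Ioi, ← lintegral_neg_eq_self]
    refine lintegral_congr fun t => ?_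
    by_cases ht : 0 < t
    · rw [Set.indicator_of_mem (show -t ∈ Set.Iio (0 : ℝ) from by simpa using ht),
        Set.indicator_of_mem (show t ∈ Set.Ioi (0 : ℝ) from ht), he]
    · rw [Set.indicator_of_notMem (show -t ∉ Set.Iio (0 : ℝ) from by simpa using ht),
        Set.indicator_of_notMem (show t ∉ Set.Ioi (0 : ℝ) from ht)]
  rw [h1, h2, two_mul]

/-- the bound for one centre -/
lemma rev_one (u : ℝ) {δ η : ℝ} (hδ : 0 < δ) (hη : 0 < η) :
    ENNReal.ofReal π * (∫⁻ v, w0 u v * qd (v, δ)) ≤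
      ENNReal.ofReal (1 + η) * (∫⁻ t in Set.Ioi (0 : ℝ), wd δ t * PH (u, t)) +
      ENNReal.ofReal π * (ENNReal.ofReal (1 + 1 / η) * (ENNReal.ofReal δ *
          ∫⁻ s in Set.Ioc 0 δ, ∫⁻ w, w1 u w * qd (w, s))) := by
  have h0 := half_line' (f := fun t => wd δ t * PH (u, t)) (fun t => by
    show wd δ (-t) * PH (u, -t) = _
    unfold PH
    rw [ph_neg, wd_neg])
  have h1 := (rev_delta (mu rho1 u) (mu rho2 u) hδ).trans h0
  have e2 : ENNReal.ofReal (2 * π) = 2 * ENNReal.ofReal π := by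
    rw [ENNReal.ofReal_mul (by norm_num), ENNReal.ofReal_ofNat]
  rw [e2, mul_assoc] at h1
  have h2 := (ENNReal.mul_le_mul_iff_right (by norm_num) (by norm_num)).1 h1
  obtain ⟨Φ, hΦ⟩ : ∃ Φ : ℝ → ℝ → ℝ≥0∞, Φ = fun w s => w1 u w * qd (w, s) := ⟨_, rfl⟩
  have hΦm : Measurable (Function.uncurry Φ) := by
    simp only [hΦ, Function.uncurry_def]
    exact (w1_meas.comp (measurable_const.prodMk measurable_fst)).mul qd_meas
  obtain ⟨q0, hq0⟩ : ∃ q0 : ℝ → ℝ≥0∞, q0 = fun v =>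
    ENNReal.ofReal ((bm (mu rho1 u) δ v - bm (mu rho2 u) δ v) ^ 2) := ⟨_, rfl⟩
  have hq1 : Measurable q0 := by
    rw [hq0]
    exact (((bm_meas _ δ).sub (bm_meas _ δ)).pow_const 2).ennreal_ofReal
  obtain ⟨Ψ, hΨ⟩ : ∃ Ψ : ℝ → ℝ≥0∞, Ψ = fun s => ∫⁻ w, Φ w s := ⟨_, rfl⟩
  have hin : ∫⁻ v, ∫⁻ r in Set.Ioc 0 δ, Φ (v + r) (δ - r) ≤ ∫⁻ s in Set.Ioc 0 δ, Ψ s := by
    rw [lintegral_lintegral_swap]
    · have h1 : ∀ r : ℝ, ∫⁻ v, Φ (v + r) (δ - r) = Ψ (δ - r) := fun r => by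
        rw [hΨ]
        exact lintegral_add_right_eq_self (μ := volume) (fun v => Φ v (δ - r)) r
      simp_rw [h1]
      have h2 : ∫⁻ r in Set.Ioc 0 δ, Ψ (δ - r) = ∫⁻ s in Set.Ico 0 δ, Ψ s := by
        rw [← lintegral_indicator measurableSet_Ioc, ← lintegral_indicator measurableSet_Ico]
        refine Eq.trans ?_ (lintegral_sub_left_eq_self ((Set.Ico 0 δ).indicator Ψ) δ)
        refine lintegral_congr fun r => ?_
        by_cases hr : r ∈ Set.Ioc 0 δ
        · rw [Set.indicator_of_mem hr, Set.indicator_of_mem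
            (show δ - r ∈ Set.Ico 0 δ from ⟨by linarith [hr.2], by linarith [hr.1]⟩)]
        · rw [Set.indicator_of_notMem hr, Set.indicator_of_notMem
            (show δ - r ∉ Set.Ico 0 δ from fun h => hr ⟨by linarith [h.2], by linarith [h.1]⟩)]
      rw [h2, setLIntegral_congr Ico_ae_eq_Ioc]
    · have : Measurable fun p : ℝ × ℝ => Φ (p.1 + p.2) (δ - p.2) :=
        hΦm.comp ((measurable_fst.add measurable_snd).prodMk (measurable_const.sub measurable_snd))
      exact this.aemeasurable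
  have h3 : ∫⁻ v, w0 u v * qd (v, δ) ≤
      ∫⁻ v, (ENNReal.ofReal (1 + η) * q0 v + ENNReal.ofReal (1 + 1 / η) * (ENNReal.ofReal δ *
        ∫⁻ r in Set.Ioc 0 δ, Φ (v + r) (δ - r))) := by
    refine lintegral_mono fun v => ?_
    rw [hq0, hΦ]
    exact rev_win u v hδ hη
  rw [lintegral_add_left (hq1.const_mul _), lintegral_const_mul _ hq1,
    lintegral_const_mul' _ _ ENNReal.ofReal_ne_top,
    lintegral_const_mul' _ _ ENNReal.ofReal_ne_top] at h3
  have h4 : ∫⁻ s in Set.Ioc 0 δ, Ψ s = ∫⁻ s in Set.Ioc 0 δ, ∫⁻ w, w1 u w * qd (w, s) := by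
    rw [hΨ, hΦ]
  have h5 : ∫⁻ v, q0 v = ∫⁻ v, ENNReal.ofReal ((bm (mu rho1 u) δ v - bm (mu rho2 u) δ v) ^ 2) := by
    rw [hq0]
  rw [h5] at h3
  rw [h4] at hin
  refine (mul_le_mul_right h3 _).trans ?_
  rw [mul_add]
  refine add_le_add ?_ ?_
  · rw [← mul_assoc, mul_comm (ENNReal.ofReal π), mul_assoc]
    exact mul_le_mul_right h2 _
  · exact mul_le_mul_right (mul_le_mul_right (mul_le_mul_right hin _) _) _

/-- **the bound for superpositions, reversed** -/
theorem rev_ker {δ η : ℝ} (hδ : 0 < δ) (hη : 0 < η) {k : ℝ → ℝ≥0∞} (hk : Measurable k) :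
    ENNReal.ofReal π * (∫⁻ v, Om0 k v * qd (v, δ)) ≤
      ENNReal.ofReal (1 + η) *
        (∫⁻ t in Set.Ioi (0 : ℝ), wd δ t * ∫⁻ u in Set.Ioi (0 : ℝ), k u * PH (u, t)) +
      ENNReal.ofReal π * (ENNReal.ofReal (1 + 1 / η) * (ENNReal.ofReal δ *
          ∫⁻ s in Set.Ioc 0 δ, ∫⁻ w, Om1 k w * qd (w, s))) := by
  have hP := PH_meas
  have hq := qd_meas
  have e1 : ∫⁻ t in Set.Ioi (0 : ℝ), wd δ t * ∫⁻ u in Set.Ioi (0 : ℝ), k u * PH (u, t) =
      ∫⁻ u in Set.Ioi (0 : ℝ), k u * ∫⁻ t in Set.Ioi (0 : ℝ), wd δ t * PH (u, t) := by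
    have a1 : ∀ t, wd δ t * ∫⁻ u in Set.Ioi (0 : ℝ), k u * PH (u, t) =
        ∫⁻ u in Set.Ioi (0 : ℝ), wd δ t * (k u * PH (u, t)) := fun t => by
      have m1 : Measurable fun u : ℝ => k u * PH (u, t) :=
        hk.mul (hP.comp (measurable_id.prodMk measurable_const))
      rw [lintegral_const_mul _ m1]
    simp_rw [a1]
    rw [lintegral_lintegral_swap]
    · refine lintegral_congr fun u => ?_
      have m1 : Measurable fun t : ℝ => wd δ t * PH (u, t) :=
        (wd_meas δ).mul (hP.comp (measurable_const.prodMk measurable_id))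
      rw [← lintegral_const_mul _ m1]
      refine lintegral_congr fun t => ?_
      ring
    · have : Measurable fun p : ℝ × ℝ => wd δ p.1 * (k p.2 * PH (p.2, p.1)) :=
        ((wd_meas δ).comp measurable_fst).mul ((hk.comp measurable_snd).mul
          (hP.comp (measurable_snd.prodMk measurable_fst)))
      exact this.aemeasurable
  have e2 : ∀ (w : ℝ → ℝ → ℝ≥0∞) (_ : Measurable fun p : ℝ × ℝ => w p.1 p.2) (s : ℝ),
      ∫⁻ u in Set.Ioi (0 : ℝ), k u * ∫⁻ v, w u v * qd (v, s) =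
      ∫⁻ v, (∫⁻ u in Set.Ioi (0 : ℝ), k u * w u v) * qd (v, s) := by
    intro w hw s
    have a1 : ∀ u, k u * ∫⁻ v, w u v * qd (v, s) = ∫⁻ v, k u * (w u v * qd (v, s)) := fun u => by
      have m1 : Measurable fun v : ℝ => w u v * qd (v, s) :=
        (hw.comp (measurable_const.prodMk measurable_id)).mul
          (hq.comp (measurable_id.prodMk measurable_const))
      rw [lintegral_const_mul _ m1]
    simp_rw [a1]
    rw [lintegral_lintegral_swap]
    · refine lintegral_congr fun v => ?_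
      have m1 : Measurable fun u : ℝ => k u * w u v :=
        hk.mul (hw.comp (measurable_id.prodMk measurable_const))
      rw [← lintegral_mul_const _ m1]
      refine lintegral_congr fun u => ?_
      ring
    · have : Measurable fun p : ℝ × ℝ => k p.1 * (w p.1 p.2 * qd (p.2, s)) :=
        (hk.comp measurable_fst).mul (hw.mul (hq.comp (measurable_snd.prodMk measurable_const)))
      exact this.aemeasurable
  have m0 : Measurable fun u => ∫⁻ v, w0 u v * qd (v, δ) := by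
    have : Measurable fun p : ℝ × ℝ => w0 p.1 p.2 * qd (p.2, δ) :=
      w0_meas.mul (hq.comp (measurable_snd.prodMk measurable_const))
    exact this.lintegral_prod_right'
  have mP : Measurable fun u => ∫⁻ t in Set.Ioi (0 : ℝ), wd δ t * PH (u, t) := by
    have : Measurable fun p : ℝ × ℝ => wd δ p.2 * PH (p.1, p.2) :=
      ((wd_meas δ).comp measurable_snd).mul (hP.comp (measurable_fst.prodMk measurable_snd))
    exact this.lintegral_prod_right'
  have m1 : Measurable fun u => ∫⁻ s in Set.Ioc 0 δ, ∫⁻ w, w1 u w * qd (w, s) := by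
    have h1 : Measurable fun p : (ℝ × ℝ) × ℝ => w1 p.1.1 p.2 * qd (p.2, p.1.2) :=
      (w1_meas.comp ((measurable_fst.comp measurable_fst).prodMk measurable_snd)).mul
        (hq.comp (measurable_snd.prodMk (measurable_snd.comp measurable_fst)))
    have h2 : Measurable fun p : ℝ × ℝ => ∫⁻ w, w1 p.1 w * qd (w, p.2) := h1.lintegral_prod_right'
    exact h2.lintegral_prod_right'
  have e3 : ∫⁻ u in Set.Ioi (0 : ℝ), k u * ∫⁻ s in Set.Ioc 0 δ, ∫⁻ w, w1 u w * qd (w, s) =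
      ∫⁻ s in Set.Ioc 0 δ, ∫⁻ w, Om1 k w * qd (w, s) := by
    obtain ⟨G, hG⟩ : ∃ G : ℝ → ℝ → ℝ≥0∞, ∀ u s, G u s = ∫⁻ w, w1 u w * qd (w, s) :=
      ⟨_, fun _ _ => rfl⟩
    have h2 : Measurable fun p : ℝ × ℝ => G p.1 p.2 := by
      have h1 : Measurable fun p : (ℝ × ℝ) × ℝ => w1 p.1.1 p.2 * qd (p.2, p.1.2) :=
        (w1_meas.comp ((measurable_fst.comp measurable_fst).prodMk measurable_snd)).mul
          (hq.comp (measurable_snd.prodMk (measurable_snd.comp measurable_fst)))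
      have h3 : Measurable fun p : ℝ × ℝ => ∫⁻ w, w1 p.1 w * qd (w, p.2) :=
        h1.lintegral_prod_right'
      have h4 : (fun p : ℝ × ℝ => G p.1 p.2) = fun p : ℝ × ℝ => ∫⁻ w, w1 p.1 w * qd (w, p.2) := by
        funext p
        exact hG _ _
      rw [h4]
      exact h3
    simp_rw [← hG]
    have a1 : ∀ u, k u * ∫⁻ s in Set.Ioc 0 δ, G u s =
        ∫⁻ s in Set.Ioc 0 δ, k u * G u s := fun u => by
      have h3 : Measurable fun s : ℝ => G u s :=
        h2.comp (measurable_const.prodMk measurable_id)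
      rw [lintegral_const_mul _ h3]
    simp_rw [a1]
    rw [lintegral_lintegral_swap]
    · refine lintegral_congr fun s => ?_
      have h5 := e2 w1 w1_meas s
      have h6 : ∀ v, ∫⁻ u in Set.Ioi (0 : ℝ), k u * w1 u v = Om1 k v := fun v => rfl
      simp_rw [h6, ← hG] at h5
      exact h5
    · have : Measurable fun p : ℝ × ℝ => k p.1 * G p.1 p.2 :=
        (hk.comp measurable_fst).mul h2
      exact this.aemeasurable
  have e4 : ∀ v, ∫⁻ u in Set.Ioi (0 : ℝ), k u * w0 u v = Om0 k v := fun v => rfl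
  have h7 := e2 w0 w0_meas δ
  simp_rw [e4] at h7
  rw [← h7, ← e3, e1]
  have n0 : Measurable fun u => k u * ∫⁻ v, w0 u v * qd (v, δ) := hk.mul m0
  have nP : Measurable fun u => k u * ∫⁻ t in Set.Ioi (0 : ℝ), wd δ t * PH (u, t) := hk.mul mP
  have n1 : Measurable fun u => k u * ∫⁻ s in Set.Ioc 0 δ, ∫⁻ w, w1 u w * qd (w, s) := hk.mul m1
  calc ENNReal.ofReal π * ∫⁻ u in Set.Ioi (0 : ℝ), k u * ∫⁻ v, w0 u v * qd (v, δ) =
      ∫⁻ u in Set.Ioi (0 : ℝ), k u * (ENNReal.ofReal π * ∫⁻ v, w0 u v * qd (v, δ)) := by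
        rw [← lintegral_const_mul _ n0]
        refine lintegral_congr fun u => ?_
        ring
    _ ≤ ∫⁻ u in Set.Ioi (0 : ℝ), (ENNReal.ofReal (1 + η) *
        (k u * ∫⁻ t in Set.Ioi (0 : ℝ), wd δ t * PH (u, t)) +
        ENNReal.ofReal π * (ENNReal.ofReal (1 + 1 / η) * ENNReal.ofReal δ) *
          (k u * ∫⁻ s in Set.Ioc 0 δ, ∫⁻ w, w1 u w * qd (w, s))) := by
        refine lintegral_mono fun u => ?_
        refine (mul_le_mul_right (rev_one u hδ hη) _).trans (le_of_eq ?_)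
        ring
    _ = _ := by
        rw [lintegral_add_left (nP.const_mul _), lintegral_const_mul _ nP,
          lintegral_const_mul _ n1]
        ring

end Pool.Agent.H7.AD
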