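import Pool.Agent.H7.AD.Asm
import Pool.Agent.H7.AD.Krn
import Pool.Agent.H7.AC.Win

/-! RH and the pair correlation conjecture imply the upper bound for the primes. -/

open MeasureTheory Filter Topology Real
open scoped ENNReal ContDiff

namespace Pool.Agent.H7.AD

open H370 TH803TW Pool.Agent.Y744 Pool.Agent.H7.PS Pool.Agent.H7.LH Pool.Agent.H7.FF
open Pool.Agent.H7.AC

/-- a plateau -/
noncomputable def bp (p q α : ℝ) : ℝ := Real.smoothTransition ((q ^ 2 - α ^ 2) / (q ^ 2 - p ^ 2))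

lemma bp_nonneg (p q α : ℝ) : 0 ≤ bp p q α := Real.smoothTransition.nonneg _

lemma bp_le (p q α : ℝ) : bp p q α ≤ 1 := Real.smoothTransition.le_one _

lemma bp_one {p q α : ℝ} (hp : 0 ≤ p) (hpq : p < q) (h : |α| ≤ p) : bp p q α = 1 := by
  refine Real.smoothTransition.one_of_one_le ?_
  have h1 : α ^ 2 ≤ p ^ 2 := by
    rw [← sq_abs α]
    exact pow_le_pow_left₀ (abs_nonneg _) h 2
  rw [le_div_iff₀ (by nlinarith)]
  linarith

lemma bp_zero {p q α : ℝ} (hp : 0 ≤ p) (hpq : p < q) (h : q ≤ |α|) : bp p q α = 0 := by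
  refine Real.smoothTransition.zero_of_nonpos ?_
  refine div_nonpos_of_nonpos_of_nonneg ?_ (by nlinarith)
  have : q ^ 2 ≤ α ^ 2 := by
    rw [← sq_abs α]
    exact pow_le_pow_left₀ (by linarith) h 2
  linarith

lemma bp_smooth (p q : ℝ) : ContDiff ℝ ∞ (bp p q) := by
  unfold bp
  exact Real.smoothTransition.contDiff.comp ((contDiff_const.sub (contDiff_id.pow 2)).div_const _)

lemma bp_even (p q α : ℝ) : bp p q (-α) = bp p q α := by
  unfold bp
  rw [neg_sq]

/-- the weight of the window -/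
noncomputable def kk (a b d α : ℝ) : ℝ := bp (b + d) (b + 2 * d) α - bp (a - 2 * d) (a - d) α

section kk

variable {a b d : ℝ} (ha : 1 ≤ a) (hab : a < b) (hd : 0 < d) (hd1 : d ≤ 1 / 8)

include ha hab hd hd1

lemma kk_nonneg (α : ℝ) : 0 ≤ kk a b d α := by
  unfold kk
  rcases le_or_gt |α| (b + d) with h | h
  · rw [bp_one (by linarith) (by linarith) h]
    linarith [bp_le (a - 2 * d) (a - d) α]
  · rw [bp_zero (p := a - 2 * d) (q := a - d) (by linarith) (by linarith) (by linarith)]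
    linarith [bp_nonneg (b + d) (b + 2 * d) α]

omit ha hab hd hd1 in
lemma kk_le (α : ℝ) : kk a b d α ≤ 1 := by
  unfold kk
  linarith [bp_le (b + d) (b + 2 * d) α, bp_nonneg (a - 2 * d) (a - d) α]

lemma kk_low {α : ℝ} (h : |α| ≤ a - 2 * d) : kk a b d α = 0 := by
  unfold kk
  rw [bp_one (by linarith) (by linarith) (by linarith), bp_one (by linarith) (by linarith) h,
    sub_self]

lemma kk_one {α : ℝ} (h1 : a - d ≤ |α|) (h2 : |α| ≤ b + d) : kk a b d α = 1 := by
  unfold kk
  rw [bp_one (by linarith) (by linarith) h2, bp_zero (by linarith) (by linarith) h1, sub_zero]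

lemma kk_high {α : ℝ} (h : b + 2 * d ≤ |α|) : kk a b d α = 0 := by
  unfold kk
  rw [bp_zero (by linarith) (by linarith) h, bp_zero (by linarith) (by linarith) (by linarith),
    sub_self]

lemma kk_TK : TK (b + 2 * d) (kk a b d) := by
  refine ⟨(bp_smooth _ _).sub (bp_smooth _ _), fun x => ?_, fun x hx =>
    kk_high ha hab hd hd1 hx.le⟩
  unfold kk
  rw [bp_even, bp_even]

lemma kk_Lam : Lam AG (kk a b d) ≤ 2 * (b - a + 4 * d) := by
  have hT := kk_TK ha hab hd hd1
  rw [Lam_AG hT, kk_low ha hab hd hd1 (by rw [abs_zero]; linarith), zero_add]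
  obtain ⟨I1, hI1⟩ : ∃ I1, I1 = Set.Icc (a - 2 * d) (b + 2 * d) := ⟨_, rfl⟩
  obtain ⟨I2, hI2⟩ : ∃ I2, I2 = Set.Icc (-(b + 2 * d)) (-(a - 2 * d)) := ⟨_, rfl⟩
  have i1 : Integrable (I1.indicator fun _ => (1 : ℝ)) := by
    rw [hI1]
    exact (integrable_indicator_iff measurableSet_Icc).2 (by simp)
  have i2 : Integrable (I2.indicator fun _ => (1 : ℝ)) := by
    rw [hI2]
    exact (integrable_indicator_iff measurableSet_Icc).2 (by simp)
  have hle : ∀ α, kk a b d α * min |α| 1 ≤ I1.indicator (fun _ => (1 : ℝ)) α +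
      I2.indicator (fun _ => (1 : ℝ)) α := by
    intro α
    have h1 : kk a b d α * min |α| 1 ≤ kk a b d α :=
      mul_le_of_le_one_right (kk_nonneg ha hab hd hd1 α) (min_le_right _ _)
    refine h1.trans ?_
    have n1 : 0 ≤ I1.indicator (fun _ => (1 : ℝ)) α :=
      Set.indicator_nonneg (fun _ _ => zero_le_one) _
    have n2 : 0 ≤ I2.indicator (fun _ => (1 : ℝ)) α :=
      Set.indicator_nonneg (fun _ _ => zero_le_one) _
    rcases le_or_gt |α| (a - 2 * d) with h2 | h2
    · rw [kk_low ha hab hd hd1 h2]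
      linarith
    rcases le_or_gt (b + 2 * d) |α| with h3 | h3
    · rw [kk_high ha hab hd hd1 h3]
      linarith
    have h4 := kk_le (a := a) (b := b) (d := d) α
    rcases le_or_gt 0 α with h5 | h5
    · rw [abs_of_nonneg h5] at h2 h3
      rw [Set.indicator_of_mem (show α ∈ I1 by rw [hI1]; exact ⟨h2.le, h3.le⟩)]
      linarith
    · rw [abs_of_neg h5] at h2 h3
      rw [Set.indicator_of_mem (show α ∈ I2 by
        rw [hI2]
        exact ⟨by linarith, by linarith⟩)]
      linarith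
  have hmul : Integrable fun α => kk a b d α * min |α| 1 := hT.mul_int (by fun_prop)
  refine (integral_mono hmul (i1.add i2) hle).trans (le_of_eq ?_)
  show ∫ α, (I1.indicator (fun _ => (1 : ℝ)) α + I2.indicator (fun _ => (1 : ℝ)) α) = _
  rw [integral_add i1 i2, hI1, hI2, integral_indicator measurableSet_Icc,
    integral_indicator measurableSet_Icc, setIntegral_const, setIntegral_const]
  simp only [Real.volume_real_Icc, smul_eq_mul, mul_one]
  rw [max_eq_left (by linarith), max_eq_left (by linarith)]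
  ring

/-- the weight of the window is large inside the window -/
lemma kk_Om0 : ∀ᶠ T : ℝ in atTop, ∀ v ∈ Set.Ioc (a * Real.log T) (b * Real.log T),
    ENNReal.ofReal (Real.sqrt π * (1 - d)) ≤ Om0 (kT (kk a b d) T) v := by
  have hi : Integrable fun x : ℝ => Real.exp (-x ^ 2) := by
    have := integrable_exp_neg_mul_sq (b := 1) one_pos
    simpa using this
  have hv : ∫ x : ℝ, Real.exp (-x ^ 2) = Real.sqrt π := by
    have := integral_gaussian 1
    simpa using this
  have hlim : Tendsto (fun M : ℝ => ∫ x in (-M)..M, Real.exp (-x ^ 2)) atTop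
      (𝓝 (Real.sqrt π)) := by
    rw [← hv]
    exact intervalIntegral_tendsto_integral hi tendsto_neg_atTop_atBot tendsto_id
  have hs : 0 < Real.sqrt π := by positivity
  obtain ⟨M, hM, hM1⟩ := (((tendsto_order.1 hlim).1 (Real.sqrt π * (1 - d)) (by nlinarith)).and
    (eventually_ge_atTop 1)).exists
  filter_upwards [Real.tendsto_log_atTop.eventually_ge_atTop (M / d)] with T hT v hv
  rw [div_le_iff₀ hd] at hT
  have hL : 0 < Real.log T := by
    by_contra hcon
    push Not at hcon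
    nlinarith
  unfold Om0
  have h1 : ENNReal.ofReal (Real.sqrt π * (1 - d)) ≤
      ∫⁻ u in Set.Ioc (v - M) (v + M), ENNReal.ofReal (Real.exp (-(u - v) ^ 2)) := by
    have hc : Continuous fun u : ℝ => Real.exp (-(u - v) ^ 2) := by fun_prop
    rw [← ofReal_integral_eq_lintegral_ofReal hc.integrableOn_Ioc
      (Eventually.of_forall fun u => (Real.exp_pos _).le),
      ← intervalIntegral.integral_of_le (by linarith)]
    refine ENNReal.ofReal_le_ofReal ?_
    have e1 := intervalIntegral.integral_comp_sub_right (a := v - M) (b := v + M)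
      (fun x : ℝ => Real.exp (-x ^ 2)) v
    rw [e1, show v - M - v = -M by ring, show v + M - v = M by ring]
    exact hM.le
  refine h1.trans ?_
  rw [← lintegral_indicator measurableSet_Ioc, ← lintegral_indicator measurableSet_Ioi]
  refine lintegral_mono fun u => ?_
  by_cases hu : u ∈ Set.Ioc (v - M) (v + M)
  · have hu0 : 0 < u := by
      have := hu.1
      have := hv.1
      nlinarith
    rw [Set.indicator_of_mem hu, Set.indicator_of_mem (show u ∈ Set.Ioi (0 : ℝ) from hu0)]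
    have h2 : kT (kk a b d) T u = 1 := by
      unfold kT
      rw [kk_one ha hab hd hd1, ENNReal.ofReal_one]
      · rw [abs_of_pos (by positivity), le_div_iff₀ hL]
        have := hu.1
        have := hv.1
        nlinarith
      · rw [abs_of_pos (by positivity), div_le_iff₀ hL]
        have := hu.2
        have := hv.2
        nlinarith
    rw [h2, one_mul]
  · rw [Set.indicator_of_notMem hu]
    exact zero_le

end kk

/-- the quantitative form -/
lemma Wn_d (RH : RiemannHypothesis) (h : QQ) {a b d : ℝ} (ha : 1 ≤ a) (hab : a < b) (hd : 0 < d)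
    (hd1 : d ≤ 1 / 8) : ∀ᶠ T : ℝ in atTop, ENNReal.ofReal (π * Real.sqrt π * (1 - d)) * Wn a b T ≤
      ENNReal.ofReal (((1 + d) ^ 2 * (b - a + 4 * d) * (π * Real.sqrt π) + 3 * d) *
        (Real.log T ^ 2 / T)) := by
  have hpi := Real.pi_pos
  have hs : 0 < Real.sqrt π := by positivity
  have hK := kk_TK ha hab hd hd1
  have hpos := kk_nonneg ha hab hd hd1
  have hK1 : ∀ x, kk a b d x ≤ 1 := kk_le
  have h0 : ∀ x, 0 < x → x < 1 / 2 → kk a b d x = 0 := fun x hx hx2 =>
    kk_low ha hab hd hd1 (by rw [abs_of_pos hx]; linarith)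
  obtain ⟨C, hC, herr⟩ := err_int RH (b := b + 2 * d) hK le_rfl (by linarith) hK1
  have t1 : ∀ᶠ T : ℝ in atTop, π * (1 + 1 / d) * C ≤ d * (Real.log T * Real.sqrt T) := by
    filter_upwards [Real.tendsto_log_atTop.eventually_ge_atTop (π * (1 + 1 / d) * C / d),
      eventually_ge_atTop 1] with T h1 h2
    rw [div_le_iff₀ hd] at h1
    have h3 : 0 ≤ Real.log T := Real.log_nonneg h2
    have h4 : 1 ≤ Real.sqrt T := Real.one_le_sqrt.2 h2
    have h5 : Real.log T * 1 ≤ Real.log T * Real.sqrt T := mul_le_mul_of_nonneg_left h4 h3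
    nlinarith
  filter_upwards [total RH h hK (by linarith) hpos h0 hK1 hd hd, kk_Om0 ha hab hd hd1, t1,
    eventually_gt_atTop 1] with T htot hOm ht1 hT
  have hTp : 0 < T := by linarith
  have hL : 0 < Real.log T := Real.log_pos hT
  obtain ⟨d1, d2, d3⟩ := dl_le hT
  obtain ⟨δ, hδ⟩ : ∃ δ, δ = Real.log (1 + 1 / T) := ⟨_, rfl⟩
  have hWn : Wn a b T = ∫⁻ v in Set.Ioc (a * Real.log T) (b * Real.log T), qd (v, δ) := by
    rw [hδ]
    rfl
  rw [← hδ] at htot d1 d2 d3
  have hδ1 : δ ≤ 1 := d2.trans (by rw [div_le_one hTp]; exact hT.le)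
  have hk := kT_measw hK T
  have hker := rev_ker d1 hd hk
  -- the left side
  have h1 : ENNReal.ofReal (π * Real.sqrt π * (1 - d)) * Wn a b T ≤
      ENNReal.ofReal π * (∫⁻ v, Om0 (kT (kk a b d) T) v * qd (v, δ)) := by
    rw [mul_assoc, ENNReal.ofReal_mul hpi.le, mul_assoc]
    refine mul_le_mul_right ?_ _
    rw [hWn, ← lintegral_const_mul' _ _ ENNReal.ofReal_ne_top]
    refine (setLIntegral_mono' measurableSet_Ioc fun v hv => mul_le_mul_left (hOm v hv) _).trans ?_
    exact setLIntegral_le_lintegral _ _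
  refine h1.trans (hker.trans ?_)
  -- the error
  have h3 : ∫⁻ s in Set.Ioc 0 δ, ∫⁻ w, Om1 (kT (kk a b d) T) w * qd (w, s) ≤
      ENNReal.ofReal (C * (Real.log T * Real.sqrt T)) * ENNReal.ofReal δ := by
    calc ∫⁻ s in Set.Ioc 0 δ, ∫⁻ w, Om1 (kT (kk a b d) T) w * qd (w, s) ≤
        ∫⁻ s in Set.Ioc 0 δ, ENNReal.ofReal (C * (Real.log T * Real.sqrt T)) :=
          setLIntegral_mono' measurableSet_Ioc fun s hs => herr T hT s hs.1 (hs.2.trans hδ1)
      _ = _ := by
          rw [setLIntegral_const, Real.volume_Ioc, sub_zero]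
  have h4 : ENNReal.ofReal π * (ENNReal.ofReal (1 + 1 / d) * (ENNReal.ofReal δ *
      ∫⁻ s in Set.Ioc 0 δ, ∫⁻ w, Om1 (kT (kk a b d) T) w * qd (w, s))) ≤
      ENNReal.ofReal (d * (Real.log T ^ 2 / T)) := by
    refine (mul_le_mul_right (mul_le_mul_right (mul_le_mul_right h3 _) _) _).trans ?_
    rw [← ENNReal.ofReal_mul (by positivity), ← ENNReal.ofReal_mul (by positivity),
      ← ENNReal.ofReal_mul (by positivity), ← ENNReal.ofReal_mul (by positivity)]
    refine ENNReal.ofReal_le_ofReal ?_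
    have k1 : δ ^ 2 ≤ 1 / T ^ 2 := by
      rw [← one_div_pow]
      exact pow_le_pow_left₀ d1.le d2 2
    have hsT : Real.sqrt T * Real.sqrt T = T := Real.mul_self_sqrt hTp.le
    calc π * ((1 + 1 / d) * (δ * (C * (Real.log T * Real.sqrt T) * δ))) =
        π * (1 + 1 / d) * C * (Real.log T * Real.sqrt T) * δ ^ 2 := by ring
      _ ≤ d * (Real.log T * Real.sqrt T) * (Real.log T * Real.sqrt T) * (1 / T ^ 2) := by
          refine mul_le_mul (mul_le_mul_of_nonneg_right ht1 (by positivity)) k1 (by positivity)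
            (by positivity)
      _ = d * Real.log T ^ 2 * (Real.sqrt T * Real.sqrt T) / T ^ 2 := by ring
      _ = _ := by
          rw [hsT]
          field_simp
  have h5 : ENNReal.ofReal (1 + d) * (∫⁻ t in Set.Ioi (0 : ℝ), wd δ t *
      ∫⁻ u in Set.Ioi (0 : ℝ), kT (kk a b d) T u * PH (u, t)) ≤
      ENNReal.ofReal ((1 + d) * ((((1 + d) * (Real.sqrt π / 2) * Lam AG (kk a b d) * π + d)) *
        (Real.log T ^ 2 / T))) := by
    rw [ENNReal.ofReal_mul (by positivity)]
    exact mul_le_mul_right htot _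
  have hΛ0 := Lam_pos' hK hpos
  have hΛ := kk_Lam ha hab hd hd1
  refine (add_le_add h5 h4).trans ?_
  rw [← ENNReal.ofReal_add (by positivity) (by positivity)]
  refine ENNReal.ofReal_le_ofReal ?_
  have hq : 0 < Real.log T ^ 2 / T := by positivity
  obtain ⟨q, hqd⟩ : ∃ q, q = Real.log T ^ 2 / T := ⟨_, rfl⟩
  rw [← hqd] at hq ⊢
  have k1 : (1 + d) * ((1 + d) * (Real.sqrt π / 2) * Lam AG (kk a b d) * π + d) + d ≤
      (1 + d) ^ 2 * (b - a + 4 * d) * (π * Real.sqrt π) + 3 * d := by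
    have k2 : (1 + d) ^ 2 * (π * Real.sqrt π) / 2 * Lam AG (kk a b d) ≤
        (1 + d) ^ 2 * (π * Real.sqrt π) / 2 * (2 * (b - a + 4 * d)) :=
      mul_le_mul_of_nonneg_left hΛ (by positivity)
    nlinarith
  calc (1 + d) * (((1 + d) * (Real.sqrt π / 2) * Lam AG (kk a b d) * π + d) * q) + d * q =
      ((1 + d) * ((1 + d) * (Real.sqrt π / 2) * Lam AG (kk a b d) * π + d) + d) * q := by ring
    _ ≤ _ := mul_le_mul_of_nonneg_right k1 hq.le

/-- **the converse** -/
theorem UW_of_conj (RH : RiemannHypothesis) (h : QQ) : UW := by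
  intro a b ha hab ε hε
  have hpi := Real.pi_gt_three
  have hs1 : 1 ≤ Real.sqrt π := Real.one_le_sqrt.2 (by linarith)
  have hps : 1 ≤ π * Real.sqrt π := by nlinarith
  -- the choice of `d`
  have hlim : Tendsto (fun d : ℝ => ((1 + d) ^ 2 * (b - a + 4 * d) + 3 * d) / (1 - d)) (𝓝[>] 0)
      (𝓝 (((1 + 0) ^ 2 * (b - a + 4 * 0) + 3 * 0) / (1 - 0))) := by
    refine Tendsto.mono_left ?_ nhdsWithin_le_nhds
    refine ContinuousAt.tendsto (f := fun d : ℝ => ((1 + d) ^ 2 * (b - a + 4 * d) + 3 * d) /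
      (1 - d)) ?_
    exact ContinuousAt.div (by fun_prop) (by fun_prop) (by norm_num)
  have hev := (tendsto_order.1 hlim).2 (b - a + ε) (by
    norm_num
    exact hε)
  have hev2 : ∀ᶠ d in 𝓝[>] (0 : ℝ), d ∈ Set.Ioi (0 : ℝ) := self_mem_nhdsWithin
  have hev3 : ∀ᶠ d in 𝓝[>] (0 : ℝ), d ∈ Set.Iic (1 / 8 : ℝ) :=
    mem_nhdsWithin_of_mem_nhds (Iic_mem_nhds (show (0 : ℝ) < 1 / 8 by norm_num))
  obtain ⟨d, hd2, hd0, hd1⟩ := (hev.and (hev2.and hev3)).exists
  have hd : 0 < d := hd0
  have hd8 : d ≤ 1 / 8 := hd1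
  filter_upwards [Wn_d RH h ha hab hd hd8, eventually_gt_atTop 1] with T h1 hT
  have hTp : 0 < T := by linarith
  have hL : 0 < Real.log T := Real.log_pos hT
  rw [Wn_eq hT (by linarith) hab.le, ← ENNReal.ofReal_mul (by
    have : 0 < 1 - d := by linarith
    positivity)] at h1
  obtain ⟨q, hqd⟩ : ∃ q, q = Real.log T ^ 2 / T := ⟨_, rfl⟩
  have hq : 0 < q := by rw [hqd]; positivity
  rw [← hqd] at h1
  have hba : 0 < b - a := by linarith
  obtain ⟨I, hI⟩ : ∃ I, I = ∫ x in (T ^ a)..(T ^ b), Dx T x ^ 2 / x ^ 2 := ⟨_, rfl⟩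
  rw [← hI] at h1
  have h2 := (ENNReal.ofReal_le_ofReal_iff (by positivity)).1 h1
  rw [div_lt_iff₀ (by linarith)] at hd2
  have h3 : π * Real.sqrt π * (1 - d) * I ≤ π * Real.sqrt π * ((b - a + ε) * (1 - d)) * q := by
    refine h2.trans (mul_le_mul_of_nonneg_right ?_ hq.le)
    have h4 : 3 * d ≤ π * Real.sqrt π * (3 * d) := by nlinarith
    have h5 := mul_le_mul_of_nonneg_left hd2.le (show 0 ≤ π * Real.sqrt π by linarith)
    nlinarith
  have h6 : I ≤ (b - a + ε) * q := by
    have h7 : 0 < π * Real.sqrt π * (1 - d) := by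
      have : 0 < 1 - d := by linarith
      positivity
    refine le_of_mul_le_mul_left ?_ h7
    calc π * Real.sqrt π * (1 - d) * I ≤ π * Real.sqrt π * ((b - a + ε) * (1 - d)) * q := h3
      _ = _ := by ring
  unfold Jw
  rw [← hI]
  calc T / Real.log T ^ 2 * I ≤ T / Real.log T ^ 2 * ((b - a + ε) * q) :=
        mul_le_mul_of_nonneg_left h6 (by positivity)
    _ = b - a + ε := by
        rw [hqd]
        field_simp

end Pool.Agent.H7.AD
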