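import Pool.Agent.H7.AC.Cnt
import Pool.Agent.H7.LH.Pos

/-! The limits of the pair sums under the pair correlation conjecture. -/

open MeasureTheory Filter Topology Real

namespace Pool.Agent.H7.AD

open H370 TH803TW Pool.Agent.Y744 Pool.Agent.H7.PS Pool.Agent.H7.FF Pool.Agent.H7.AC
open Pool.Agent.Y744.ANC

/-- the pair correlation conjecture -/
def QQ : Prop := ∀ a : ℝ, 0 < a → Tendsto (fun T => PC T (Set.Ioc 0 a) / Xf T) atTop (𝓝 (gp a))

variable {κ : ℝ} {K : ℝ → ℝ}

lemma ultra (RH : RiemannHypothesis) (h : QQ) (g : Ultrafilter ℝ) (hgt : (g : Filter ℝ) ≤ atTop) :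
    Monotone AG ∧ ∀ y, Tendsto (fun T => Aa T y) (g : Filter ℝ) (𝓝 (AG y)) := by
  obtain ⟨A', C0, hA', hneg, hb, h0, hlim, hm⟩ := exists_limit RH g hgt
  have hd : ∀ y, 0 < y → A' y = A' 0 + 2 * gp y := by
    intro y hy
    have h1 := (((hlim y).sub (hlim 0)).div_const 2)
    have h2 := (h y hy).mono_left hgt
    have h3 : Tendsto (fun T => PC T (Set.Ioc 0 y) / Xf T) (g : Filter ℝ)
        (𝓝 ((A' y - A' 0) / 2)) := by
      refine h1.congr' ?_
      filter_upwards [hgt (eventually_gt_atTop 1)] with T hT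
      rw [Aa_eq hT hy.le]
    have h4 := tendsto_nhds_unique h3 h2
    linarith
  have hdiff : ∀ y, A' y - AG y = (Set.Ici (0 : ℝ)).indicator (fun _ => A' 0 - 1) y := by
    intro y
    rcases lt_trichotomy y 0 with hy | hy | hy
    · rw [Set.indicator_of_notMem (show y ∉ Set.Ici (0 : ℝ) from fun h => by
        have : (0 : ℝ) ≤ y := h
        linarith), hneg y hy]
      unfold AG
      rw [if_pos hy]
      ring
    · rw [hy, Set.indicator_of_mem (Set.mem_Ici.2 (le_refl (0 : ℝ))), AG_pos le_rfl]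
      unfold gp
      simp
    · rw [Set.indicator_of_mem (show y ∈ Set.Ici (0 : ℝ) from hy.le), AG_pos hy.le, hd y hy]
      ring
  obtain ⟨K, hK, -, -, -, hK0⟩ := exists_pos2 (κ := 1 / 2) (by norm_num)
  have hLA : Lam A' K = Lam AG K := by
    have h1 := Lam_tendsto RH hgt hA' hlim hK
    have h2 := (mont_tau RH hK (by norm_num) (by norm_num) (τ := 1) one_pos).mono_left hgt
    have h3 : Tendsto (fun T => Lam (Aa T) K) (g : Filter ℝ) (𝓝 (1 * Lam AG K)) := by
      refine h2.congr fun T => ?_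
      rw [Lam_Aa hK, one_mul]
    have := tendsto_nhds_unique h1 h3
    rw [this, one_mul]
  have hone : A' 0 = 1 := by
    have hAm : Measurable A' := hA'.measurable
    have hAG : AG = fun y => A' y - (Set.Ici (0 : ℝ)).indicator (fun _ => A' 0 - 1) y := by
      funext y
      have := hdiff y
      linarith
    have i1 := Lam_int hK hAm hb
    have i2 : Integrable fun y => (Set.Ici (0 : ℝ)).indicator (fun _ => A' 0 - 1) y * dct K y := by
      have : (fun y => (Set.Ici (0 : ℝ)).indicator (fun _ => A' 0 - 1) y * dct K y) =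
          (Set.Ici (0 : ℝ)).indicator (fun y => (A' 0 - 1) * dct K y) := by
        funext y
        by_cases hy : y ∈ Set.Ici (0 : ℝ)
        · rw [Set.indicator_of_mem hy, Set.indicator_of_mem hy]
        · rw [Set.indicator_of_notMem hy, Set.indicator_of_notMem hy, zero_mul]
      rw [this]
      exact ((dct_int hK).const_mul _).indicator measurableSet_Ici
    have e1 : Lam AG K = Lam A' K + (A' 0 - 1) * (∫ y in Set.Ioi (0 : ℝ), dct K y) := by
      unfold Lam
      rw [hAG]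
      have e2 : ∀ y, (A' y - (Set.Ici (0 : ℝ)).indicator (fun _ => A' 0 - 1) y) * dct K y =
          A' y * dct K y - (Set.Ici (0 : ℝ)).indicator (fun _ => A' 0 - 1) y * dct K y :=
        fun y => by ring
      simp_rw [e2]
      rw [integral_sub i1 i2]
      have e3 : ∫ y, (Set.Ici (0 : ℝ)).indicator (fun _ => A' 0 - 1) y * dct K y =
          (A' 0 - 1) * ∫ y in Set.Ioi (0 : ℝ), dct K y := by
        rw [← integral_const_mul, ← integral_Ici_eq_integral_Ioi,
          ← integral_indicator measurableSet_Ici]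
        refine integral_congr_ae (Eventually.of_forall fun y => ?_)
        by_cases hy : y ∈ Set.Ici (0 : ℝ)
        · simp only [Set.indicator_of_mem hy]
        · simp only [Set.indicator_of_notMem hy, zero_mul]
      rw [e3]
      ring
    rw [FF.tail_int hK] at e1
    have e4 : (A' 0 - 1) * ct K 0 = 0 := by linarith
    rcases mul_eq_zero.1 e4 with h5 | h5
    · linarith
    · exact absurd h5 hK0.ne'
  have hall : A' = AG := by
    funext y
    have := hdiff y
    rw [hone, sub_self] at this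
    simp at this
    linarith
  rw [← hall]
  exact ⟨hA', hlim⟩

theorem Lam_lim1 (RH : RiemannHypothesis) (h : QQ) (hK : TK κ K) :
    Tendsto (fun T => Lam (Aa T) K) atTop (𝓝 (Lam AG K)) := by
  rw [tendsto_iff_ultrafilter]
  intro g hg
  obtain ⟨h1, h2⟩ := ultra RH h g hg
  exact Lam_tendsto RH hg h1 h2 hK

theorem Q2_lim (RH : RiemannHypothesis) (h : QQ) (hK : TK κ K) {τ : ℝ} (hτ : 0 < τ) :
    Tendsto (fun T => (Xf T)⁻¹ * Q2 (ct K) (τ * T) (Real.log T)) atTop
      (𝓝 (τ * Lam AG K)) := by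
  have h0 : Tendsto (fun T => Q2 (ct K) T (Real.log T) / Xf T) atTop (𝓝 (Lam AG K)) := by
    refine (Lam_lim1 RH h hK).congr fun T => ?_
    rw [Lam_Aa hK, div_eq_inv_mul]
  have h1 := h0.comp (tendsto_id.const_mul_atTop hτ)
  have h2 := ((Xf_ratio hτ).mul h1).add (scale_change RH hK hτ)
  rw [add_zero] at h2
  refine h2.congr' ?_
  filter_upwards [eventually_gt_atTop (1 : ℝ), eventually_gt_atTop (1 / τ)] with T hT hTτ
  rw [div_lt_iff₀ hτ] at hTτ
  have hX := Xf_pos hT
  have hX2 := Xf_pos (V := τ * T) (by linarith)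
  show Xf (τ * T) / Xf T * (Q2 (ct K) (τ * T) (Real.log (τ * T)) / Xf (τ * T)) +
    (Xf T)⁻¹ * (Q2 (ct K) (τ * T) (Real.log T) - Q2 (ct K) (τ * T) (Real.log (τ * T))) = _
  field_simp
  ring

lemma QS_splitw {f : ℝ → ℝ} (hfe : ∀ x, f (-x) = f x) {V W : ℝ} (hV : 1 ≤ V) (hW : V ≤ W) (Λ : ℝ) :
    Q2 f W Λ = Q2 f V Λ + QS (Zb V W) (Zb V W) mz (fun s => s.im) f Λ +
      2 * QS (Zt V) (Zb V W) mz (fun s => s.im) f Λ := by
  classical
  exact split_pairs (Zt_split (V := V) (T := W) hV hW) (Zt_disj hV)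
    (fun s s' : ℂ => mz s * mz s' * f ((s.im - s'.im) * Λ / (2 * Real.pi)))
    (fun s s' => by
      show mz s * mz s' * f ((s.im - s'.im) * Λ / (2 * Real.pi)) =
        mz s' * mz s * f ((s'.im - s.im) * Λ / (2 * Real.pi))
      rw [← hfe, mul_comm (mz s)]
      congr 2
      ring)

lemma cross_w (RH : RiemannHypothesis) {D : ℝ} (hD : 0 ≤ D) {η : ℝ} (hη : 0 < η) :
    ∃ V1 : ℝ, 20 ≤ V1 ∧ ∀ V : ℝ, V1 ≤ V → ∀ W : ℝ, W ≤ 2 * V → ∀ L : ℝ, Real.log V / 2 ≤ L →
      ∀ f : ℝ → ℝ, (∀ y, |f y| ≤ D / (1 + y ^ 2)) →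
      |QS (Zt V) (Zb V W) mz (fun s => s.im) f L| ≤ η * (V * Real.log V) := by
  obtain ⟨V1, hV1, h⟩ := cross_gen RH hD hη
  refine ⟨V1, hV1, fun V hV W hW L hL f hf => ?_⟩
  have h1 := QS_le_abs (x := fun s : ℂ => s.im) (Zt V) (Zb V W) mz_nonneg f L
  have h2 := h V hV L hL (fun y => D / (1 + y ^ 2)) (fun y => le_of_eq (abs_of_nonneg (by
    positivity)))
  refine (h1.trans ?_).trans ((le_abs_self _).trans h2)
  unfold QS
  refine Finset.sum_le_sum fun s _ => ?_
  have hsub : Zb V W ⊆ Zb V (2 * V) := by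
    intro s' hs'
    have hV1' : 1 ≤ V := by linarith
    rw [mem_Zb hV1'] at hs' ⊢
    exact ⟨hs'.1, hs'.2.1, hs'.2.2.1, by linarith [hs'.2.2.2.1], hs'.2.2.2.2⟩
  refine (Finset.sum_le_sum fun s' _ => ?_).trans (Finset.sum_le_sum_of_subset_of_nonneg hsub
    fun s' _ _ => ?_)
  · exact mul_le_mul_of_nonneg_left (hf _) (mul_nonneg (mz_nonneg _) (mz_nonneg _))
  · exact mul_nonneg (mul_nonneg (mz_nonneg _) (mz_nonneg _)) (by positivity)

/-- **the pair sums of a window** -/
theorem QS_lim (RH : RiemannHypothesis) (h : QQ) (hK : TK κ K) {a c : ℝ} (ha : 0 < a)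
    (hac : a ≤ c) (hc2 : c ≤ 2 * a) {ε : ℝ} (hε : 0 < ε) : ∀ᶠ T : ℝ in atTop,
    QS (Zb (a * T) (c * T)) (Zb (a * T) (c * T)) mz (fun s => s.im) (ct K) (Real.log T) ≤
      ((c - a) * Lam AG K + ε) * Xf T := by
  obtain ⟨D, hD, hdec⟩ := hK.decay 1
  have hpi := Real.pi_pos
  obtain ⟨V1, hV1, hcr⟩ := cross_w RH hD (η := ε / (32 * Real.pi * a)) (by positivity)
  have hc : 0 < c := by linarith
  have t1 := (tendsto_order.1 (Q2_lim RH h hK hc)).2 (c * Lam AG K + ε / 4) (by linarith)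
  have t2 := (tendsto_order.1 (Q2_lim RH h hK ha)).1 (a * Lam AG K - ε / 4) (by linarith)
  filter_upwards [log_ratio ha, t1, t2, eventually_ge_atTop (V1 / a),
    eventually_gt_atTop 1] with T hlr ht1 ht2 hT1 hT
  obtain ⟨l1, l2, l3⟩ := hlr
  rw [div_le_iff₀ ha] at hT1
  have hTpos : 0 < T := by linarith
  have hL : 0 < Real.log T := Real.log_pos hT
  have hX := Xf_pos hT
  have hV1' : 1 ≤ a * T := by linarith
  have hc' := hcr (a * T) (by linarith) (c * T) (by nlinarith) (Real.log T) l1 (ct K)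
    (fun y => by simpa using hdec y)
  have hsplit := QS_splitw (f := ct K) (TK.ct_neg K) hV1'
    (mul_le_mul_of_nonneg_right hac hTpos.le) (Real.log T)
  have hc3 : 2 * |QS (Zt (a * T)) (Zb (a * T) (c * T)) mz (fun s => s.im) (ct K) (Real.log T)| ≤
      ε / 2 * Xf T := by
    have h2 : ε / (32 * Real.pi * a) * (a * T * Real.log (a * T)) ≤
        ε / (32 * Real.pi * a) * (a * T * (2 * Real.log T)) := by gcongr
    have h3 : ε / (32 * Real.pi * a) * (a * T * (2 * Real.log T)) = Xf T * (ε / 8) := by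
      unfold Xf
      field_simp
      ring
    have h4 : Xf T * (ε / 8) ≤ Xf T * (ε / 4) := by
      apply mul_le_mul_of_nonneg_left _ hX.le
      linarith
    linarith
  have h5 := neg_abs_le (QS (Zt (a * T)) (Zb (a * T) (c * T)) mz (fun s => s.im) (ct K)
    (Real.log T))
  rw [inv_mul_eq_div, div_lt_iff₀ hX] at ht1
  rw [inv_mul_eq_div, lt_div_iff₀ hX] at ht2
  nlinarith

end Pool.Agent.H7.AD
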