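import Pool.Agent.H7.AC.Rs

/-! Upper Riemann sums for a family of measures. -/

open MeasureTheory Filter Topology Real
open scoped ENNReal

namespace Pool.Agent.H7.AD

open Pool.Agent.H7.PS Pool.Agent.H7.LH Pool.Agent.H7.AC

lemma rs_gen {C a b D h0' : ℝ} (hC : 0 ≤ C) (hab : a < b) (hh0 : 0 < h0') {F : ℝ → ℝ → ℝ≥0∞}
    {q : ℝ → ℝ} (hq : ∀ᶠ T : ℝ in atTop, 0 ≤ q T)
    (h : ∀ x y : ℝ, a ≤ x → x < y → y ≤ b → y - x ≤ h0' → ∀ ε : ℝ, 0 < ε → ∀ᶠ T : ℝ in atTop,
      ∫⁻ v in Set.Ioc (x * T) (y * T), F T v ≤ ENNReal.ofReal ((C * (y - x) + ε) * q T))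
    {K : ℝ → ℝ} (h0 : ∀ x, 0 ≤ K x) (hc : ContinuousOn K (Set.Icc a b)) (hD : 0 ≤ D)
    (hl : ∀ x ∈ Set.Icc a b, ∀ y ∈ Set.Icc a b, |K x - K y| ≤ D * |x - y|) {ε : ℝ}
    (hε : 0 < ε) : ∀ᶠ T : ℝ in atTop,
    ∫⁻ v in Set.Ioc (a * T) (b * T), ENNReal.ofReal (K (v / T)) * F T v ≤
    ENNReal.ofReal ((C * (∫ α in a..b, K α) + ε) * q T) := by
  have hba : 0 < b - a := by linarith
  obtain ⟨N, hN⟩ := exists_nat_gt (4 * C * D * (b - a) ^ 2 / ε + (b - a) / h0')
  have hN0 : 0 < (N : ℝ) := lt_of_le_of_lt (by positivity) hN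
  have hN1 : 4 * C * D * (b - a) ^ 2 / ε < N := by
    have : 0 ≤ (b - a) / h0' := by positivity
    linarith
  have hN2 : (b - a) / h0' < N := by
    have : 0 ≤ 4 * C * D * (b - a) ^ 2 / ε := by positivity
    linarith
  obtain ⟨s, hs⟩ : ∃ s, s = (b - a) / N := ⟨_, rfl⟩
  have hs0 : 0 < s := by rw [hs]; positivity
  have hsh : s ≤ h0' := by
    rw [hs, div_le_iff₀ hN0]
    rw [div_lt_iff₀ hh0] at hN2
    linarith
  have hNs : N * s = b - a := by
    rw [hs]
    field_simp
  have hCs : C * (2 * D * s * (b - a)) ≤ ε / 2 := by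
    rw [div_lt_iff₀ hε] at hN1
    have e : C * (2 * D * s * (b - a)) = (4 * C * D * (b - a) ^ 2) / (2 * N) := by
      rw [hs]
      field_simp
      ring
    rw [e, div_le_iff₀ (by positivity)]
    linarith
  obtain ⟨m, hm⟩ : ∃ m : ℕ → ℝ, m = fun j : ℕ => K (a + j * s) + D * s := ⟨_, rfl⟩
  have hm0 : ∀ j, 0 ≤ m j := fun j => by
    rw [hm]
    have := h0 (a + j * s)
    positivity
  obtain ⟨S, hS⟩ : ∃ S, S = ∑ j ∈ Finset.range N, m j := ⟨_, rfl⟩
  have hS0 : 0 ≤ S := by
    rw [hS]
    exact Finset.sum_nonneg fun j _ => hm0 j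
  obtain ⟨e1, he1⟩ : ∃ e1, e1 = ε / (2 * (S + 1)) := ⟨_, rfl⟩
  have hCS : 0 < S + 1 := by positivity
  have he10 : 0 < e1 := by rw [he1]; positivity
  have hCe : S * e1 ≤ ε / 2 := by
    rw [he1]
    have : S * (ε / (2 * (S + 1))) = ε / 2 * (S / (S + 1)) := by
      field_simp
    rw [this]
    have h2 : S / (S + 1) ≤ 1 := by
      rw [div_le_one hCS]
      linarith
    nlinarith
  have hgrid : ∀ k : ℕ, k ≤ N → a + k * s ∈ Set.Icc a b := by
    intro k hk
    have h1 : (k : ℝ) ≤ N := by exact_mod_cast hk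
    have h2 : (k : ℝ) * s ≤ N * s := mul_le_mul_of_nonneg_right h1 hs0.le
    have h3 : 0 ≤ (k : ℝ) * s := by positivity
    exact ⟨by linarith, by linarith⟩
  have hii : ∀ k : ℕ, k < N → IntervalIntegrable K volume (a + k * s)
      (a + ((k + 1 : ℕ) : ℝ) * s) := by
    intro k hk
    refine ContinuousOn.intervalIntegrable (hc.mono ?_)
    refine Set.uIcc_subset_Icc (hgrid k hk.le) (hgrid (k + 1) hk)
  -- the sum against the integral
  have hsum : S * s ≤ (∫ α in a..b, K α) + 2 * D * s * (b - a) := by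
    have h1 := intervalIntegral.sum_integral_adjacent_intervals (f := K) (μ := volume)
      (a := fun k : ℕ => a + k * s) (n := N) fun k hk => hii k hk
    simp only [Nat.cast_zero, zero_mul, add_zero] at h1
    have e2 : a + N * s = b := by linarith
    rw [e2] at h1
    rw [← h1]
    have h2 : ∀ k ∈ Finset.range N, s * (m k - 2 * (D * s)) ≤
        ∫ x in (a + k * s)..(a + ((k + 1 : ℕ) : ℝ) * s), K x := by
      intro k hk
      have hkN := Finset.mem_range.1 hk
      have h3 : ∫ _ in (a + k * s)..(a + ((k + 1 : ℕ) : ℝ) * s), (m k - 2 * (D * s)) ≤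
          ∫ x in (a + k * s)..(a + ((k + 1 : ℕ) : ℝ) * s), K x := by
        refine intervalIntegral.integral_mono_on ?_ (by simp) (hii k hkN) ?_
        · push_cast
          nlinarith
        · intro x hx
          have hxI : x ∈ Set.Icc a b :=
            ⟨(hgrid k hkN.le).1.trans hx.1, hx.2.trans (hgrid (k + 1) hkN).2⟩
          have h4 := hl (a + k * s) (hgrid k hkN.le) x hxI
          have h5 : |a + k * s - x| ≤ s := by
            rw [abs_sub_comm, abs_of_nonneg (by linarith [hx.1])]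
            have := hx.2
            push_cast at this
            linarith
          have h6 := (le_abs_self _).trans (h4.trans (mul_le_mul_of_nonneg_left h5 hD))
          rw [hm]
          show K (a + k * s) + D * s - 2 * (D * s) ≤ K x
          linarith
      rw [intervalIntegral.integral_const, smul_eq_mul] at h3
      have e3 : a + ((k + 1 : ℕ) : ℝ) * s - (a + k * s) = s := by
        push_cast
        ring
      rwa [e3] at h3
    have h7 := Finset.sum_le_sum h2
    rw [← Finset.mul_sum, Finset.sum_sub_distrib, ← hS, Finset.sum_const, Finset.card_range,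
      nsmul_eq_mul] at h7
    have e4 : s * (S - N * (2 * (D * s))) = S * s - 2 * D * s * (N * s) := by ring
    rw [e4, hNs] at h7
    linarith
  have hw : ∀ᶠ T : ℝ in atTop, ∀ j ∈ Finset.range N,
      ∫⁻ v in Set.Ioc ((a + j * s) * T) ((a + ((j + 1 : ℕ) : ℝ) * s) * T), F T v ≤
      ENNReal.ofReal ((C * s + e1) * q T) := by
    refine (Filter.eventually_all_finset _).2 fun j hj => ?_
    have hjN := Finset.mem_range.1 hj
    have h1 := h (a + j * s) (a + ((j + 1 : ℕ) : ℝ) * s) (hgrid j hjN.le).1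
      (by push_cast; linarith) (hgrid (j + 1) hjN).2 (by push_cast; linarith) e1 he10
    filter_upwards [h1] with T h2
    refine h2.trans (le_of_eq ?_)
    congr 3
    push_cast
    ring
  filter_upwards [hw, eventually_gt_atTop 0, hq] with T hw hTp hQ0
  obtain ⟨Q, hQ⟩ : ∃ Q, Q = q T := ⟨_, rfl⟩
  rw [← hQ] at hw hQ0 ⊢
  have hmono : Monotone fun j : ℕ => (a + j * s) * T := by
    refine monotone_nat_of_le_succ fun j => ?_
    refine mul_le_mul_of_nonneg_right ?_ hTp.le
    push_cast
    linarith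
  have h1 := split_Ioc hmono (fun v => ENNReal.ofReal (K (v / T)) * F T v) N
  simp only [Nat.cast_zero, zero_mul, add_zero] at h1
  have e2 : a + N * s = b := by linarith
  rw [e2] at h1
  refine h1.trans ?_
  have h2 : ∀ j ∈ Finset.range N,
      ∫⁻ v in Set.Ioc ((a + j * s) * T) ((a + ((j + 1 : ℕ) : ℝ) * s) * T),
        ENNReal.ofReal (K (v / T)) * F T v ≤
      ENNReal.ofReal (m j * ((C * s + e1) * Q)) := by
    intro j hj
    have hjN := Finset.mem_range.1 hj
    have h3 : ∫⁻ v in Set.Ioc ((a + j * s) * T) ((a + ((j + 1 : ℕ) : ℝ) * s) * T),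
        ENNReal.ofReal (K (v / T)) * F T v ≤
        ∫⁻ v in Set.Ioc ((a + j * s) * T) ((a + ((j + 1 : ℕ) : ℝ) * s) * T),
        ENNReal.ofReal (m j) * F T v := by
      refine setLIntegral_mono' measurableSet_Ioc fun v hv => ?_
      refine mul_le_mul_left (ENNReal.ofReal_le_ofReal ?_) _
      have h6 : a + j * s < v / T := by
        rw [lt_div_iff₀ hTp]
        exact hv.1
      have h7 : v / T ≤ a + ((j + 1 : ℕ) : ℝ) * s := by
        rw [div_le_iff₀ hTp]
        exact hv.2
      have hvI : v / T ∈ Set.Icc a b :=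
        ⟨(hgrid j hjN.le).1.trans h6.le, h7.trans (hgrid (j + 1) hjN).2⟩
      have h4 := hl (v / T) hvI (a + j * s) (hgrid j hjN.le)
      have h5 : |v / T - (a + j * s)| ≤ s := by
        rw [abs_of_nonneg (by linarith)]
        push_cast at h7
        linarith
      have h8 := (le_abs_self _).trans (h4.trans (mul_le_mul_of_nonneg_left h5 hD))
      rw [hm]
      show K (v / T) ≤ K (a + j * s) + D * s
      linarith
    rw [lintegral_const_mul' _ _ ENNReal.ofReal_ne_top] at h3
    refine h3.trans ((mul_le_mul_right (hw j hj) _).trans (le_of_eq ?_))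
    rw [← ENNReal.ofReal_mul (hm0 j)]
  refine (Finset.sum_le_sum h2).trans ?_
  rw [← ENNReal.ofReal_sum_of_nonneg fun j _ => mul_nonneg (hm0 j) (by positivity),
    ← Finset.sum_mul, ← hS]
  refine ENNReal.ofReal_le_ofReal ?_
  have h9 : S * ((C * s + e1) * Q) = (C * (S * s) + S * e1) * Q := by ring
  rw [h9]
  refine mul_le_mul_of_nonneg_right ?_ hQ0
  have h10 := mul_le_mul_of_nonneg_left hsum hC
  linarith

/-- averaging over the blocks -/
lemma mix {Z : ℝ → ℝ≥0∞} (hZ : Measurable Z) {φ : ℝ → ℝ} (hφm : Measurable φ)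
    (hφ0 : ∀ x, 0 ≤ φ x) (hφa : ∀ x y, 0 < x → x ≤ y → φ y ≤ φ x) {A1 A2 c : ℝ} (h1 : 0 < A1)
    (hc : 0 ≤ c) (hb : ∀ V, 2 / 3 * A1 ≤ V → V ≤ A2 →
      ∫⁻ t in Set.Ioc V (3 / 2 * V), Z t ≤ ENNReal.ofReal (c * V)) :
    ∫⁻ t in Set.Ioc A1 A2, ENNReal.ofReal (φ t) * Z t ≤
      ENNReal.ofReal (c / Real.log (3 / 2)) * ∫⁻ V in Set.Ioc (2 / 3 * A1) A2,
        ENNReal.ofReal (φ V) := by
  have hlog : 0 < Real.log (3 / 2) := Real.log_pos (by norm_num)
  have key : ∀ t : ℝ, 0 < t → ENNReal.ofReal (1 / Real.log (3 / 2)) *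
      ∫⁻ V in Set.Ico (2 / 3 * t) t, ENNReal.ofReal (1 / V) = 1 := by
    intro t ht
    have h2 : ∫⁻ V in Set.Ico (2 / 3 * t) t, ENNReal.ofReal (1 / V) =
        ENNReal.ofReal (Real.log (3 / 2)) := by
      rw [setLIntegral_congr Ico_ae_eq_Ioc, ← ofReal_integral_eq_lintegral_ofReal,
        ← intervalIntegral.integral_of_le (by linarith), integral_one_div_of_pos (by positivity) ht]
      · congr 2
        field_simp
      · refine (ContinuousOn.integrableOn_Icc ?_).mono_set Set.Ioc_subset_Icc_self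
        refine ContinuousOn.div continuousOn_const continuousOn_id fun x hx => ?_
        have : 0 < x := by linarith [hx.1]
        exact this.ne'
      · refine (ae_restrict_iff' measurableSet_Ioc).2 (Eventually.of_forall fun x hx => ?_)
        have : 0 < x := by linarith [hx.1]
        show 0 ≤ 1 / x
        positivity
    rw [h2, ← ENNReal.ofReal_mul (by positivity), one_div_mul_cancel hlog.ne', ENNReal.ofReal_one]
  obtain ⟨S, hS⟩ : ∃ S : Set (ℝ × ℝ), S = {p | A1 < p.1 ∧ p.1 ≤ A2 ∧ 2 / 3 * p.1 ≤ p.2 ∧ p.2 < p.1} :=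
    ⟨_, rfl⟩
  have hSm : MeasurableSet S := by
    rw [hS]
    have e : {p : ℝ × ℝ | A1 < p.1 ∧ p.1 ≤ A2 ∧ 2 / 3 * p.1 ≤ p.2 ∧ p.2 < p.1} =
        {p | A1 < p.1} ∩ ({p | p.1 ≤ A2} ∩ ({p | 2 / 3 * p.1 ≤ p.2} ∩ {p | p.2 < p.1})) := by
      ext p
      simp only [Set.mem_ofPred_eq, Set.mem_inter_iff]
    rw [e]
    refine (measurableSet_lt measurable_const measurable_fst).inter
      ((measurableSet_le measurable_fst measurable_const).inter
      ((measurableSet_le (measurable_fst.const_mul _) measurable_snd).inter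
        (measurableSet_lt measurable_snd measurable_fst)))
  obtain ⟨G, hG⟩ : ∃ G : ℝ × ℝ → ℝ≥0∞, G = S.indicator fun p =>
      ENNReal.ofReal (1 / Real.log (3 / 2)) * (ENNReal.ofReal (1 / p.2) *
        (ENNReal.ofReal (φ p.1) * Z p.1)) := ⟨_, rfl⟩
  have hGm : Measurable G := by
    rw [hG]
    refine Measurable.indicator ?_ hSm
    refine Measurable.const_mul ?_ _
    refine Measurable.mul ?_ ?_
    · exact (measurable_const.div measurable_snd).ennreal_ofReal
    · exact (hφm.comp measurable_fst).ennreal_ofReal.mul (hZ.comp measurable_fst)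
  have e1 : ∫⁻ t in Set.Ioc A1 A2, ENNReal.ofReal (φ t) * Z t = ∫⁻ t, ∫⁻ V, G (t, V) := by
    rw [← lintegral_indicator measurableSet_Ioc]
    refine lintegral_congr fun t => ?_
    by_cases ht : t ∈ Set.Ioc A1 A2
    · rw [Set.indicator_of_mem ht]
      have ht0 : 0 < t := by linarith [ht.1]
      have e2 : ∀ V, G (t, V) = (Set.Ico (2 / 3 * t) t).indicator (fun V =>
          ENNReal.ofReal (1 / Real.log (3 / 2)) * (ENNReal.ofReal (1 / V) *
            (ENNReal.ofReal (φ t) * Z t))) V := by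
        intro V
        rw [hG]
        by_cases hV : V ∈ Set.Ico (2 / 3 * t) t
        · rw [Set.indicator_of_mem hV, Set.indicator_of_mem (show (t, V) ∈ S by
            rw [hS]
            exact ⟨ht.1, ht.2, hV.1, hV.2⟩)]
        · rw [Set.indicator_of_notMem hV, Set.indicator_of_notMem (show (t, V) ∉ S by
            rw [hS]
            rintro ⟨a1, a2, a3, a4⟩
            exact hV ⟨a3, a4⟩)]
      simp_rw [e2]
      rw [lintegral_indicator measurableSet_Ico]
      have hm0 : Measurable fun V : ℝ => ENNReal.ofReal (1 / V) :=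
        (measurable_const.div measurable_id).ennreal_ofReal
      have hm1 : Measurable fun V : ℝ => ENNReal.ofReal (1 / V) * (ENNReal.ofReal (φ t) * Z t) :=
        hm0.mul_const _
      rw [lintegral_const_mul _ hm1, lintegral_mul_const _ hm0, ← mul_assoc, key t ht0, one_mul]
    · rw [Set.indicator_of_notMem ht]
      have e2 : ∀ V, G (t, V) = 0 := by
        intro V
        rw [hG, Set.indicator_of_notMem (show (t, V) ∉ S by
            rw [hS]
            rintro ⟨a1, a2, a3, a4⟩
            exact ht ⟨a1, a2⟩)]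
      simp_rw [e2]
      simp
  have hu : AEMeasurable (Function.uncurry fun t V => G (t, V))
      ((volume : Measure ℝ).prod volume) := by
    have : (Function.uncurry fun t V => G (t, V)) = G := by
      funext p
      rfl
    rw [this]
    exact hGm.aemeasurable
  rw [e1, lintegral_lintegral_swap hu, ← lintegral_const_mul' _ _ ENNReal.ofReal_ne_top,
    ← lintegral_indicator measurableSet_Ioc]
  refine lintegral_mono fun V => ?_
  by_cases hV : V ∈ Set.Ioc (2 / 3 * A1) A2
  · rw [Set.indicator_of_mem hV]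
    have hV0 : 0 < V := by linarith [hV.1]
    have h3 : ∀ t, G (t, V) ≤ (Set.Ioc V (3 / 2 * V)).indicator (fun t =>
        ENNReal.ofReal (1 / Real.log (3 / 2) * (1 / V) * φ V) * Z t) t := by
      intro t
      rw [hG]
      by_cases ht : (t, V) ∈ S
      · rw [Set.indicator_of_mem ht]
        rw [hS] at ht
        obtain ⟨a1, a2, a3, a4⟩ := ht
        have a3' : 2 / 3 * t ≤ V := a3
        have a4' : V < t := a4
        rw [Set.indicator_of_mem (show t ∈ Set.Ioc V (3 / 2 * V) from ⟨a4', by linarith⟩)]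
        show ENNReal.ofReal (1 / Real.log (3 / 2)) * (ENNReal.ofReal (1 / V) *
          (ENNReal.ofReal (φ t) * Z t)) ≤ _
        rw [← mul_assoc, ← mul_assoc, ← ENNReal.ofReal_mul (by positivity),
          ← ENNReal.ofReal_mul (by positivity)]
        refine mul_le_mul_left (ENNReal.ofReal_le_ofReal ?_) _
        exact mul_le_mul_of_nonneg_left (hφa V t hV0 a4'.le) (by positivity)
      · rw [Set.indicator_of_notMem ht]
        exact zero_le
    refine (lintegral_mono h3).trans ?_
    rw [lintegral_indicator measurableSet_Ioc, lintegral_const_mul' _ _ ENNReal.ofReal_ne_top]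
    refine (mul_le_mul_right (hb V hV.1.le hV.2) _).trans (le_of_eq ?_)
    have hφV := hφ0 V
    rw [← ENNReal.ofReal_mul (by positivity), ← ENNReal.ofReal_mul (by positivity)]
    congr 1
    field_simp
  · rw [Set.indicator_of_notMem hV]
    have h3 : ∀ t, G (t, V) = 0 := by
      intro t
      rw [hG, Set.indicator_of_notMem (show (t, V) ∉ S by
        rw [hS]
        rintro ⟨a1, a2, a3, a4⟩
        have a1' : A1 < t := a1
        have a2' : t ≤ A2 := a2
        have a3' : 2 / 3 * t ≤ V := a3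
        have a4' : V < t := a4
        exact hV ⟨by linarith, by linarith⟩)]
    simp_rw [h3]
    simp

end Pool.Agent.H7.AD
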