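import Pool.Agent.H7.AD.Rng
import Pool.Agent.H7.AD.Rs
import Pool.Agent.H7.AD.Lim

/-! The main range of the transform. -/

open MeasureTheory Filter Topology Real
open scoped ENNReal

namespace Pool.Agent.H7.AD

open H370 TH803TW Pool.Agent.Y744 Pool.Agent.H7.PS Pool.Agent.H7.LH Pool.Agent.H7.FF

variable {κ : ℝ} {K : ℝ → ℝ}

lemma Lam_pos' (hK : TK κ K) (hpos : ∀ x, 0 ≤ K x) : 0 ≤ Lam AG K := by
  rw [Lam_AG hK]
  have h1 : 0 ≤ ∫ α, K α * min |α| 1 := integral_nonneg fun α =>
    mul_nonneg (hpos α) (le_min (abs_nonneg _) zero_le_one)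
  have := hpos 0
  linarith

/-- one window of the transform -/
lemma win_lim (RH : RiemannHypothesis) (h : QQ) (hK : TK κ K) (hκ : 0 ≤ κ) (hpos : ∀ x, 0 ≤ K x)
    (h0 : ∀ x, 0 < x → x < 1 / 2 → K x = 0) {η : ℝ} (hη : 0 < η) {x y : ℝ} (hx : 0 < x)
    (hxy : x < y) (hy : y - x ≤ x / 8) {ε : ℝ} (hε : 0 < ε) : ∀ᶠ T : ℝ in atTop,
      ∫⁻ t in Set.Ioc (x * T) (y * T), ZZ K T t ≤
        ENNReal.ofReal (((1 + η) * (Real.sqrt π / 2) * Lam AG K * (y - x) + ε) *
          (T * Real.log T ^ 2)) := by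
  have hpi := Real.pi_pos
  have hs : 0 < Real.sqrt π := by positivity
  have hΛ := Lam_pos' hK hpos
  obtain ⟨Λ, hΛd⟩ : ∃ Λ, Λ = Lam AG K := ⟨_, rfl⟩
  rw [← hΛd] at hΛ ⊢
  obtain ⟨e, he⟩ : ∃ e, e = min (x / 8) (ε / (8 * (1 + η) * Real.sqrt π * (Λ + 1))) := ⟨_, rfl⟩
  have he0 : 0 < e := by rw [he]; exact lt_min (by positivity) (by positivity)
  have hex : e ≤ x / 8 := by rw [he]; exact min_le_left _ _
  have he2 : (1 + η) * (Real.sqrt π / 2) * (2 * e * Λ) ≤ ε / 8 := by
    have h1 : e ≤ ε / (8 * (1 + η) * Real.sqrt π * (Λ + 1)) := by rw [he]; exact min_le_right _ _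
    rw [le_div_iff₀ (by positivity)] at h1
    have h2 : (1 + η) * (Real.sqrt π / 2) * (2 * e * Λ) ≤ (1 + η) * Real.sqrt π * e * (Λ + 1) := by
      have : (1 + η) * (Real.sqrt π / 2) * (2 * e * Λ) = (1 + η) * Real.sqrt π * e * Λ := by ring
      rw [this]
      exact mul_le_mul_of_nonneg_left (by linarith) (by positivity)
    linarith
  obtain ⟨e1, he1⟩ : ∃ e1, e1 = ε / (4 * (1 + η) * Real.sqrt π) := ⟨_, rfl⟩
  have he10 : 0 < e1 := by rw [he1]; positivity
  have he12 : (1 + η) * (Real.sqrt π / 2) * e1 = ε / 8 := by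
    rw [he1]
    field_simp
    ring
  have ha : 0 < x - e := by linarith
  have hq := QS_lim RH h hK (a := x - e) (c := y + e) ha (by linarith) (by linarith) he10
  obtain ⟨C, V0, hC, hV0, hw⟩ := ZZ_win RH hK hκ hpos h0 hη (m := 2) (M := 2) (by norm_num)
    (by norm_num)
  have hlo := Real.isLittleO_log_id_atTop.bound (c := e / 2) (by linarith)
  filter_upwards [log_ratio ha, hq, eventually_ge_atTop (V0 / (x - e)), hlo,
    Real.tendsto_log_atTop.eventually_ge_atTop (4 * C * x / ε), eventually_gt_atTop 1]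
    with T hlr hq hT0 hlo hTl hT
  obtain ⟨l1, l2, l3⟩ := hlr
  rw [div_le_iff₀ ha] at hT0
  have hTpos : 0 < T := by linarith
  have hL : 0 < Real.log T := Real.log_pos hT
  rw [Real.norm_eq_abs, abs_of_pos hL, id, Real.norm_eq_abs, abs_of_pos hTpos] at hlo
  have hlV : Real.log ((x - e) * T) ≤ e * T := by linarith
  have h1 := hw ((x - e) * T) (by linarith) ((x - e) * T) ((y + e) * T) le_rfl (by nlinarith)
    (x * T) (y * T) (by linarith) (by nlinarith) (by linarith) T hT l1 l2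
  refine h1.trans (ENNReal.ofReal_le_ofReal ?_)
  rw [← hΛd] at hq
  have h2 : (1 + η) * (π * Real.sqrt π) * QS (Zb ((x - e) * T) ((y + e) * T))
      (Zb ((x - e) * T) ((y + e) * T)) mz (fun s => s.im) (ct K) (Real.log T) ≤
      (1 + η) * (π * Real.sqrt π) * ((((y + e) - (x - e)) * Λ + e1) * Xf T) :=
    mul_le_mul_of_nonneg_left hq (by positivity)
  have h3 : (1 + η) * (π * Real.sqrt π) * ((((y + e) - (x - e)) * Λ + e1) * Xf T) =
      ((1 + η) * (Real.sqrt π / 2) * Λ * (y - x) + (1 + η) * (Real.sqrt π / 2) * (2 * e * Λ) +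
        (1 + η) * (Real.sqrt π / 2) * e1) * (T * Real.log T) := by
    unfold Xf
    field_simp
    ring
  have h4 : C * ((x - e) * T) ≤ ε / 4 * (T * Real.log T) := by
    have h5 : C * (x - e) ≤ ε / 4 * Real.log T := by
      rw [div_le_iff₀ hε] at hTl
      nlinarith
    nlinarith
  have h5 : (1 + η) * (π * Real.sqrt π) * QS (Zb ((x - e) * T) ((y + e) * T))
      (Zb ((x - e) * T) ((y + e) * T)) mz (fun s => s.im) (ct K) (Real.log T) +
      C * ((x - e) * T) ≤ ((1 + η) * (Real.sqrt π / 2) * Λ * (y - x) + ε) * (T * Real.log T) := by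
    have h6 : 0 < T * Real.log T := by positivity
    rw [h3, he12] at h2
    nlinarith
  calc Real.log T * ((1 + η) * (π * Real.sqrt π) * QS (Zb ((x - e) * T) ((y + e) * T))
      (Zb ((x - e) * T) ((y + e) * T)) mz (fun s => s.im) (ct K) (Real.log T) +
      C * ((x - e) * T)) ≤ Real.log T * (((1 + η) * (Real.sqrt π / 2) * Λ * (y - x) + ε) *
        (T * Real.log T)) := mul_le_mul_of_nonneg_left h5 hL.le
    _ = _ := by ring

lemma dl_le {T : ℝ} (hT : 1 < T) : 0 < Real.log (1 + 1 / T) ∧ Real.log (1 + 1 / T) ≤ 1 / T ∧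
    1 / (T + 1) ≤ Real.log (1 + 1 / T) := by
  have hTp : 0 < T := by linarith
  have h1 : 0 < 1 / T := by positivity
  refine ⟨Real.log_pos (by linarith), ?_, ?_⟩
  · have := Real.log_le_sub_one_of_pos (show 0 < 1 + 1 / T by positivity)
    linarith
  · have h4 := Real.one_sub_inv_le_log_of_pos (show 0 < 1 + 1 / T by positivity)
    refine le_trans (le_of_eq ?_) h4
    field_simp
    ring

lemma wd_small {T t : ℝ} (hT : 1 < T) (ht : 0 < t) :
    wd (Real.log (1 + 1 / T)) t ≤ ENNReal.ofReal (1 / T ^ 2) := by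
  obtain ⟨h1, h2, -⟩ := dl_le hT
  unfold wd
  rw [fej_scale h1 ht]
  refine ENNReal.ofReal_le_ofReal ?_
  have h3 := fej_le (Real.log (1 + 1 / T) * t)
  have h4 := fej_nonneg (Real.log (1 + 1 / T) * t)
  have h5 : Real.log (1 + 1 / T) ^ 2 ≤ 1 / T ^ 2 := by
    rw [← one_div_pow]
    exact pow_le_pow_left₀ h1.le h2 2
  calc Real.log (1 + 1 / T) ^ 2 * fej (Real.log (1 + 1 / T) * t) ≤
      Real.log (1 + 1 / T) ^ 2 * 1 := mul_le_mul_of_nonneg_left h3 (by positivity)
    _ ≤ _ := by rw [mul_one]; exact h5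

lemma wd_large (δ t : ℝ) : wd δ t ≤ ENNReal.ofReal (4 / t ^ 2) := by
  unfold wd
  refine ENNReal.ofReal_le_ofReal ?_
  have := Real.neg_one_le_cos (δ * t)
  exact div_le_div_of_nonneg_right (by linarith) (sq_nonneg _)

/-- the main range -/
lemma main_rng (RH : RiemannHypothesis) (h : QQ) (hK : TK κ K) (hκ : 0 ≤ κ) (hpos : ∀ x, 0 ≤ K x)
    (h0 : ∀ x, 0 < x → x < 1 / 2 → K x = 0) {η : ℝ} (hη : 0 < η) {a R : ℝ} (ha : 0 < a)
    (haR : a < R) {ε : ℝ} (hε : 0 < ε) : ∀ᶠ T : ℝ in atTop,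
      ∫⁻ t in Set.Ioc (a * T) (R * T), wd (Real.log (1 + 1 / T)) t * ZZ K T t ≤
        ENNReal.ofReal (((1 + η) * (Real.sqrt π / 2) * Lam AG K * π + ε) *
          (Real.log T ^ 2 / T)) := by
  have hpi := Real.pi_pos
  have hs : 0 < Real.sqrt π := by positivity
  have hΛ := Lam_pos' hK hpos
  obtain ⟨c0, hc0⟩ : ∃ c0, c0 = (1 + η) * (Real.sqrt π / 2) * Lam AG K := ⟨_, rfl⟩
  have hc00 : 0 ≤ c0 := by rw [hc0]; positivity
  rw [← hc0]
  have hRa : 0 < R - a := by linarith
  obtain ⟨e2, he2⟩ : ∃ e2, e2 = ε / (2 * (c0 + 1) * (R - a)) := ⟨_, rfl⟩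
  have he20 : 0 < e2 := by rw [he2]; positivity
  have he21 : c0 * (e2 * (R - a)) ≤ ε / 2 := by
    have h1 : c0 * (e2 * (R - a)) = ε / 2 * (c0 / (c0 + 1)) := by
      rw [he2]
      field_simp
    rw [h1]
    have : c0 / (c0 + 1) ≤ 1 := by
      rw [div_le_one (by positivity)]
      linarith
    nlinarith
  obtain ⟨D, hD⟩ : ∃ D, D = 2 / (a / 2) ^ 2 + 8 / (a / 2) ^ 3 := ⟨_, rfl⟩
  have hD0 : 0 < D := by rw [hD]; positivity
  have hcf : ContinuousOn fej (Set.Icc a R) := by
    unfold fej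
    refine ContinuousOn.div (by fun_prop) (by fun_prop) fun x hx => ?_
    have : 0 < x := by linarith [hx.1]
    positivity
  have hrs := rs_gen (C := c0) (a := a) (b := R) (D := D) (h0' := a / 8) hc00 haR (by positivity)
    (F := fun T t => ZZ K T t) (q := fun T => T * Real.log T ^ 2)
    (by filter_upwards [eventually_gt_atTop 0] with T hT; positivity)
    (fun x y hx hxy hy hyx e he => by
      have := win_lim RH h hK hκ hpos h0 hη (x := x) (y := y) (by linarith) hxy (by linarith) he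
      rwa [← hc0] at this)
    (K := fun x => fej x + e2) (fun x => by
      have := fej_nonneg x
      positivity) (hcf.add continuousOn_const) hD0.le
    (fun x hx y hy => by
      have h1 := fej_lip (α := a / 2) (x := x) (y := y) (by positivity) (by linarith [hx.1])
        (by linarith [hy.1])
      rw [← hD] at h1
      rwa [add_sub_add_right_eq_sub]) (ε := ε / 2) (by positivity)
  have hint : ∫ α in a..R, (fej α + e2) ≤ π + e2 * (R - a) := by
    rw [intervalIntegral.integral_add (hcf.intervalIntegrable_of_Icc haR.le)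
      (by simp), intervalIntegral.integral_const, smul_eq_mul]
    have h1 : ∫ α in a..R, fej α ≤ π := by
      rw [intervalIntegral.integral_of_le haR.le, ← fej_integral]
      refine setIntegral_mono_set fej_int (Eventually.of_forall fun x => fej_nonneg x) ?_
      exact (Set.Ioc_subset_Ioi_self.trans (Set.Ioi_subset_Ioi ha.le)).eventuallyLE
    linarith
  filter_upwards [hrs, eventually_gt_atTop 1, eventually_ge_atTop (D * R / e2)] with T hrs hT hTe
  have hTp : 0 < T := by linarith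
  have hL : 0 < Real.log T := Real.log_pos hT
  rw [div_le_iff₀ he20] at hTe
  obtain ⟨d1, d2, d3⟩ := dl_le hT
  obtain ⟨δ, hδ⟩ : ∃ δ, δ = Real.log (1 + 1 / T) := ⟨_, rfl⟩
  rw [← hδ] at d1 d2 d3 ⊢
  have h1 : ∫⁻ t in Set.Ioc (a * T) (R * T), wd δ t * ZZ K T t ≤
      ∫⁻ t in Set.Ioc (a * T) (R * T), ENNReal.ofReal (1 / T ^ 2) *
        (ENNReal.ofReal (fej (t / T) + e2) * ZZ K T t) := by
    refine setLIntegral_mono' measurableSet_Ioc fun t ht => ?_
    have ht0 : 0 < t := lt_trans (by positivity) ht.1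
    rw [← mul_assoc, ← ENNReal.ofReal_mul (by positivity)]
    refine mul_le_mul_left ?_ _
    unfold wd
    rw [fej_scale d1 ht0]
    refine ENNReal.ofReal_le_ofReal ?_
    have k1 : a / 2 ≤ δ * t := by
      have : 1 / (T + 1) * (a * T) ≤ δ * t :=
        mul_le_mul d3 ht.1.le (by positivity) d1.le
      have k2 : a / 2 ≤ 1 / (T + 1) * (a * T) := by
        rw [one_div, inv_mul_eq_div, div_le_div_iff₀ (by norm_num) (by positivity)]
        nlinarith
      linarith
    have k3 : a / 2 ≤ t / T := by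
      rw [le_div_iff₀ hTp]
      nlinarith [ht.1]
    have k4 := fej_lip (α := a / 2) (x := δ * t) (y := t / T) (by positivity) k1 k3
    rw [← hD] at k4
    have k5 : |δ * t - t / T| ≤ R / T := by
      have e1 : δ * t - t / T = -((1 / T - δ) * t) := by ring
      rw [e1, abs_neg, abs_of_nonneg (mul_nonneg (by linarith) ht0.le)]
      have k6 : 1 / T - δ ≤ 1 / T ^ 2 := by
        have : 1 / T - 1 / (T + 1) ≤ 1 / T ^ 2 := by
          rw [div_sub_div _ _ (by positivity) (by positivity), div_le_div_iff₀ (by positivity)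
            (by positivity)]
          nlinarith
        linarith
      calc (1 / T - δ) * t ≤ 1 / T ^ 2 * (R * T) :=
            mul_le_mul k6 ht.2 ht0.le (by positivity)
        _ = R / T := by
            field_simp
    have k7 : fej (δ * t) ≤ fej (t / T) + e2 := by
      have k8 := (le_abs_self _).trans (k4.trans (mul_le_mul_of_nonneg_left k5 hD0.le))
      have k9 : D * (R / T) ≤ e2 := by
        rw [← mul_div_assoc, div_le_iff₀ hTp]
        linarith
      linarith
    have k10 : δ ^ 2 ≤ 1 / T ^ 2 := by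
      rw [← one_div_pow]
      exact pow_le_pow_left₀ d1.le d2 2
    exact mul_le_mul k10 k7 (fej_nonneg _) (by positivity)
  refine h1.trans ?_
  rw [lintegral_const_mul' _ _ ENNReal.ofReal_ne_top]
  refine (mul_le_mul_right hrs _).trans ?_
  rw [← ENNReal.ofReal_mul (by positivity)]
  refine ENNReal.ofReal_le_ofReal ?_
  have h2 : c0 * (∫ α in a..R, (fej α + e2)) + ε / 2 ≤ c0 * π + ε := by
    have := mul_le_mul_of_nonneg_left hint hc00
    nlinarith
  calc 1 / T ^ 2 * ((c0 * (∫ α in a..R, (fej α + e2)) + ε / 2) * (T * Real.log T ^ 2)) =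
      (c0 * (∫ α in a..R, (fej α + e2)) + ε / 2) * (Real.log T ^ 2 / T) := by
        field_simp
    _ ≤ _ := mul_le_mul_of_nonneg_right h2 (by positivity)

end Pool.Agent.H7.AD
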