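import Pool.Agent.H7.LH.Ker1

/-! The reverse of the Bessel inequality. -/

open MeasureTheory Filter Topology Real
open scoped ENNReal

namespace Pool.Agent.H7.AD

open Pool.Agent.H7.PS Pool.Agent.H7.LH

lemma eps_id {E : ℝ → ℝ} (hE : Integrable E) (hm : Measurable E) {ε : ℝ} (hε : 0 < ε) :
    ∫ t, Real.exp (-ε * t ^ 2) * ‖ft E t‖ ^ 2 =
      ∫ p, E p.1 * E p.2 * gk ε (p.1 - p.2) ∂((volume : Measure ℝ).prod volume) := by
  set F : ℝ → ℝ × ℝ → ℂ := fun t p => ((Real.exp (-ε * t ^ 2) : ℝ) : ℂ) *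
    (((E p.1 : ℂ) * Complex.exp (t * p.1 * Complex.I)) *
      ((E p.2 : ℂ) * Complex.exp ((-t : ℝ) * p.2 * Complex.I))) with hF
  have hg : Integrable (fun t : ℝ => Real.exp (-ε * t ^ 2)) := integrable_exp_neg_mul_sq hε
  have hEE : Integrable (fun p : ℝ × ℝ => E p.1 * E p.2) (volume.prod volume) :=
    hE.mul_prod hE
  have hFm : AEStronglyMeasurable (Function.uncurry F) (volume.prod (volume.prod volume)) := by
    refine Measurable.aestronglyMeasurable ?_
    simp only [hF, Function.uncurry_def]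
    have hE1 : Measurable fun p : ℝ × ℝ × ℝ => (E p.2.1 : ℂ) :=
      Complex.measurable_ofReal.comp (hm.comp (measurable_fst.comp measurable_snd))
    have hE2 : Measurable fun p : ℝ × ℝ × ℝ => (E p.2.2 : ℂ) :=
      Complex.measurable_ofReal.comp (hm.comp (measurable_snd.comp measurable_snd))
    refine Measurable.mul ?_ (Measurable.mul (hE1.mul ?_) (hE2.mul ?_))
    · exact Continuous.measurable (by fun_prop)
    · exact Continuous.measurable (by fun_prop)
    · exact Continuous.measurable (by fun_prop)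
  have hFi : Integrable (Function.uncurry F) (volume.prod (volume.prod volume)) := by
    have h1 : Integrable (fun p : ℝ × ℝ × ℝ => Real.exp (-ε * p.1 ^ 2) * (E p.2.1 * E p.2.2))
        (volume.prod (volume.prod volume)) := hg.mul_prod hEE
    refine h1.norm.mono' hFm (Eventually.of_forall fun p => ?_)
    simp only [hF, Function.uncurry_def]
    rw [norm_mul, norm_mul, norm_mul, norm_mul, norm_e2, norm_e2, Complex.norm_real,
      Complex.norm_real, Complex.norm_real, norm_mul, norm_mul, mul_one, mul_one]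
  have hft : ∀ t : ℝ, ((Real.exp (-ε * t ^ 2) * ‖ft E t‖ ^ 2 : ℝ) : ℂ) =
      ∫ p, F t p ∂(volume.prod volume) := by
    intro t
    have h1 : ((‖ft E t‖ ^ 2 : ℝ) : ℂ) = ft E t * ft E (-t) := by
      have h2 : ft E (-t) = (starRingEnd ℂ) (ft E t) := by
        unfold ft
        rw [← integral_conj]
        refine integral_congr_ae (Eventually.of_forall fun v => ?_)
        show _ = (starRingEnd ℂ) _
        rw [map_mul, Complex.conj_ofReal, ← Complex.exp_conj]
        congr 2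
        simp
      rw [h2, Complex.mul_conj, Complex.normSq_eq_norm_sq]
    rw [Complex.ofReal_mul, h1]
    simp only [hF]
    rw [integral_const_mul]
    congr 1
    have h3 := integral_prod_mul (μ := (volume : Measure ℝ)) (ν := (volume : Measure ℝ))
      (fun v : ℝ => (E v : ℂ) * Complex.exp (t * v * Complex.I))
      (fun v : ℝ => (E v : ℂ) * Complex.exp ((-t : ℝ) * v * Complex.I))
    rw [h3]
    rfl
  have hswap : ∫ t, ∫ p, F t p ∂(volume.prod volume) = ∫ p, ∫ t, F t p ∂volume ∂(volume.prod volume) :=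
    integral_integral_swap hFi
  have hinner : ∀ p : ℝ × ℝ, ∫ t, F t p = ((E p.1 * E p.2 * gk ε (p.1 - p.2) : ℝ) : ℂ) := by
    intro p
    have h1 : ∀ t : ℝ, F t p = ((E p.1 : ℂ) * (E p.2 : ℂ)) *
        (Complex.exp (Complex.I * ((p.1 - p.2 : ℝ) : ℂ) * t) * Complex.exp (-(ε : ℂ) * t ^ 2)) := by
      intro t
      simp only [hF]
      have h2 : ((Real.exp (-ε * t ^ 2) : ℝ) : ℂ) = Complex.exp (-(ε : ℂ) * t ^ 2) := by
        push_cast
        ring_nf
      have h3 : Complex.exp (t * p.1 * Complex.I) * Complex.exp ((-t : ℝ) * p.2 * Complex.I) =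
          Complex.exp (Complex.I * ((p.1 - p.2 : ℝ) : ℂ) * t) := by
        rw [← Complex.exp_add]
        congr 1
        push_cast
        ring
      rw [h2, ← h3]
      ring
    simp_rw [h1]
    rw [integral_const_mul, fourierIntegral_gaussian (by simpa using hε)]
    unfold gk
    have h4 : ((π : ℂ) / (ε : ℂ)) ^ (1 / 2 : ℂ) = ((Real.sqrt (π / ε) : ℝ) : ℂ) := by
      rw [Real.sqrt_eq_rpow, Complex.ofReal_cpow (by positivity)]
      push_cast
      rfl
    rw [h4]
    push_cast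
    ring_nf
  have h5 : ((∫ t, Real.exp (-ε * t ^ 2) * ‖ft E t‖ ^ 2 : ℝ) : ℂ) =
      ((∫ p, E p.1 * E p.2 * gk ε (p.1 - p.2) ∂((volume : Measure ℝ).prod volume) : ℝ) : ℂ) := by
    have k1 : ∫ t, ((Real.exp (-ε * t ^ 2) * ‖ft E t‖ ^ 2 : ℝ) : ℂ) =
        ((∫ t, Real.exp (-ε * t ^ 2) * ‖ft E t‖ ^ 2 : ℝ) : ℂ) := integral_ofReal
    have k2 : ∫ p, ((E p.1 * E p.2 * gk ε (p.1 - p.2) : ℝ) : ℂ)
        ∂((volume : Measure ℝ).prod volume) =
        ((∫ p, E p.1 * E p.2 * gk ε (p.1 - p.2) ∂((volume : Measure ℝ).prod volume) : ℝ) : ℂ) :=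
      integral_ofReal
    rw [← k1, ← k2, integral_congr_ae (Eventually.of_forall hft), hswap]
    exact integral_congr_ae (Eventually.of_forall hinner)
  exact_mod_cast h5

lemma gk_even (ε x : ℝ) : gk ε (-x) = gk ε x := by
  unfold gk
  congr 2
  ring

/-- the kernel against the first moment -/
lemma gk_mom {ε : ℝ} (hε : 0 < ε) :
    ∫⁻ r, ENNReal.ofReal (gk ε r * |r|) ≤ ENNReal.ofReal (2 * Real.sqrt (2 * ε) * (2 * π)) := by
  have h1 : ∀ r : ℝ, gk ε r * |r| ≤ 2 * Real.sqrt (2 * ε) * gk (2 * ε) r := by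
    intro r
    unfold gk
    have e1 : Real.exp (-r ^ 2 / (4 * ε)) = Real.exp (-r ^ 2 / (4 * (2 * ε))) *
        Real.exp (-r ^ 2 / (4 * (2 * ε))) := by
      rw [← Real.exp_add]
      congr 1
      field_simp
      ring
    have e2 : Real.sqrt (2 * ε) * Real.sqrt (π / (2 * ε)) = Real.sqrt π := by
      rw [← Real.sqrt_mul (by positivity)]
      congr 1
      field_simp
    have e3 : Real.sqrt (π / ε) = Real.sqrt π / Real.sqrt ε := Real.sqrt_div Real.pi_pos.le ε
    have h2 : |r| / Real.sqrt ε * Real.exp (-r ^ 2 / (4 * (2 * ε))) ≤ 2 := by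
      obtain ⟨x, hx⟩ : ∃ x, x = |r| / Real.sqrt ε := ⟨_, rfl⟩
      have hx2 : x ^ 2 = r ^ 2 / ε := by
        rw [hx, div_pow, sq_abs, Real.sq_sqrt hε.le]
      have e4 : -r ^ 2 / (4 * (2 * ε)) = -(x ^ 2 / 8) := by
        rw [hx2]
        field_simp
        ring
      rw [← hx, e4, Real.exp_neg, ← div_eq_mul_inv, div_le_iff₀ (Real.exp_pos _)]
      have h3 := Real.add_one_le_exp (x ^ 2 / 8)
      nlinarith [sq_nonneg (x - 2)]
    have h4 : Real.sqrt (π / ε) * Real.exp (-r ^ 2 / (4 * ε)) * |r| =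
        Real.sqrt π * Real.exp (-r ^ 2 / (4 * (2 * ε))) *
        (|r| / Real.sqrt ε * Real.exp (-r ^ 2 / (4 * (2 * ε)))) := by
      rw [e1, e3]
      ring
    have h5 : 2 * Real.sqrt (2 * ε) * (Real.sqrt (π / (2 * ε)) *
        Real.exp (-r ^ 2 / (4 * (2 * ε)))) =
        Real.sqrt π * Real.exp (-r ^ 2 / (4 * (2 * ε))) * 2 := by
      rw [← e2]
      ring
    rw [h4, h5]
    exact mul_le_mul_of_nonneg_left h2 (by positivity)
  have h2 := gk_lint (ε := 2 * ε) (by positivity) 0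
  have h3 : ∫⁻ x, ENNReal.ofReal (gk (2 * ε) x) = ENNReal.ofReal (2 * π) := by
    rw [← h2]
    refine lintegral_congr fun x => ?_
    rw [zero_sub, gk_even]
  calc ∫⁻ r, ENNReal.ofReal (gk ε r * |r|) ≤
      ∫⁻ r, ENNReal.ofReal (2 * Real.sqrt (2 * ε)) * ENNReal.ofReal (gk (2 * ε) r) := by
        refine lintegral_mono fun r => ?_
        rw [← ENNReal.ofReal_mul (by positivity)]
        exact ENNReal.ofReal_le_ofReal (h1 r)
    _ = _ := by
        rw [lintegral_const_mul' _ _ ENNReal.ofReal_ne_top, h3,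
          ← ENNReal.ofReal_mul (by positivity)]

/-- the reverse inequality with the Gaussian -/
lemma rev_eps {E : ℝ → ℝ} (hE : Integrable E) (hm : Measurable E)
    (hE2 : ∫⁻ v, ENNReal.ofReal (E v ^ 2) < ⊤) {C : ℝ} (hC : 0 ≤ C)
    (hω : ∀ r : ℝ, ∫⁻ v, ENNReal.ofReal ((E v - E (v - r)) ^ 2) ≤ ENNReal.ofReal (C * |r|))
    {ε : ℝ} (hε : 0 < ε) :
    ENNReal.ofReal (2 * π) * ∫⁻ v, ENNReal.ofReal (E v ^ 2) ≤
      (∫⁻ t, ‖ft E t‖ₑ ^ 2) + ENNReal.ofReal (C * (2 * Real.sqrt (2 * ε) * (2 * π))) := by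
  have hgm : Measurable fun p : ℝ × ℝ => gk ε (p.1 - p.2) :=
    (gk_cont ε).measurable.comp (measurable_fst.sub measurable_snd)
  have hm1 : Measurable fun p : ℝ × ℝ => E p.1 := hm.comp measurable_fst
  have hm2 : Measurable fun p : ℝ × ℝ => E p.2 := hm.comp measurable_snd
  have hE2m : Measurable fun v : ℝ => ENNReal.ofReal (E v ^ 2) := (hm.pow_const 2).ennreal_ofReal
  obtain ⟨f1, hf1⟩ : ∃ f1 : ℝ × ℝ → ℝ, f1 = fun p => E p.1 ^ 2 * gk ε (p.1 - p.2) := ⟨_, rfl⟩
  obtain ⟨f2, hf2⟩ : ∃ f2 : ℝ × ℝ → ℝ, f2 = fun p => E p.2 ^ 2 * gk ε (p.1 - p.2) := ⟨_, rfl⟩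
  obtain ⟨f3, hf3⟩ : ∃ f3 : ℝ × ℝ → ℝ, f3 = fun p => (E p.1 - E p.2) ^ 2 * gk ε (p.1 - p.2) :=
    ⟨_, rfl⟩
  have m1 : Measurable f1 := by rw [hf1]; exact (hm1.pow_const 2).mul hgm
  have m2 : Measurable f2 := by rw [hf2]; exact (hm2.pow_const 2).mul hgm
  have m3 : Measurable f3 := by rw [hf3]; exact ((hm1.sub hm2).pow_const 2).mul hgm
  have n1 : ∀ p, 0 ≤ f1 p := fun p => by
    rw [hf1]; exact mul_nonneg (sq_nonneg _) (gk_nonneg _ _)
  have n2 : ∀ p, 0 ≤ f2 p := fun p => by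
    rw [hf2]; exact mul_nonneg (sq_nonneg _) (gk_nonneg _ _)
  have n3 : ∀ p, 0 ≤ f3 p := fun p => by
    rw [hf3]; exact mul_nonneg (sq_nonneg _) (gk_nonneg _ _)
  have l1 : ∫⁻ p, ENNReal.ofReal (f1 p) ∂((volume : Measure ℝ).prod volume) =
      ENNReal.ofReal (2 * π) * ∫⁻ v, ENNReal.ofReal (E v ^ 2) := by
    rw [lintegral_prod _ m1.ennreal_ofReal.aemeasurable, ← lintegral_const_mul _ hE2m]
    refine lintegral_congr fun v => ?_
    have e : ∀ w, ENNReal.ofReal (f1 (v, w)) =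
        ENNReal.ofReal (E v ^ 2) * ENNReal.ofReal (gk ε (v - w)) := fun w => by
      rw [hf1, ← ENNReal.ofReal_mul (sq_nonneg _)]
    simp_rw [e]
    have hgv : Measurable fun w => ENNReal.ofReal (gk ε (v - w)) :=
      ((gk_cont ε).measurable.comp (measurable_const.sub measurable_id)).ennreal_ofReal
    rw [lintegral_const_mul _ hgv, gk_lint hε, mul_comm]
  have l2 : ∫⁻ p, ENNReal.ofReal (f2 p) ∂((volume : Measure ℝ).prod volume) =
      ENNReal.ofReal (2 * π) * ∫⁻ v, ENNReal.ofReal (E v ^ 2) := by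
    rw [lintegral_prod_symm _ m2.ennreal_ofReal.aemeasurable, ← lintegral_const_mul _ hE2m]
    refine lintegral_congr fun v => ?_
    have e : ∀ w, ENNReal.ofReal (f2 (w, v)) =
        ENNReal.ofReal (E v ^ 2) * ENNReal.ofReal (gk ε (v - w)) := fun w => by
      rw [hf2, ← ENNReal.ofReal_mul (sq_nonneg _)]
      show ENNReal.ofReal (E v ^ 2 * gk ε (w - v)) = _
      rw [← gk_even ε (v - w), neg_sub]
    simp_rw [e]
    have hgv : Measurable fun w => ENNReal.ofReal (gk ε (v - w)) :=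
      ((gk_cont ε).measurable.comp (measurable_const.sub measurable_id)).ennreal_ofReal
    rw [lintegral_const_mul _ hgv, gk_lint hε, mul_comm]
  have l3 : ∫⁻ p, ENNReal.ofReal (f3 p) ∂((volume : Measure ℝ).prod volume) ≤
      ENNReal.ofReal (C * (2 * Real.sqrt (2 * ε) * (2 * π))) := by
    rw [lintegral_prod _ m3.ennreal_ofReal.aemeasurable]
    have e : ∀ v, ∫⁻ w, ENNReal.ofReal (f3 (v, w)) =
        ∫⁻ r, ENNReal.ofReal ((E v - E (v - r)) ^ 2 * gk ε r) := fun v => by
      have h1 := lintegral_sub_left_eq_self (μ := (volume : Measure ℝ))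
        (fun r => ENNReal.ofReal ((E v - E (v - r)) ^ 2 * gk ε r)) v
      rw [← h1]
      refine lintegral_congr fun w => ?_
      rw [hf3]
      show ENNReal.ofReal ((E v - E w) ^ 2 * gk ε (v - w)) = _
      rw [sub_sub_cancel]
    simp_rw [e]
    rw [lintegral_lintegral_swap]
    · calc ∫⁻ r, ∫⁻ v, ENNReal.ofReal ((E v - E (v - r)) ^ 2 * gk ε r) ≤
          ∫⁻ r, ENNReal.ofReal C * ENNReal.ofReal (gk ε r * |r|) := by
            refine lintegral_mono fun r => ?_
            have e2 : ∀ v, ENNReal.ofReal ((E v - E (v - r)) ^ 2 * gk ε r) =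
                ENNReal.ofReal (gk ε r) * ENNReal.ofReal ((E v - E (v - r)) ^ 2) := fun v => by
              rw [← ENNReal.ofReal_mul (gk_nonneg _ _), mul_comm]
            simp_rw [e2]
            rw [lintegral_const_mul' _ _ ENNReal.ofReal_ne_top]
            refine (mul_le_mul_right (hω r) _).trans (le_of_eq ?_)
            rw [← ENNReal.ofReal_mul (gk_nonneg _ _), ← ENNReal.ofReal_mul hC]
            congr 1
            ring
        _ ≤ _ := by
            rw [lintegral_const_mul' _ _ ENNReal.ofReal_ne_top, ENNReal.ofReal_mul hC]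
            exact mul_le_mul_right (gk_mom hε) _
    · refine Measurable.aemeasurable ?_
      refine Measurable.ennreal_ofReal ?_
      refine Measurable.mul (((hm.comp measurable_fst).sub
        (hm.comp (measurable_fst.sub measurable_snd))).pow_const 2) ?_
      exact (gk_cont ε).measurable.comp measurable_snd
  have i1 : Integrable f1 ((volume : Measure ℝ).prod volume) := by
    refine ⟨m1.aestronglyMeasurable, ?_⟩
    rw [hasFiniteIntegral_iff_ofReal (Eventually.of_forall n1), l1]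
    exact ENNReal.mul_lt_top ENNReal.ofReal_lt_top hE2
  have i2 : Integrable f2 ((volume : Measure ℝ).prod volume) := by
    refine ⟨m2.aestronglyMeasurable, ?_⟩
    rw [hasFiniteIntegral_iff_ofReal (Eventually.of_forall n2), l2]
    exact ENNReal.mul_lt_top ENNReal.ofReal_lt_top hE2
  have i3 : Integrable f3 ((volume : Measure ℝ).prod volume) := by
    refine ⟨m3.aestronglyMeasurable, ?_⟩
    rw [hasFiniteIntegral_iff_ofReal (Eventually.of_forall n3)]
    exact lt_of_le_of_lt l3 ENNReal.ofReal_lt_top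
  have hid : ∫ p, E p.1 * E p.2 * gk ε (p.1 - p.2) ∂((volume : Measure ℝ).prod volume) =
      1 / 2 * ((∫ p, f1 p ∂((volume : Measure ℝ).prod volume)) +
        ∫ p, f2 p ∂((volume : Measure ℝ).prod volume)) -
      1 / 2 * ∫ p, f3 p ∂((volume : Measure ℝ).prod volume) := by
    have i12 : Integrable (fun p => 1 / 2 * (f1 p + f2 p)) ((volume : Measure ℝ).prod volume) :=
      (i1.add i2).const_mul _
    have i33 : Integrable (fun p => 1 / 2 * f3 p) ((volume : Measure ℝ).prod volume) :=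
      i3.const_mul _
    rw [← integral_add i1 i2, ← integral_const_mul, ← integral_const_mul,
      ← integral_sub i12 i33]
    refine integral_congr_ae (Eventually.of_forall fun p => ?_)
    show E p.1 * E p.2 * gk ε (p.1 - p.2) = 1 / 2 * (f1 p + f2 p) - 1 / 2 * f3 p
    rw [hf1, hf2, hf3]
    ring
  have r1 : ENNReal.ofReal (∫ p, f1 p ∂((volume : Measure ℝ).prod volume)) =
      ENNReal.ofReal (2 * π) * ∫⁻ v, ENNReal.ofReal (E v ^ 2) := by
    rw [ofReal_integral_eq_lintegral_ofReal i1 (Eventually.of_forall n1), l1]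
  have r2 : ∫ p, f2 p ∂((volume : Measure ℝ).prod volume) =
      ∫ p, f1 p ∂((volume : Measure ℝ).prod volume) := by
    have h1 := integral_eq_lintegral_of_nonneg_ae (Eventually.of_forall n2)
      i2.aestronglyMeasurable
    have h2 := integral_eq_lintegral_of_nonneg_ae (Eventually.of_forall n1)
      i1.aestronglyMeasurable
    rw [h1, h2, l1, l2]
  have r3 : ENNReal.ofReal (∫ p, f3 p ∂((volume : Measure ℝ).prod volume)) ≤
      ENNReal.ofReal (C * (2 * Real.sqrt (2 * ε) * (2 * π))) := by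
    rw [ofReal_integral_eq_lintegral_ofReal i3 (Eventually.of_forall n3)]
    exact l3
  have hg : Integrable (fun t : ℝ => Real.exp (-ε * t ^ 2)) := integrable_exp_neg_mul_sq hε
  have hreal : ENNReal.ofReal (∫ t, Real.exp (-ε * t ^ 2) * ‖ft E t‖ ^ 2) ≤
      ∫⁻ t, ‖ft E t‖ₑ ^ 2 := by
    rw [ofReal_integral_eq_lintegral_ofReal]
    · refine lintegral_mono fun t => ?_
      rw [← ofReal_norm, ← ENNReal.ofReal_pow (norm_nonneg _)]
      refine ENNReal.ofReal_le_ofReal ?_
      have h1 : Real.exp (-ε * t ^ 2) ≤ 1 := Real.exp_le_one_iff.2 (by nlinarith [sq_nonneg t])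
      nlinarith [sq_nonneg ‖ft E t‖]
    · refine hg.mul_bdd (c := (∫ v, |E v|) ^ 2)
        (((ft_cont hE).norm.pow 2).aestronglyMeasurable) (Eventually.of_forall fun t => ?_)
      rw [norm_pow, norm_norm]
      exact pow_le_pow_left₀ (norm_nonneg _) (ft_bound t) 2
    · exact Eventually.of_forall fun t => by positivity
  rw [eps_id hE hm hε, hid, r2] at hreal
  obtain ⟨a, ha⟩ : ∃ a, a = ∫ p, f1 p ∂((volume : Measure ℝ).prod volume) := ⟨_, rfl⟩
  obtain ⟨c, hc⟩ : ∃ c, c = ∫ p, f3 p ∂((volume : Measure ℝ).prod volume) := ⟨_, rfl⟩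
  have hc0 : 0 ≤ c := by rw [hc]; exact integral_nonneg n3
  rw [← ha, ← hc] at hreal
  rw [← hc] at r3
  rw [← r1, ← ha]
  calc ENNReal.ofReal a ≤ ENNReal.ofReal ((1 / 2 * (a + a) - 1 / 2 * c) + c) := by
        refine ENNReal.ofReal_le_ofReal ?_
        linarith
    _ ≤ ENNReal.ofReal (1 / 2 * (a + a) - 1 / 2 * c) + ENNReal.ofReal c :=
        ENNReal.ofReal_add_le
    _ ≤ _ := add_le_add hreal r3

/-- **the reverse of the Bessel inequality** -/
theorem rev_bessel {E : ℝ → ℝ} (hE : Integrable E) (hm : Measurable E)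
    (hE2 : ∫⁻ v, ENNReal.ofReal (E v ^ 2) < ⊤) {C : ℝ} (hC : 0 ≤ C)
    (hω : ∀ r : ℝ, ∫⁻ v, ENNReal.ofReal ((E v - E (v - r)) ^ 2) ≤ ENNReal.ofReal (C * |r|)) :
    ENNReal.ofReal (2 * π) * ∫⁻ v, ENNReal.ofReal (E v ^ 2) ≤ ∫⁻ t, ‖ft E t‖ₑ ^ 2 := by
  have h1 : Tendsto (fun ε : ℝ => (∫⁻ t, ‖ft E t‖ₑ ^ 2) +
      ENNReal.ofReal (C * (2 * Real.sqrt (2 * ε) * (2 * π)))) (𝓝[>] 0)
      (𝓝 ((∫⁻ t, ‖ft E t‖ₑ ^ 2) + ENNReal.ofReal (C * (2 * Real.sqrt (2 * 0) * (2 * π))))) := by
    refine Tendsto.add tendsto_const_nhds (ENNReal.tendsto_ofReal ?_)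
    have hc : Continuous fun ε : ℝ => C * (2 * Real.sqrt (2 * ε) * (2 * π)) := by fun_prop
    exact (hc.tendsto 0).mono_left nhdsWithin_le_nhds
  rw [mul_zero, Real.sqrt_zero, mul_zero, zero_mul, mul_zero, ENNReal.ofReal_zero, add_zero] at h1
  refine ge_of_tendsto h1 ?_
  filter_upwards [self_mem_nhdsWithin] with ε hε
  exact rev_eps hE hm hE2 hC hω hε

/-! ### the windows of a measure -/

section measures

variable (m : Measure ℝ) [IsFiniteMeasure m] {δ : ℝ}

lemma bm_nonneg (δ v : ℝ) : 0 ≤ bm m δ v := ENNReal.toReal_nonneg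

lemma bm_le (δ v : ℝ) : bm m δ v ≤ (m Set.univ).toReal :=
  ENNReal.toReal_mono (measure_ne_top _ _) (measure_mono (Set.subset_univ _))

lemma strip_back {r : ℝ} (hr : 0 < r) (c : ℝ) : ∫⁻ v, m (Set.Ioc (v + c) (v + c + r)) =
    ENNReal.ofReal r * m Set.univ := by
  have h1 := lintegral_add_right_eq_self (μ := (volume : Measure ℝ))
    (fun v => m (Set.Ioc v (v + r))) c
  rw [h1]
  exact strip_lint m hr

lemma bm_diff {r : ℝ} (hr : 0 < r) (hδ : 0 < δ) (v : ℝ) :
    |bm m δ v - bm m δ (v - r)| ≤ (m (Set.Ioc (v + (-r)) (v + (-r) + r))).toReal +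
      (m (Set.Ioc (v + (δ - r)) (v + (δ - r) + r))).toReal := by
  unfold bm
  have f : ∀ s : Set ℝ, m s ≠ ⊤ := fun s => measure_ne_top _ _
  have h1 : m (Set.Ioc v (v + δ)) ≤ m (Set.Ioc (v - r) (v - r + δ)) +
      m (Set.Ioc (v + (δ - r)) (v + (δ - r) + r)) := by
    refine (measure_mono ?_).trans (measure_union_le _ _)
    intro x hx
    rcases le_or_gt x (v - r + δ) with h | h
    · exact Or.inl ⟨by linarith [hx.1], h⟩
    · exact Or.inr ⟨by linarith, by linarith [hx.2]⟩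
  have h2 : m (Set.Ioc (v - r) (v - r + δ)) ≤ m (Set.Ioc v (v + δ)) +
      m (Set.Ioc (v + (-r)) (v + (-r) + r)) := by
    refine (measure_mono ?_).trans (measure_union_le _ _)
    intro x hx
    rcases le_or_gt x v with h | h
    · exact Or.inr ⟨by linarith [hx.1], by linarith⟩
    · exact Or.inl ⟨h, by linarith [hx.2]⟩
  have k1 := ENNReal.toReal_mono (ENNReal.add_ne_top.2 ⟨f _, f _⟩) h1
  have k2 := ENNReal.toReal_mono (ENNReal.add_ne_top.2 ⟨f _, f _⟩) h2
  rw [ENNReal.toReal_add (f _) (f _)] at k1 k2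
  have p1 : 0 ≤ (m (Set.Ioc (v + (-r)) (v + (-r) + r))).toReal := ENNReal.toReal_nonneg
  have p2 : 0 ≤ (m (Set.Ioc (v + (δ - r)) (v + (δ - r) + r))).toReal := ENNReal.toReal_nonneg
  rw [abs_le]
  constructor <;> linarith

lemma bm_shift {r : ℝ} (hr : 0 < r) (hδ : 0 < δ) :
    ∫⁻ v, ENNReal.ofReal |bm m δ v - bm m δ (v - r)| ≤
      ENNReal.ofReal (2 * (m Set.univ).toReal * r) := by
  have f : ∀ s : Set ℝ, m s ≠ ⊤ := fun s => measure_ne_top _ _
  have hme : ∀ c : ℝ, Measurable fun v => m (Set.Ioc (v + c) (v + c + r)) := fun c => by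
    have h := measurable_measure_prodMk_left (ν := m) (strip_meas r)
    exact h.comp (measurable_id.add_const c)
  calc ∫⁻ v, ENNReal.ofReal |bm m δ v - bm m δ (v - r)| ≤
      ∫⁻ v, (m (Set.Ioc (v + (-r)) (v + (-r) + r)) +
        m (Set.Ioc (v + (δ - r)) (v + (δ - r) + r))) := by
        refine lintegral_mono fun v => ?_
        refine (ENNReal.ofReal_le_ofReal (bm_diff m hr hδ v)).trans (le_of_eq ?_)
        rw [ENNReal.ofReal_add ENNReal.toReal_nonneg ENNReal.toReal_nonneg,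
          ENNReal.ofReal_toReal (f _), ENNReal.ofReal_toReal (f _)]
    _ = ENNReal.ofReal (2 * (m Set.univ).toReal * r) := by
        rw [lintegral_add_left (hme _), strip_back m hr, strip_back m hr, ← two_mul,
          ← ENNReal.ofReal_toReal (f Set.univ), ← ENNReal.ofReal_mul hr.le,
          ← ENNReal.ofReal_ofNat 2, ← ENNReal.ofReal_mul (by norm_num), ENNReal.toReal_ofReal
            ENNReal.toReal_nonneg]
        congr 1
        ring

end measures

lemma E_abs (m1 m2 : Measure ℝ) [IsFiniteMeasure m1] [IsFiniteMeasure m2] (δ v : ℝ) :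
    |bm m1 δ v - bm m2 δ v| ≤ (m1 Set.univ).toReal + (m2 Set.univ).toReal := by
  have h1 := bm_nonneg m1 δ v
  have h2 := bm_nonneg m2 δ v
  have h3 := bm_le m1 δ v
  have h4 := bm_le m2 δ v
  rw [abs_le]
  constructor <;> linarith

/-- the reverse inequality for the windows -/
theorem rev_delta (m1 m2 : Measure ℝ) [IsFiniteMeasure m1] [IsFiniteMeasure m2] {δ : ℝ}
    (hδ : 0 < δ) : ENNReal.ofReal (2 * π) * (∫⁻ v, ENNReal.ofReal ((bm m1 δ v - bm m2 δ v) ^ 2)) ≤
      ∫⁻ t, wd δ t * ‖charFun m1 t - charFun m2 t‖ₑ ^ 2 := by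
  obtain ⟨M, hM⟩ : ∃ M, M = (m1 Set.univ).toReal + (m2 Set.univ).toReal := ⟨_, rfl⟩
  have hM1 : 0 ≤ (m1 Set.univ).toReal := ENNReal.toReal_nonneg
  have hM2 : 0 ≤ (m2 Set.univ).toReal := ENNReal.toReal_nonneg
  have hM0 : 0 ≤ M := by rw [hM]; positivity
  have hE := (bm_int m1 hδ).sub (bm_int m2 hδ)
  have hEm := (bm_meas m1 δ).sub (bm_meas m2 δ)
  have hab : ∀ v, |(bm m1 δ - bm m2 δ) v| ≤ M := fun v => by
    rw [hM]
    exact E_abs m1 m2 δ v
  have hE2 : ∫⁻ v, ENNReal.ofReal ((bm m1 δ - bm m2 δ) v ^ 2) < ⊤ := by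
    have h1 : ∫⁻ v, ENNReal.ofReal ((bm m1 δ - bm m2 δ) v ^ 2) ≤
        ∫⁻ v, ENNReal.ofReal M * ‖(bm m1 δ - bm m2 δ) v‖ₑ := by
      refine lintegral_mono fun v => ?_
      rw [← ofReal_norm, ← ENNReal.ofReal_mul hM0, Real.norm_eq_abs]
      refine ENNReal.ofReal_le_ofReal ?_
      rw [← sq_abs, sq]
      exact mul_le_mul_of_nonneg_right (hab v) (abs_nonneg _)
    refine lt_of_le_of_lt h1 ?_
    rw [lintegral_const_mul' _ _ ENNReal.ofReal_ne_top]
    exact ENNReal.mul_lt_top ENNReal.ofReal_lt_top hE.2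
  -- the modulus of continuity
  have hpos : ∀ r : ℝ, 0 < r → ∫⁻ v, ENNReal.ofReal (((bm m1 δ - bm m2 δ) v -
      (bm m1 δ - bm m2 δ) (v - r)) ^ 2) ≤ ENNReal.ofReal (4 * M ^ 2 * r) := by
    intro r hr
    have hmA : ∀ (m : Measure ℝ) [IsFiniteMeasure m], Measurable fun v =>
        ENNReal.ofReal |bm m δ v - bm m δ (v - r)| := fun m _ => by
      refine Measurable.ennreal_ofReal ?_
      exact ((bm_meas m δ).sub ((bm_meas m δ).comp (measurable_id.sub_const r))).abs
    calc ∫⁻ v, ENNReal.ofReal (((bm m1 δ - bm m2 δ) v - (bm m1 δ - bm m2 δ) (v - r)) ^ 2) ≤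
        ∫⁻ v, ENNReal.ofReal (2 * M) * (ENNReal.ofReal |bm m1 δ v - bm m1 δ (v - r)| +
          ENNReal.ofReal |bm m2 δ v - bm m2 δ (v - r)|) := by
          refine lintegral_mono fun v => ?_
          rw [← ENNReal.ofReal_add (abs_nonneg _) (abs_nonneg _),
            ← ENNReal.ofReal_mul (by positivity)]
          refine ENNReal.ofReal_le_ofReal ?_
          obtain ⟨x, hx⟩ : ∃ x, x = (bm m1 δ - bm m2 δ) v := ⟨_, rfl⟩
          obtain ⟨y, hy⟩ : ∃ y, y = (bm m1 δ - bm m2 δ) (v - r) := ⟨_, rfl⟩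
          have a1 := hab v
          have a2 := hab (v - r)
          rw [← hx, ← hy]
          rw [← hx] at a1
          rw [← hy] at a2
          have a3 : |x - y| ≤ 2 * M := by
            refine (abs_sub _ _).trans ?_
            linarith
          have a4 : |x - y| ≤ |bm m1 δ v - bm m1 δ (v - r)| + |bm m2 δ v - bm m2 δ (v - r)| := by
            have e : x - y = (bm m1 δ v - bm m1 δ (v - r)) - (bm m2 δ v - bm m2 δ (v - r)) := by
              rw [hx, hy, Pi.sub_apply, Pi.sub_apply]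
              ring
            rw [e]
            exact abs_sub _ _
          calc (x - y) ^ 2 = |x - y| * |x - y| := by rw [← sq, sq_abs]
            _ ≤ _ := mul_le_mul a3 a4 (abs_nonneg _) (by positivity)
      _ = ENNReal.ofReal (2 * M) * ((∫⁻ v, ENNReal.ofReal |bm m1 δ v - bm m1 δ (v - r)|) +
          ∫⁻ v, ENNReal.ofReal |bm m2 δ v - bm m2 δ (v - r)|) := by
          rw [lintegral_const_mul' _ _ ENNReal.ofReal_ne_top, lintegral_add_left (hmA m1)]
      _ ≤ ENNReal.ofReal (2 * M) * (ENNReal.ofReal (2 * (m1 Set.univ).toReal * r) +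
          ENNReal.ofReal (2 * (m2 Set.univ).toReal * r)) :=
          mul_le_mul_right (add_le_add (bm_shift m1 hr hδ) (bm_shift m2 hr hδ)) _
      _ = _ := by
          rw [← ENNReal.ofReal_add (by positivity) (by positivity),
            ← ENNReal.ofReal_mul (by positivity)]
          congr 1
          rw [hM]
          ring
  have hω : ∀ r : ℝ, ∫⁻ v, ENNReal.ofReal (((bm m1 δ - bm m2 δ) v -
      (bm m1 δ - bm m2 δ) (v - r)) ^ 2) ≤ ENNReal.ofReal (4 * M ^ 2 * |r|) := by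
    intro r
    rcases lt_trichotomy r 0 with h | h | h
    · have h1 := hpos (-r) (by linarith)
      rw [abs_of_neg h]
      refine le_trans (le_of_eq ?_) h1
      have h2 := lintegral_sub_right_eq_self (μ := (volume : Measure ℝ))
        (fun v => ENNReal.ofReal (((bm m1 δ - bm m2 δ) v - (bm m1 δ - bm m2 δ) (v - (-r))) ^ 2)) r
      rw [← h2]
      refine lintegral_congr fun v => ?_
      congr 1
      rw [show v - r - -r = v by ring]
      ring
    · rw [h]
      simp
    · rw [abs_of_pos h]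
      exact hpos r h
  have h1 := rev_bessel hE hEm hE2 (C := 4 * M ^ 2) (by positivity) hω
  refine h1.trans (le_of_eq ?_)
  refine lintegral_congr_ae ?_
  have hn0 : ∀ᵐ x : ℝ, x ≠ 0 := by
    rw [ae_iff]
    simp
  filter_upwards [hn0] with t ht
  have h2 : ft (bm m1 δ - bm m2 δ) t = kap δ t * (charFun m1 t - charFun m2 t) := by
    have h3 : ft (bm m1 δ - bm m2 δ) t = ft (bm m1 δ) t - ft (bm m2 δ) t := by
      unfold ft
      rw [← integral_sub (ft_int (bm_int m1 hδ) t) (ft_int (bm_int m2 hδ) t)]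
      refine integral_congr_ae (Eventually.of_forall fun v => ?_)
      show ((bm m1 δ - bm m2 δ) v : ℂ) * _ = _ - _
      rw [Pi.sub_apply]
      push_cast
      ring
    rw [h3, ft_bm m1 hδ, ft_bm m2 hδ]
    ring
  rw [h2, enorm_mul, mul_pow]
  congr 1
  unfold wd
  rw [← kap_sq hδ ht, ENNReal.ofReal_pow (norm_nonneg _), ofReal_norm]

end Pool.Agent.H7.AD
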