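import Pool.Agent.H7.AD.Blk
import Pool.Agent.H7.LH.Win
import Pool.Agent.H7.LH.Err
import Pool.Agent.H7.LH.Rsm

/-! The ranges of the transform. -/

open MeasureTheory Filter Topology Real
open scoped ENNReal

namespace Pool.Agent.H7.AD

open H370 TH803TW Pool.Agent.Y744 Pool.Agent.H7.PS Pool.Agent.H7.LH

variable {κ : ℝ} {K : ℝ → ℝ}

/-- the mean of the transform over the scales -/
noncomputable def ZZ (K : ℝ → ℝ) (T t : ℝ) : ℝ≥0∞ :=
  ∫⁻ u in Set.Ioi (0 : ℝ), kT K T u * PH (u, t)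

lemma ZZ_meas (hK : TK κ K) (T : ℝ) : Measurable (ZZ K T) := by
  have hk := kT_measw hK T
  have h : Measurable fun p : ℝ × ℝ => kT K T p.2 * PH (p.2, p.1) :=
    (hk.comp measurable_snd).mul (PH_meas.comp (measurable_snd.prodMk measurable_fst))
  exact h.lintegral_prod_right'

lemma ZZ_win (RH : RiemannHypothesis) (hK : TK κ K) (hκ : 0 ≤ κ) (hpos : ∀ x, 0 ≤ K x)
    (h0 : ∀ x, 0 < x → x < 1 / 2 → K x = 0) {η m M : ℝ} (hη : 0 < η) (hm : 0 < m)
    (hM : 0 ≤ M) :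
    ∃ C V0 : ℝ, 0 < C ∧ 10 ≤ V0 ∧ ∀ V : ℝ, V0 ≤ V → ∀ P Q : ℝ, V ≤ P → Q ≤ 2 * V →
      ∀ p q : ℝ, P + Real.log V ≤ p → p ≤ q → q ≤ Q - Real.log V →
      ∀ T : ℝ, 1 < T → Real.log V / m ≤ Real.log T → Real.log T ≤ M * Real.log V →
      ∫⁻ t in Set.Ioc p q, ZZ K T t ≤
      ENNReal.ofReal (Real.log T * ((1 + η) * (π * Real.sqrt π) *
        QS (Zb P Q) (Zb P Q) mz (fun s => s.im) (ct K) (Real.log T) + C * V)) := by
  obtain ⟨C, V0, hC, hV0, h⟩ := up_win RH hK hκ hpos h0 hη hm hM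
  refine ⟨C, V0, hC, hV0, fun V hV P Q hP hQ p q hp hpq hq T hT hL1 hL2 => ?_⟩
  have hL : 0 < Real.log T := Real.log_pos hT
  have h1 := h V hV P Q hP hQ p q hp hpq hq (Real.log T) hL1 hL2
  rw [block_swapw hK hT] at h1
  have h2 := mul_le_mul_right h1 (ENNReal.ofReal (Real.log T))
  rw [← mul_assoc, ← ENNReal.ofReal_mul hL.le, mul_inv_cancel₀ hL.ne', ENNReal.ofReal_one,
    one_mul, ← ENNReal.ofReal_mul hL.le] at h2
  exact h2

/-- the bound for one block -/
lemma blk_bound (RH : RiemannHypothesis) (hK : TK κ K) (hκ : 0 ≤ κ) (hpos : ∀ x, 0 ≤ K x)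
    (h0 : ∀ x, 0 < x → x < 1 / 2 → K x = 0) {B : ℝ} (hB : 1 ≤ B) :
    ∃ C : ℝ, 0 < C ∧ ∀ᶠ T : ℝ in atTop, ∀ V : ℝ, T ^ (1 / 9 : ℝ) ≤ V → V ≤ T ^ B →
      ∫⁻ t in Set.Ioc V (3 / 2 * V), ZZ K T t ≤ ENNReal.ofReal (C * Real.log T ^ 2 * V) := by
  obtain ⟨C1, V1, hC1, hV1, hw⟩ := ZZ_win RH hK hκ hpos h0 (η := 1) (m := B) (M := 10) one_pos
    (by linarith) (by norm_num)
  obtain ⟨C2, V2, hC2, hV2, hn⟩ := QS_nearm RH hK (m := B) hB
  have hpi := Real.pi_pos
  refine ⟨2 * (π * Real.sqrt π) * C2 * B + C1, by positivity, ?_⟩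
  have hlo := Real.isLittleO_log_id_atTop.bound (c := 1 / 10) (by norm_num)
  obtain ⟨V3, hV3⟩ := (hlo.and (eventually_ge_atTop 1)).exists_forall_of_atTop
  have htend : Tendsto (fun T : ℝ => T ^ (1 / 9 : ℝ)) atTop atTop :=
    tendsto_rpow_atTop (by norm_num)
  filter_upwards [htend.eventually_ge_atTop (max (max V1 V2) V3 * 2),
    Real.tendsto_log_atTop.eventually_ge_atTop 10, eventually_gt_atTop 1] with T hTV hL10 hT V hVa hVb
  have hTp : 0 < T := by linarith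
  have hL : 0 < Real.log T := by linarith
  have hmx1 : V1 ≤ max (max V1 V2) V3 := (le_max_left _ _).trans (le_max_left _ _)
  have hmx2 : V2 ≤ max (max V1 V2) V3 := (le_max_right _ _).trans (le_max_left _ _)
  have hmx3 : V3 ≤ max (max V1 V2) V3 := le_max_right _ _
  obtain ⟨W, hW⟩ : ∃ W, W = 9 / 10 * V := ⟨_, rfl⟩
  have hVbig : max (max V1 V2) V3 * 2 ≤ V := hTV.trans hVa
  have hVp : 0 < V := by linarith
  have hW1 : V1 ≤ W := by rw [hW]; linarith
  have hW2 : V2 ≤ W := by rw [hW]; linarith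
  have hVV3 : V3 ≤ V := by linarith
  have hW10 : 10 ≤ W := hV1.trans hW1
  obtain ⟨e1, e2⟩ := hV3 V hVV3
  have hlV : 0 ≤ Real.log V := Real.log_nonneg e2
  rw [Real.norm_of_nonneg hlV, id, Real.norm_of_nonneg hVp.le] at e1
  have hlWV : Real.log W ≤ Real.log V := Real.log_le_log (by linarith) (by rw [hW]; linarith)
  have hlW1 : 1 ≤ Real.log W := by
    rw [Real.le_log_iff_exp_le (by linarith)]
    linarith [Real.exp_one_lt_d9]
  have hlVB : Real.log V ≤ B * Real.log T := by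
    have := Real.log_le_log hVp hVb
    rwa [Real.log_rpow hTp] at this
  have c1 : Real.log W / B ≤ Real.log T := by
    rw [div_le_iff₀ (by linarith)]
    linarith
  have c2 : Real.log T ≤ 10 * Real.log W := by
    have h1 : Real.log (T ^ (1 / 9 : ℝ)) ≤ Real.log V := Real.log_le_log (by positivity) hVa
    rw [Real.log_rpow hTp] at h1
    have h2 : Real.log W = Real.log (9 / 10) + Real.log V := by
      rw [hW, Real.log_mul (by norm_num) hVp.ne']
    have h3 : -(1 / 9) ≤ Real.log (9 / 10) := by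
      have h4 := Real.one_sub_inv_le_log_of_pos (show (0 : ℝ) < 9 / 10 by norm_num)
      norm_num at h4 ⊢
      linarith
    linarith
  have h1 := hw W hW1 W (2 * W) le_rfl le_rfl V (3 / 2 * V) (by rw [hW] at *; linarith)
    (by linarith) (by rw [hW] at *; linarith) T hT c1 c2
  have h2 := hn W hW2 W (2 * W) le_rfl le_rfl (Real.log T) c1
  refine h1.trans (ENNReal.ofReal_le_ofReal ?_)
  have h3 : C2 * (W * Real.log W) ≤ C2 * (V * (B * Real.log T)) := by
    refine mul_le_mul_of_nonneg_left ?_ hC2.le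
    refine mul_le_mul (by rw [hW]; linarith) (by linarith) (by linarith) hVp.le
  have h4 : (1 + 1) * (π * Real.sqrt π) * QS (Zb W (2 * W)) (Zb W (2 * W)) mz (fun s => s.im)
      (ct K) (Real.log T) ≤ 2 * (π * Real.sqrt π) * (C2 * (V * (B * Real.log T))) := by
    have := mul_le_mul_of_nonneg_left (h2.trans h3)
      (show 0 ≤ 2 * (π * Real.sqrt π) by positivity)
    refine le_trans (le_of_eq ?_) this
    norm_num
  have h5 : C1 * W ≤ C1 * V * Real.log T := by
    have : C1 * W ≤ C1 * V := mul_le_mul_of_nonneg_left (by rw [hW]; linarith) hC1.le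
    have h6 : C1 * V * 1 ≤ C1 * V * Real.log T :=
      mul_le_mul_of_nonneg_left (by linarith) (by positivity)
    linarith
  calc Real.log T * ((1 + 1) * (π * Real.sqrt π) * QS (Zb W (2 * W)) (Zb W (2 * W)) mz
        (fun s => s.im) (ct K) (Real.log T) + C1 * W) ≤
      Real.log T * (2 * (π * Real.sqrt π) * (C2 * (V * (B * Real.log T))) +
        C1 * V * Real.log T) := mul_le_mul_of_nonneg_left (add_le_add h4 h5) hL.le
    _ = _ := by ring

/-! ### the low range -/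

lemma Om0_le (k : ℝ → ℝ≥0∞) (v : ℝ) : Om0 k v ≤ Om1 k v := by
  unfold Om0 Om1
  refine lintegral_mono fun u => mul_le_mul_right (ENNReal.ofReal_le_ofReal ?_) _
  have h1 : Real.exp (-(u - v) ^ 2) ≤ Real.exp (-(u - v) ^ 2 / 2) :=
    Real.exp_le_exp.2 (by nlinarith [sq_nonneg (u - v)])
  have := Real.exp_pos (-(u - v) ^ 2 / 2)
  linarith

lemma low_rng (RH : RiemannHypothesis) {b : ℝ} (hK : TK κ K) (hκ : κ ≤ b)
    (hb : 1 ≤ b) (hK1 : ∀ x, K x ≤ 1) : ∃ C : ℝ, 0 < C ∧ ∀ T : ℝ, 1 < T →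
    ∫⁻ t in Set.Ioc 0 (T ^ (1 / 8 : ℝ)), ZZ K T t ≤
      ENNReal.ofReal (C * (Real.log T * T ^ (3 / 4 : ℝ))) := by
  obtain ⟨C, hC, herr⟩ := err_int RH hK hκ hb hK1
  have hpi := Real.pi_pos
  refine ⟨10 * π * C, by positivity, fun T hT => ?_⟩
  have hTp : 0 < T := by linarith
  have hL : 0 < Real.log T := Real.log_pos hT
  obtain ⟨δ, hδ⟩ : ∃ δ, δ = T ^ (-(1 / 8) : ℝ) := ⟨_, rfl⟩
  have hδ0 : 0 < δ := by rw [hδ]; positivity
  have hδ1 : δ ≤ 1 := by
    rw [hδ]
    exact Real.rpow_le_one_of_one_le_of_nonpos hT.le (by norm_num)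
  obtain ⟨X, hX⟩ : ∃ X, X = C * (Real.log T * Real.sqrt T) := ⟨_, rfl⟩
  have hX0 : 0 ≤ X := by rw [hX]; positivity
  have hk := kT_measw hK T
  have h1 := ker_one hδ0 one_pos hk
  have h2 : ∫⁻ v, Om0 (kT K T) v * qd (v, δ) ≤ ENNReal.ofReal X := by
    refine (lintegral_mono fun v => mul_le_mul_left (Om0_le _ _) _).trans ?_
    rw [hX]
    exact herr T hT δ hδ0 hδ1
  have h3 : ∫⁻ s in Set.Ioc 0 δ, ∫⁻ w, Om1 (kT K T) w * qd (w, s) ≤ ENNReal.ofReal X := by
    calc ∫⁻ s in Set.Ioc 0 δ, ∫⁻ w, Om1 (kT K T) w * qd (w, s) ≤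
        ∫⁻ s in Set.Ioc 0 δ, ENNReal.ofReal X := by
          refine setLIntegral_mono' measurableSet_Ioc fun s hs => ?_
          rw [hX]
          exact herr T hT s hs.1 (hs.2.trans hδ1)
      _ = ENNReal.ofReal X * ENNReal.ofReal δ := by
          rw [setLIntegral_const, Real.volume_Ioc, sub_zero]
      _ ≤ ENNReal.ofReal X * 1 := mul_le_mul_right (ENNReal.ofReal_le_one.2 hδ1) _
      _ = _ := mul_one _
  have h4 : ∫⁻ t in Set.Ioi (0 : ℝ), wd δ t * ZZ K T t ≤ ENNReal.ofReal (4 * π * X) := by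
    refine h1.trans ?_
    have e2 : ENNReal.ofReal (1 + 1) = 2 := by
      rw [show (1 : ℝ) + 1 = 2 by norm_num]
      exact ENNReal.ofReal_ofNat 2
    have e3 : ENNReal.ofReal (1 + 1 / 1) = 2 := by
      rw [show (1 : ℝ) + 1 / 1 = 2 by norm_num]
      exact ENNReal.ofReal_ofNat 2
    rw [e2, e3]
    have h5 : ENNReal.ofReal δ * ∫⁻ s in Set.Ioc 0 δ, ∫⁻ w, Om1 (kT K T) w * qd (w, s) ≤
        1 * ENNReal.ofReal X := mul_le_mul' (ENNReal.ofReal_le_one.2 hδ1) h3
    rw [one_mul] at h5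
    calc ENNReal.ofReal π * (2 * (∫⁻ v, Om0 (kT K T) v * qd (v, δ)) +
        2 * (ENNReal.ofReal δ * ∫⁻ s in Set.Ioc 0 δ, ∫⁻ w, Om1 (kT K T) w * qd (w, s))) ≤
        ENNReal.ofReal π * (2 * ENNReal.ofReal X + 2 * ENNReal.ofReal X) :=
          mul_le_mul_right (add_le_add (mul_le_mul_right h2 _) (mul_le_mul_right h5 _)) _
      _ = ENNReal.ofReal (4 * π * X) := by
          rw [← ENNReal.ofReal_ofNat 2, ← ENNReal.ofReal_mul (by norm_num),
            ← ENNReal.ofReal_add (by positivity) (by positivity),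
            ← ENNReal.ofReal_mul (by positivity)]
          congr 1
          ring
  have h6 : ENNReal.ofReal (δ ^ 2 * (2 / 5)) * (∫⁻ t in Set.Ioc 0 (T ^ (1 / 8 : ℝ)), ZZ K T t) ≤
      ENNReal.ofReal (4 * π * X) := by
    refine le_trans ?_ h4
    rw [← lintegral_const_mul' _ _ ENNReal.ofReal_ne_top, ← lintegral_indicator measurableSet_Ioc,
      ← lintegral_indicator measurableSet_Ioi]
    refine lintegral_mono fun t => ?_
    by_cases ht : t ∈ Set.Ioc 0 (T ^ (1 / 8 : ℝ))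
    · rw [Set.indicator_of_mem ht, Set.indicator_of_mem (show t ∈ Set.Ioi (0 : ℝ) from ht.1)]
      refine mul_le_mul_left ?_ _
      unfold wd
      rw [fej_scale hδ0 ht.1]
      refine ENNReal.ofReal_le_ofReal (mul_le_mul_of_nonneg_left ?_ (by positivity))
      refine fej_low (mul_pos hδ0 ht.1) ?_
      calc δ * t ≤ δ * T ^ (1 / 8 : ℝ) := mul_le_mul_of_nonneg_left ht.2 hδ0.le
        _ = 1 := by
            rw [hδ, ← Real.rpow_add hTp]
            norm_num
    · rw [Set.indicator_of_notMem ht]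
      exact zero_le
  have h7 : ENNReal.ofReal (5 / 2 * T ^ (1 / 4 : ℝ)) * (ENNReal.ofReal (δ ^ 2 * (2 / 5)) *
      (∫⁻ t in Set.Ioc 0 (T ^ (1 / 8 : ℝ)), ZZ K T t)) ≤
      ENNReal.ofReal (5 / 2 * T ^ (1 / 4 : ℝ)) * ENNReal.ofReal (4 * π * X) :=
    mul_le_mul_right h6 _
  rw [← mul_assoc, ← ENNReal.ofReal_mul (by positivity), ← ENNReal.ofReal_mul (by positivity)] at h7
  have e8 : 5 / 2 * T ^ (1 / 4 : ℝ) * (δ ^ 2 * (2 / 5)) = 1 := by
    have : T ^ (1 / 4 : ℝ) * δ ^ 2 = 1 := by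
      rw [hδ, ← Real.rpow_natCast, ← Real.rpow_mul hTp.le, ← Real.rpow_add hTp]
      norm_num
    linarith
  rw [e8, ENNReal.ofReal_one, one_mul] at h7
  refine h7.trans (le_of_eq ?_)
  congr 1
  have e9 : T ^ (1 / 4 : ℝ) * Real.sqrt T = T ^ (3 / 4 : ℝ) := by
    rw [Real.sqrt_eq_rpow, ← Real.rpow_add hTp]
    norm_num
  rw [hX, ← e9]
  ring

/-! ### the far range -/

lemma mass_bd : ∃ C : ℝ, 0 < C ∧ ∀ u t : ℝ, 0 ≤ u → ‖ph u t‖ ≤ C * Real.exp (3 * u) := by
  have hpi := Real.pi_gt_three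
  have hsum : Summable fun n : ℕ => 1 / (n : ℝ) ^ 2 := Real.summable_one_div_nat_pow.2 (by norm_num)
  obtain ⟨S, hS⟩ : ∃ S, S = ∑' n : ℕ, 1 / (n : ℝ) ^ 2 := ⟨_, rfl⟩
  have hS0 : 0 ≤ S := by rw [hS]; exact tsum_nonneg fun n => by positivity
  refine ⟨Real.exp (9 / 2) * S + Real.sqrt (2 * π) * Real.exp 1, by positivity,
    fun u t hu => ?_⟩
  have h1 : ‖charFun (mu rho1 u) t‖ ≤ Real.exp (9 / 2) * S * Real.exp (3 * u) := by
    refine (norm_charFun_le _).trans ?_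
    unfold Measure.real
    refine ENNReal.toReal_le_of_le_ofReal (by positivity) ?_
    unfold mu
    rw [withDensity_apply _ MeasurableSet.univ, Measure.restrict_univ,
      lint_rho1 (gf_cont u).measurable.ennreal_ofReal]
    have e1 : Real.exp (9 / 2) * S * Real.exp (3 * u) =
        ∑' n : ℕ, Real.exp (9 / 2) * Real.exp (3 * u) * (1 / (n : ℝ) ^ 2) := by
      rw [tsum_mul_left, ← hS]
      ring
    rw [e1, ENNReal.ofReal_tsum_of_nonneg (fun n => by positivity) (hsum.mul_left _)]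
    refine ENNReal.tsum_le_tsum fun n => ?_
    rw [← ENNReal.ofReal_mul ArithmeticFunction.vonMangoldt_nonneg]
    refine ENNReal.ofReal_le_ofReal ?_
    rcases Nat.eq_zero_or_pos n with rfl | hn
    · simp
    have hn0 : (0 : ℝ) < n := by exact_mod_cast hn
    have hn1 : (1 : ℝ) ≤ n := by exact_mod_cast hn
    have hw0 : 0 ≤ Real.log n := Real.log_nonneg hn1
    have h2 : ArithmeticFunction.vonMangoldt n ≤ Real.exp (Real.log n) := by
      refine ArithmeticFunction.vonMangoldt_le_log.trans ?_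
      have := Real.add_one_le_exp (Real.log n)
      linarith
    have h3 : gf u (Real.log n) ≤ Real.exp (9 / 2 + 3 * u - 7 / 2 * Real.log n) := by
      unfold gf
      rw [← Real.exp_add]
      refine Real.exp_le_exp.2 ?_
      nlinarith [sq_nonneg (u - Real.log n + 3)]
    calc ArithmeticFunction.vonMangoldt n * gf u (Real.log n) ≤
        Real.exp (Real.log n) * Real.exp (9 / 2 + 3 * u - 7 / 2 * Real.log n) :=
          mul_le_mul h2 h3 (gf_pos _ _).le (Real.exp_pos _).le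
      _ ≤ Real.exp (9 / 2) * Real.exp (3 * u) * Real.exp (-2 * Real.log n) := by
          rw [← Real.exp_add, ← Real.exp_add, ← Real.exp_add]
          refine Real.exp_le_exp.2 ?_
          linarith
      _ = _ := by
          congr 1
          rw [show -2 * Real.log n = -(2 * Real.log n) by ring, Real.exp_neg,
            show (2 : ℝ) * Real.log n = ((2 : ℕ) : ℝ) * Real.log n by norm_num, Real.exp_nat_mul,
            Real.exp_log hn0, one_div]
  have h2 : ‖charFun (mu rho2 u) t‖ ≤ Real.sqrt (2 * π) * Real.exp 1 * Real.exp (3 * u) := by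
    rw [charFun_mu2, mul_assoc, ← Real.exp_add]
    refine mul_le_mul_of_nonneg_left (Real.exp_le_exp.2 ?_) (Real.sqrt_nonneg _)
    nlinarith [sq_nonneg t]
  have h3 : ‖ph u t‖ ≤ ‖charFun (mu rho1 u) t‖ + ‖charFun (mu rho2 u) t‖ := norm_sub_le _ _
  calc ‖ph u t‖ ≤ Real.exp (9 / 2) * S * Real.exp (3 * u) +
        Real.sqrt (2 * π) * Real.exp 1 * Real.exp (3 * u) := h3.trans (add_le_add h1 h2)
    _ = _ := by ring

lemma far_pt (hK : TK κ K) (hκ : 0 ≤ κ) (hK1 : ∀ x, K x ≤ 1) : ∃ C : ℝ, 0 < C ∧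
    ∀ T : ℝ, 1 < T → ∀ t : ℝ, ZZ K T t ≤ ENNReal.ofReal (C * (Real.log T * T ^ (6 * κ))) := by
  obtain ⟨C, hC, h⟩ := mass_bd
  refine ⟨(κ + 1) * C ^ 2, by positivity, fun T hT t => ?_⟩
  have hTp : 0 < T := by linarith
  have hL : 0 < Real.log T := Real.log_pos hT
  unfold ZZ
  have h1 : ∀ u ∈ Set.Ioi (0 : ℝ), kT K T u * PH (u, t) ≤ (Set.Ioc 0 (κ * Real.log T)).indicator
      (fun _ => ENNReal.ofReal (C ^ 2 * T ^ (6 * κ))) u := by
    intro u hu
    have hu0 : 0 < u := hu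
    by_cases hub : u ≤ κ * Real.log T
    · rw [Set.indicator_of_mem (show u ∈ Set.Ioc 0 (κ * Real.log T) from ⟨hu0, hub⟩)]
      have h2 : kT K T u ≤ 1 := ENNReal.ofReal_le_one.2 (hK1 _)
      have h3 : PH (u, t) ≤ ENNReal.ofReal (C ^ 2 * T ^ (6 * κ)) := by
        unfold PH
        rw [← ofReal_norm, ← ENNReal.ofReal_pow (norm_nonneg _)]
        refine ENNReal.ofReal_le_ofReal ?_
        refine (pow_le_pow_left₀ (norm_nonneg _) (h u t hu0.le) 2).trans ?_
        rw [mul_pow, ← Real.exp_nat_mul, Real.rpow_def_of_pos hTp]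
        refine mul_le_mul_of_nonneg_left (Real.exp_le_exp.2 ?_) (by positivity)
        push_cast
        nlinarith
      calc kT K T u * PH (u, t) ≤ 1 * ENNReal.ofReal (C ^ 2 * T ^ (6 * κ)) := mul_le_mul' h2 h3
        _ = _ := one_mul _
    · have h2 : kT K T u = 0 := by
        unfold kT
        rw [hK.supp _ (by
          rw [abs_of_pos (by positivity), lt_div_iff₀ hL]
          exact not_le.1 hub), ENNReal.ofReal_zero]
      rw [h2, zero_mul]
      exact zero_le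
  refine (setLIntegral_mono' measurableSet_Ioi h1).trans ((setLIntegral_le_lintegral _ _).trans ?_)
  rw [lintegral_indicator measurableSet_Ioc, setLIntegral_const, Real.volume_Ioc, sub_zero,
    ← ENNReal.ofReal_mul (by positivity)]
  refine ENNReal.ofReal_le_ofReal ?_
  have h5 : 0 ≤ C ^ 2 * T ^ (6 * κ) := by positivity
  nlinarith [mul_nonneg h5 hL.le]

end Pool.Agent.H7.AD
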